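import Mathlib

set_option autoImplicit false
set_option linter.unusedSectionVars false

/-! Perturbations of the unit ball by functions with bounded second differences. -/

namespace Pool.Agent.Helper892.Body4

open Set Metric

section good

variable {E : Type*} [NormedAddCommGroup E] [NormedSpace ℝ E]

/-- Bounds on the ball of radius two for a function and its first and second differences. -/
structure GoodC (f : E → ℝ) (M : ℝ) : Prop where
  nonneg : 0 ≤ M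
  bd : ∀ v, ‖v‖ ≤ 2 → |f v| ≤ M
  lip : ∀ v h, ‖v‖ ≤ 2 → ‖v+h‖ ≤ 2 → |f (v+h) - f v| ≤ M*‖h‖
  sec : ∀ v h k, ‖v‖ ≤ 2 → ‖v+h‖ ≤ 2 → ‖v+k‖ ≤ 2 → ‖v+h+k‖ ≤ 2 →
    |f (v+h+k) - f (v+h) - f (v+k) + f v| ≤ M*(‖h‖*‖k‖)
  conv : ∀ v v' (a b : ℝ), ‖v‖ ≤ 2 → ‖v'‖ ≤ 2 → 0 ≤ a → 0 ≤ b → a+b = 1 →
    |a*f v+b*f v' - f (a•v+b•v')| ≤ M*(a*b*‖v-v'‖^2)

/-- Functions with such bounds. -/
def Good (f : E → ℝ) : Prop := ∃ M, GoodC f M

lemma Good.add {f g : E → ℝ} (hf : Good f) (hg : Good g) : Good (fun v => f v + g v) := by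
  obtain ⟨M, hM, f1, f2, f3, f4⟩ := hf
  obtain ⟨L, hL, g1, g2, g3, g4⟩ := hg
  refine ⟨M+L, by positivity, ?_, ?_, ?_, ?_⟩
  · intro v hv
    have := f1 v hv
    have := g1 v hv
    calc |f v+g v| ≤ |f v|+|g v| := abs_add_le _ _
      _ ≤ M+L := by linarith
  · intro v h hv hvh
    have := f2 v h hv hvh
    have := g2 v h hv hvh
    calc |f (v+h)+g (v+h)-(f v+g v)| = |(f (v+h)-f v)+(g (v+h)-g v)| := by ring_nf
      _ ≤ |f (v+h)-f v|+|g (v+h)-g v| := abs_add_le _ _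
      _ ≤ (M+L)*‖h‖ := by linarith
  · intro v h k h1 h2 h3 h4
    have := f3 v h k h1 h2 h3 h4
    have := g3 v h k h1 h2 h3 h4
    calc |f (v+h+k)+g (v+h+k)-(f (v+h)+g (v+h))-(f (v+k)+g (v+k))+(f v+g v)|
        = |(f (v+h+k)-f (v+h)-f (v+k)+f v)+(g (v+h+k)-g (v+h)-g (v+k)+g v)| := by ring_nf
      _ ≤ |f (v+h+k)-f (v+h)-f (v+k)+f v|+|g (v+h+k)-g (v+h)-g (v+k)+g v| := abs_add_le _ _
      _ ≤ (M+L)*(‖h‖*‖k‖) := by linarith
  · intro v v' a b h1 h2 h3 h4 h5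
    have := f4 v v' a b h1 h2 h3 h4 h5
    have := g4 v v' a b h1 h2 h3 h4 h5
    calc |a*(f v+g v)+b*(f v'+g v')-(f (a•v+b•v')+g (a•v+b•v'))|
        = |(a*f v+b*f v'-f (a•v+b•v'))+(a*g v+b*g v'-g (a•v+b•v'))| := by ring_nf
      _ ≤ |a*f v+b*f v'-f (a•v+b•v')|+|a*g v+b*g v'-g (a•v+b•v')| := abs_add_le _ _
      _ ≤ (M+L)*(a*b*‖v-v'‖^2) := by linarith

lemma abs_mul_le {x y X Y : ℝ} (hx : |x| ≤ X) (hy : |y| ≤ Y) : |x*y| ≤ X*Y := by
  rw [abs_mul]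
  exact mul_le_mul hx hy (abs_nonneg _) ((abs_nonneg _).trans hx)

lemma Good.mul {f g : E → ℝ} (hf : Good f) (hg : Good g) : Good (fun v => f v * g v) := by
  obtain ⟨M, hM, f1, f2, f3, f4⟩ := hf
  obtain ⟨L, hL, g1, g2, g3, g4⟩ := hg
  refine ⟨4*(M*L), by positivity, ?_, ?_, ?_, ?_⟩
  · intro v hv
    have := abs_mul_le (f1 v hv) (g1 v hv)
    have : 0 ≤ M*L := by positivity
    linarith
  · intro v h hv hvh
    have e1 := abs_mul_le (f1 _ hvh) (g2 v h hv hvh)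
    have e2 := abs_mul_le (f2 v h hv hvh) (g1 v hv)
    have e3 : 0 ≤ M*L*‖h‖ := by positivity
    calc |f (v+h)*g (v+h)-f v*g v| = |f (v+h)*(g (v+h)-g v)+(f (v+h)-f v)*g v| := by ring_nf
      _ ≤ |f (v+h)*(g (v+h)-g v)|+|(f (v+h)-f v)*g v| := abs_add_le _ _
      _ ≤ 4*(M*L)*‖h‖ := by linarith
  · intro v h k h1 h2 h3 h4
    have h3' : ‖v+k+h‖ ≤ 2 := by rw [add_right_comm]; exact h4
    have a1 := abs_mul_le (f3 v h k h1 h2 h3 h4) (g1 _ h4)
    have a2 := abs_mul_le (f1 _ h3) (g3 v h k h1 h2 h3 h4)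
    have a3 := abs_mul_le (f2 v h h1 h2) (g2 (v+h) k h2 h4)
    have a4 := abs_mul_le (f2 v k h1 h3) (g2 v h h1 h2)
    have e : f (v+h+k)*g (v+h+k)-f (v+h)*g (v+h)-f (v+k)*g (v+k)+f v*g v
        = (f (v+h+k)-f (v+h)-f (v+k)+f v)*g (v+h+k)
          + f (v+k)*(g (v+h+k)-g (v+h)-g (v+k)+g v)
          + (f (v+h)-f v)*(g (v+h+k)-g (v+h)) + (f (v+k)-f v)*(g (v+h)-g v) := by ring
    rw [e]
    refine (abs_add_le _ _).trans ?_
    refine (add_le_add_left (abs_add_le _ _) _).trans ?_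
    refine (add_le_add_left (add_le_add_left (abs_add_le _ _) _) _).trans ?_
    linarith
  · intro v v' a b h1 h2 h3 h4 h5
    have hd : ‖v+(v'-v)‖ ≤ 2 := by rw [add_sub_cancel]; exact h2
    have b1 := f2 v (v'-v) h1 hd
    have b2 := g2 v (v'-v) h1 hd
    rw [add_sub_cancel, norm_sub_rev] at b1 b2
    have b3 := abs_mul_le b1 b2
    have hab : 0 ≤ a*b := by positivity
    have hm : ‖a•v+b•v'‖ ≤ 2 := by
      calc ‖a•v+b•v'‖ ≤ ‖a•v‖+‖b•v'‖ := norm_add_le _ _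
        _ = a*‖v‖+b*‖v'‖ := by
          rw [norm_smul, norm_smul, Real.norm_of_nonneg h3, Real.norm_of_nonneg h4]
        _ ≤ a*2+b*2 := by gcongr
        _ = 2 := by rw [← add_mul, h5, one_mul]
    have b4 : |a*g v+b*g v'| ≤ L := by
      calc |a*g v+b*g v'| ≤ |a*g v|+|b*g v'| := abs_add_le _ _
        _ = a*|g v|+b*|g v'| := by
          rw [abs_mul, abs_mul, abs_of_nonneg h3, abs_of_nonneg h4]
        _ ≤ a*L+b*L := by
          gcongr
          · exact g1 v h1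
          · exact g1 v' h2
        _ = L := by rw [← add_mul, h5, one_mul]
    have b5 := abs_mul_le (f4 v v' a b h1 h2 h3 h4 h5) b4
    have b6 := abs_mul_le (f1 _ hm) (g4 v v' a b h1 h2 h3 h4 h5)
    have b7 : |a*b*((f v'-f v)*(g v'-g v))| ≤ a*b*(M*‖v-v'‖*(L*‖v-v'‖)) := by
      rw [abs_mul, abs_of_nonneg hab]
      gcongr
    have hb : b = 1-a := by linarith
    have e : a*(f v*g v)+b*(f v'*g v')-f (a•v+b•v')*g (a•v+b•v')
        = a*b*((f v'-f v)*(g v'-g v)) + (a*f v+b*f v'-f (a•v+b•v'))*(a*g v+b*g v')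
          + f (a•v+b•v')*(a*g v+b*g v'-g (a•v+b•v')) := by
      generalize f (a•v+b•v') = F
      generalize g (a•v+b•v') = G
      rw [hb]; ring
    have b8 : 0 ≤ M*L*(a*b*‖v-v'‖^2) := by positivity
    rw [e]
    refine (abs_add_le _ _).trans ?_
    refine (add_le_add_left (abs_add_le _ _) _).trans ?_
    linarith

lemma Good.const_mul {f : E → ℝ} (hf : Good f) (c : ℝ) : Good (fun v => c * f v) := by
  obtain ⟨M, hM, f1, f2, f3, f4⟩ := hf
  refine ⟨|c| * M, by positivity, ?_, ?_, ?_, ?_⟩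
  · intro v hv
    rw [abs_mul]
    exact mul_le_mul_of_nonneg_left (f1 v hv) (abs_nonneg c)
  · intro v h hv hvh
    rw [← mul_sub, abs_mul, mul_assoc]
    exact mul_le_mul_of_nonneg_left (f2 v h hv hvh) (abs_nonneg c)
  · intro v h k h1 h2 h3 h4
    rw [← mul_sub, ← mul_sub, ← mul_add, abs_mul, mul_assoc]
    exact mul_le_mul_of_nonneg_left (f3 v h k h1 h2 h3 h4) (abs_nonneg c)
  · intro v v' a b h1 h2 h3 h4 h5
    have e : a*(c*f v)+b*(c*f v')-c*f (a•v+b•v') = c*(a*f v+b*f v'-f (a•v+b•v')) := by ring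
    rw [e, abs_mul, mul_assoc]
    exact mul_le_mul_of_nonneg_left (f4 v v' a b h1 h2 h3 h4 h5) (abs_nonneg c)

lemma good_linear (L : E →L[ℝ] ℝ) : Good (fun v => L v) := by
  refine ⟨2*‖L‖, by positivity, ?_, ?_, ?_, ?_⟩
  · intro v hv
    calc |L v| = ‖L v‖ := (Real.norm_eq_abs _).symm
      _ ≤ ‖L‖*‖v‖ := L.le_opNorm v
      _ ≤ ‖L‖*2 := by gcongr
      _ = 2*‖L‖ := mul_comm _ _
  · intro v h _ _
    have h1 : ‖L h‖ ≤ ‖L‖*‖h‖ := L.le_opNorm h
    rw [Real.norm_eq_abs] at h1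
    have h2 : 0 ≤ ‖L‖*‖h‖ := by positivity
    rw [map_add, add_sub_cancel_left]
    linarith
  · intro v h k _ _ _ _
    have : L (v+h+k) - L (v+h) - L (v+k) + L v = 0 := by
      rw [map_add, map_add, map_add]; ring
    rw [this, abs_zero]
    positivity
  · intro v v' a b _ _ h3 h4 _
    have : a*L v+b*L v'-L (a•v+b•v') = 0 := by
      rw [map_add, map_smul, map_smul, smul_eq_mul, smul_eq_mul]; ring
    rw [this, abs_zero]
    positivity

end good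

section body

variable {E : Type*} [NormedAddCommGroup E] [InnerProductSpace ℝ E] [FiniteDimensional ℝ E]

/-- the perturbed ball -/
def body (P : E → ℝ) (t : ℝ) : Set E := {v | ‖v‖ ≤ 2 ∧ ‖v‖^2+t*P v ≤ 1}

lemma body_norm {P : E → ℝ} {M t : ℝ} (hP : GoodC P M) (ht : 0 ≤ t) (htM : t*M ≤ 1/2) {v : E}
    (hv : v ∈ body P t) : ‖v‖ < 2 := by
  have h1 := hP.bd v hv.1
  have h2 : |t*P v| ≤ 1/2 := by
    rw [abs_mul, abs_of_nonneg ht]
    exact (mul_le_mul_of_nonneg_left h1 ht).trans htM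
  have h3 := (abs_le.mp h2).1
  have h4 := hv.2
  nlinarith [norm_nonneg v]

lemma body_convex {P : E → ℝ} {M t : ℝ} (hP : GoodC P M) (ht : 0 ≤ t) (htM : t*M ≤ 1/2) :
    Convex ℝ (body P t) := by
  intro v hv v' hv' a b ha hb hab
  have e1 : ‖a•v+b•v'‖^2 = a*‖v‖^2+b*‖v'‖^2-a*b*‖v-v'‖^2 := by
    have hb' : b = 1-a := by linarith
    rw [norm_add_sq_real, norm_sub_sq_real, norm_smul, norm_smul, real_inner_smul_left,
      real_inner_smul_right, mul_pow, mul_pow, Real.norm_eq_abs, Real.norm_eq_abs, sq_abs,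
      sq_abs, hb']
    ring
  have h1 := hP.conv v v' a b hv.1 hv'.1 ha hb hab
  have h2 := (abs_le.mp h1).1
  have hx : 0 ≤ a*b*‖v-v'‖^2 := by positivity
  refine ⟨?_, ?_⟩
  · have h3 := hv.1
    have h4 := hv'.1
    calc ‖a•v+b•v'‖ ≤ ‖a•v‖+‖b•v'‖ := norm_add_le _ _
      _ = a*‖v‖+b*‖v'‖ := by
        rw [norm_smul, norm_smul, Real.norm_of_nonneg ha, Real.norm_of_nonneg hb]
      _ ≤ a*2+b*2 := by gcongr
      _ = 2 := by rw [← add_mul, hab, one_mul]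
  · have h3 := hv.2
    have h4 := hv'.2
    rw [e1]
    have h5 : t*P (a•v+b•v') ≤ t*(a*P v+b*P v'+M*(a*b*‖v-v'‖^2)) :=
      mul_le_mul_of_nonneg_left (by linarith) ht
    have h6 : t*M*(a*b*‖v-v'‖^2) ≤ 1/2*(a*b*‖v-v'‖^2) := mul_le_mul_of_nonneg_right htM hx
    have h7 : a*(‖v‖^2+t*P v)+b*(‖v'‖^2+t*P v') ≤ a*1+b*1 := by gcongr
    nlinarith

lemma body_isClosed {P : E → ℝ} (hc : Continuous P) (t : ℝ) : IsClosed (body P t) := by
  apply IsClosed.and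
  · exact isClosed_le (by fun_prop) (by fun_prop)
  · exact isClosed_le (by fun_prop) (by fun_prop)

lemma body_isCompact {P : E → ℝ} (hc : Continuous P) (t : ℝ) : IsCompact (body P t) := by
  apply (isCompact_closedBall (0 : E) 2).of_isClosed_subset (body_isClosed hc t)
  intro v hv
  rw [mem_closedBall_zero_iff]
  exact hv.1

lemma body_open {P : E → ℝ} (hc : Continuous P) (t : ℝ) :
    {v | ‖v‖ < 2 ∧ ‖v‖^2+t*P v < 1} ⊆ interior (body P t) := by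
  apply interior_maximal
  · rintro v ⟨h1, h2⟩; exact ⟨h1.le, h2.le⟩
  · apply IsOpen.and
    · exact isOpen_lt (by fun_prop) (by fun_prop)
    · exact isOpen_lt (by fun_prop) (by fun_prop)

lemma body_interior {P : E → ℝ} (hc : Continuous P) (t : ℝ) (h0 : P 0 = 0) :
    (interior (body P t)).Nonempty :=
  ⟨0, body_open hc t ⟨by simp, by simp [h0]⟩⟩

lemma body_frontier {P : E → ℝ} (hc : Continuous P) {M t : ℝ} (hP : GoodC P M) (ht : 0 ≤ t)
    (htM : t*M ≤ 1/2) {v : E} (hv : v ∈ frontier (body P t)) :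
    ‖v‖ ≤ 2 ∧ ‖v‖^2+t*P v = 1 := by
  rw [(body_isClosed hc t).frontier_eq] at hv
  refine ⟨hv.1.1, le_antisymm hv.1.2 ?_⟩
  by_contra h
  push Not at h
  exact hv.2 (body_open hc t ⟨body_norm hP ht htM hv.1, h⟩)

end body

end Pool.Agent.Helper892.Body4
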