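import Mathlib

set_option autoImplicit false

/-! Two algebraic obstructions for orthonormal frames of `ℝ³`. -/

namespace Pool.Agent.Helper892.Frame3

lemma rel1 (r1 r2 r3 s1 s2 s3 : ℝ) (h0 : r1 + r2 + r3 = 0) (h12 : r1*r2 + s1*s2 = -1)
    (h13 : r1*r3 + s1*s3 = -1) (h23 : r2*r3 + s2*s3 = -1) :
    2*(s1*s2+s1*s3+s2*s3) + 3 + (s1*s2*s3)*(s1+s2+s3) = 0 := by
  grind

lemma rel2 (r1 r2 r3 s1 s2 s3 : ℝ) (h0 : r1 + r2 + r3 = 0) (h12 : r1*r2 + s1*s2 = -1)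
    (h13 : r1*r3 + s1*s3 = -1) (h23 : r2*r3 + s2*s3 = -1) :
    2*(r1*r2*r3)^2 = 1 - (s1+s2+s3)*(s1*s2*s3) - 2*(s1*s2*s3)^2 := by
  grind

/-- the key identity -/
lemma key (r1 r2 r3 s1 s2 s3 : ℝ) (h0 : r1 + r2 + r3 = 0) (h12 : r1*r2 + s1*s2 = -1)
    (h13 : r1*r3 + s1*s3 = -1) (h23 : r2*r3 + s2*s3 = -1) (τ σ e3 : ℝ)
    (hτ : τ = s1+s2+s3) (hσ : σ = s1*s2*s3) (he3 : e3 = r1*r2*r3) :
    (r2+r3 - (r2*s3+r3*s2)/2)*((1 + s1*s3 + (s1+s3)/2)*(1 + s1*s2 + (s1+s2)/2))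
    +(r1+r3 - (r1*s3+r3*s1)/2)*((1 + s2*s3 + (s2+s3)/2)*(1 + s1*s2 + (s1+s2)/2))
    +(r1+r2 - (r1*s2+r2*s1)/2)*((1 + s2*s3 + (s2+s3)/2)*(1 + s1*s3 + (s1+s3)/2))
    = 3/4*e3*((4+τ)*(σ - τ*σ/4 + τ + 1/2) - τ^2-11/4*τ-6) := by
  have R1 : 2*(s1*s2+s1*s3+s2*s3) + 3 + σ*τ = 0 := by grind
  have P1 : r1*s1 = -e3*s1 - σ*r1 := by grind
  have P2 : r2*s2 = -e3*s2 - σ*r2 := by grind
  have P3 : r3*s3 = -e3*s3 - σ*r3 := by grind
  have hP : r1*s1+r2*s2+r3*s3 = -e3*τ := by rw [hτ]; linear_combination P1+P2+P3 - σ*h0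
  have hP2 : r1*s1^2+r2*s2^2+r3*s3^2 = -e3*(τ^2+3) := by
    have : s1^2+s2^2+s3^2 = τ^2 + 3 + σ*τ := by rw [hτ] at R1 ⊢; linear_combination -R1
    linear_combination s1*P1+s2*P2+s3*P3 - σ*hP - e3*this
  have K1 : r2+r3 - (r2*s3+r3*s2)/2 = (τ/2-1+σ)*r1+e3*(s1-τ/2) := by grind
  have K2 : r1+r3 - (r1*s3+r3*s1)/2 = (τ/2-1+σ)*r2+e3*(s2-τ/2) := by grind
  have K3 : r1+r2 - (r1*s2+r2*s1)/2 = (τ/2-1+σ)*r3+e3*(s3-τ/2) := by grind
  have B1 : (1 + s1*s3 + (s1+s3)/2)*(1 + s1*s2 + (s1+s2)/2) =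
    (1+τ/2+σ/2-(3+σ*τ)/8) + s1*(τ+1/2+σ-(3+σ*τ)/4) - 3/4*s1^2 := by grind
  have B2 : (1 + s2*s3 + (s2+s3)/2)*(1 + s1*s2 + (s1+s2)/2) =
    (1+τ/2+σ/2-(3+σ*τ)/8) + s2*(τ+1/2+σ-(3+σ*τ)/4) - 3/4*s2^2 := by grind
  have B3 : (1 + s2*s3 + (s2+s3)/2)*(1 + s1*s3 + (s1+s3)/2) =
    (1+τ/2+σ/2-(3+σ*τ)/8) + s3*(τ+1/2+σ-(3+σ*τ)/4) - 3/4*s3^2 := by grind
  rw [K1, K2, K3, B1, B2, B3]
  set b0 := (1+τ/2+σ/2-(3+σ*τ)/8) with hb0
  set b1 := (τ+1/2+σ-(3+σ*τ)/4) with hb1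
  have S2 : s1^2+s2^2+s3^2 = τ^2 + 3 + σ*τ := by rw [hτ] at R1 ⊢; linear_combination -R1
  have S3 : s1^3+s2^3+s3^3 = τ*(τ^2 + 3 + σ*τ) + (3+σ*τ)/2*τ+3*σ := by grind
  have e : ((τ/2-1+σ)*r1+e3*(s1-τ/2))*(b0+s1*b1-3/4*s1^2)
    +((τ/2-1+σ)*r2+e3*(s2-τ/2))*(b0+s2*b1-3/4*s2^2)
    + ((τ/2-1+σ)*r3+e3*(s3-τ/2))*(b0+s3*b1-3/4*s3^2)
    = (τ/2-1+σ)*(b0*(r1+r2+r3)+b1*(r1*s1+r2*s2+r3*s3)-3/4*(r1*s1^2+r2*s2^2+r3*s3^2))
      + e3*(b0*(s1+s2+s3) -3*b0*τ/2 + b1*(s1^2+s2^2+s3^2) - b1*τ/2*(s1+s2+s3)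
        - 3/4*(s1^3+s2^3+s3^3) + 3/8*τ*(s1^2+s2^2+s3^2)) := by ring
  rw [e, h0, hP, hP2, S2, S3, ← hτ, hb0, hb1]
  ring

lemma prodAlpha (s1 s2 s3 τ σ : ℝ) (hτ : τ = s1+s2+s3) (hσ : σ = s1*s2*s3)
    (R1 : 2*(s1*s2+s1*s3+s2*s3) + 3 + σ*τ = 0) :
    (1 + s2*s3 + (s2+s3)/2)*(1 + s1*s3 + (s1+s3)/2)*(1 + s1*s2 + (s1+s2)/2)
    = (σ - τ*σ/4 + τ + 1/2)*((σ - τ*σ/4 + τ + 1/2) - 3/4*τ-9/8)+9/16*(τ-τ*σ/2) := by
  have : s1*s2+s1*s3+s2*s3 = -(3+σ*τ)/2 := by linarith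
  subst hτ hσ
  grind

lemma quintic (t : ℝ) (h : t < 4) : 0 < -2*t^5+9*t^4-18*t^3+107*t^2-60*t+288 := by
  rcases le_or_gt t 0 with h0 | h0
  · have h3 : 0 ≤ -t^3 := by
      have := pow_nonneg (neg_nonneg.mpr h0) 3
      nlinarith
    have h5 : 0 ≤ -t^5 := by
      have := pow_nonneg (neg_nonneg.mpr h0) 5
      nlinarith
    have h4 : 0 ≤ t^4 := by positivity
    nlinarith [sq_nonneg t]
  · have h4 : 0 ≤ t^4 * (8 - 2*t) := mul_nonneg (by positivity) (by linarith)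
    have h2 : 0 ≤ t^2 * (t-9)^2 := by positivity
    nlinarith [sq_nonneg (26*t-30)]

/-- the final real-variable contradiction -/
lemma contra1 (τ σ : ℝ) (hb : (4+τ)*(σ - τ*σ/4 + τ + 1/2) - τ^2-11/4*τ-6 = 0)
    (hd : 0 ≤ 1 - τ*σ - 2*σ^2)
    (hp : (σ - τ*σ/4 + τ + 1/2)*((σ - τ*σ/4 + τ + 1/2) - 3/4*τ-9/8)+9/16*(τ-τ*σ/2) ≤ 0) :
    False := by
  have hs : σ*(16-τ^2) = 16-7*τ := by linear_combination 4*hb
  set V := σ - τ*σ/4 + τ + 1/2 with hV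
  have hVe : (4+τ)*V = τ^2+11/4*τ+6 := by linear_combination hb
  rcases lt_trichotomy τ 4 with h | h | h
  · have h1 : 8*((τ+4)^2*(4-τ))*(V*(V - 3/4*τ-9/8)+9/16*(τ-τ*σ/2))
        = -2*τ^5+9*τ^4-18*τ^3+107*τ^2-60*τ+288 := by
      have e1 : (τ+4)^2*(V*(V - 3/4*τ-9/8)) =
          (τ^2+11/4*τ+6)*((τ^2+11/4*τ+6) - (4+τ)*(3/4*τ+9/8)) := by
        rw [← hVe]; ring
      have e2 : (τ+4)*(4-τ)*(9/16*(τ-τ*σ/2)) = 9/16*(τ*(16-τ^2)-τ*(16-7*τ)/2) := by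
        rw [← hs]; ring
      linear_combination 8*(4-τ)*e1 + 8*(τ+4)*e2
    have h2 := quintic τ h
    have h3 : 0 ≤ 8*((τ+4)^2*(4-τ)) := by
      have : 0 ≤ 4 - τ := by linarith
      positivity
    nlinarith
  · rw [h] at hs; norm_num at hs
  · have h1 : 0 < τ^2-16 := by nlinarith
    have h2 : τ*σ*(τ^2-16) = τ*(7*τ-16) := by linear_combination -τ*hs
    have h3 : (τ*σ - 1)*(τ^2-16) = 6*τ^2-16*τ+16 := by linear_combination h2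
    have h4 : 0 < 6*τ^2-16*τ+16 := by nlinarith
    have h5 : 0 < τ*σ-1 := by
      by_contra h6
      push Not at h6
      nlinarith
    nlinarith [sq_nonneg σ]

/-- An orthonormal frame `(xᵢ,yᵢ,zᵢ)` of `ℝ³`. -/
structure Fr (x1 y1 z1 x2 y2 z2 x3 y3 z3 : ℝ) : Prop where
  n1 : x1^2+y1^2+z1^2 = 1
  n2 : x2^2+y2^2+z2^2 = 1
  n3 : x3^2+y3^2+z3^2 = 1
  o12 : x1*x2+y1*y2+z1*z2 = 0
  o13 : x1*x3+y1*y3+z1*z3 = 0
  o23 : x2*x3+y2*y3+z2*z3 = 0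
  cx : x1^2+x2^2+x3^2 = 1
  cy : y1^2+y2^2+y3^2 = 1
  cz : z1^2+z2^2+z3^2 = 1
  cxy : x1*y1+x2*y2+x3*y3 = 0
  cxz : x1*z1+x2*z2+x3*z3 = 0
  cyz : y1*z1+y2*z2+y3*z3 = 0

/-- The rows being orthonormal suffices. -/
lemma Fr.of_rows {x1 y1 z1 x2 y2 z2 x3 y3 z3 : ℝ}
    (n1 : x1^2+y1^2+z1^2 = 1) (n2 : x2^2+y2^2+z2^2 = 1) (n3 : x3^2+y3^2+z3^2 = 1)
    (o12 : x1*x2+y1*y2+z1*z2 = 0) (o13 : x1*x3+y1*y3+z1*z3 = 0)
    (o23 : x2*x3+y2*y3+z2*z3 = 0) : Fr x1 y1 z1 x2 y2 z2 x3 y3 z3 := by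
  have h1 : (!![x1,y1,z1;x2,y2,z2;x3,y3,z3] : Matrix (Fin 3) (Fin 3) ℝ) *
      !![x1,x2,x3;y1,y2,y3;z1,z2,z3] = 1 := by
    ext i j
    fin_cases i <;> fin_cases j <;> simp [Matrix.mul_apply, Fin.sum_univ_three] <;> linarith
  have h2 := mul_eq_one_comm.mp h1
  have h3 := fun i j => congrFun (congrFun h2 i) j
  have a00 := h3 0 0
  have a11 := h3 1 1
  have a22 := h3 2 2
  have a01 := h3 0 1
  have a02 := h3 0 2
  have a12 := h3 1 2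
  simp [Matrix.mul_apply, Fin.sum_univ_three] at a00 a11 a22 a01 a02 a12
  exact ⟨n1, n2, n3, o12, o13, o23, by linarith, by linarith, by linarith, by linarith,
    by linarith, by linarith⟩

lemma Fr.swap12 {x1 y1 z1 x2 y2 z2 x3 y3 z3 : ℝ} (h : Fr x1 y1 z1 x2 y2 z2 x3 y3 z3) :
    Fr x2 y2 z2 x1 y1 z1 x3 y3 z3 := by
  obtain ⟨n1, n2, n3, o12, o13, o23, cx, cy, cz, cxy, cxz, cyz⟩ := h
  constructor <;> linarith

lemma Fr.swap23 {x1 y1 z1 x2 y2 z2 x3 y3 z3 : ℝ} (h : Fr x1 y1 z1 x2 y2 z2 x3 y3 z3) :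
    Fr x1 y1 z1 x3 y3 z3 x2 y2 z2 := by
  obtain ⟨n1, n2, n3, o12, o13, o23, cx, cy, cz, cxy, cxz, cyz⟩ := h
  constructor <;> linarith

/-- the quadratic form `y²+z²+yz`, polarised -/
noncomputable def A (y z y' z' : ℝ) : ℝ := y*y'+z*z'+(y*z'+z*y')/2

/-- the quadratic form `x(y-z/2)`, polarised (times two) -/
noncomputable def q (x y z x' y' z' : ℝ) : ℝ := x*(y'-z'/2)+x'*(y-z/2)

/-- Data contradicting the first 3D lemma. -/
structure Bad (x1 y1 z1 x2 y2 z2 x3 y3 z3 w1 w2 w3 : ℝ) : Prop where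
  fr : Fr x1 y1 z1 x2 y2 z2 x3 y3 z3
  c : x1*y2*y3+x2*y1*y3+x3*y1*y2 = 0
  a12 : w1*w2 = -A y1 z1 y2 z2
  a13 : w1*w3 = -A y1 z1 y3 z3
  a23 : w2*w3 = -A y2 z2 y3 z3
  e : w1*q x2 y2 z2 x3 y3 z3 + w2*q x1 y1 z1 x3 y3 z3 + w3*q x1 y1 z1 x2 y2 z2 = 0

lemma Bad.swap12 {x1 y1 z1 x2 y2 z2 x3 y3 z3 w1 w2 w3 : ℝ}
    (h : Bad x1 y1 z1 x2 y2 z2 x3 y3 z3 w1 w2 w3) :
    Bad x2 y2 z2 x1 y1 z1 x3 y3 z3 w2 w1 w3 := by
  obtain ⟨fr, c, a12, a13, a23, e⟩ := h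
  refine ⟨fr.swap12, by linarith, ?_, a23, a13, ?_⟩
  · unfold A at *; linarith
  · unfold q at *; linarith

lemma Bad.swap23 {x1 y1 z1 x2 y2 z2 x3 y3 z3 w1 w2 w3 : ℝ}
    (h : Bad x1 y1 z1 x2 y2 z2 x3 y3 z3 w1 w2 w3) :
    Bad x1 y1 z1 x3 y3 z3 x2 y2 z2 w1 w3 w2 := by
  obtain ⟨fr, c, a12, a13, a23, e⟩ := h
  refine ⟨fr.swap23, by linarith, a13, a12, ?_, ?_⟩
  · unfold A at *; linarith
  · unfold q at *; linarith

lemma degen (r1 r2 r3 s1 s2 s3 v1 v2 v3 : ℝ) (C : r1+r2+r3 = 0) (O12 : r1*r2+s1*s2 = -1)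
    (O13 : r1*r3+s1*s3 = -1) (O23 : r2*r3+s2*s3 = -1) (V12 : v1*v2 = -(1 + s1*s2 + (s1+s2)/2))
    (V13 : v1*v3 = -(1 + s1*s3 + (s1+s3)/2)) (V23 : v2*v3 = -(1 + s2*s3 + (s2+s3)/2))
    (E : v1*(r2+r3 - (r2*s3+r3*s2)/2) + v2*(r1+r3 - (r1*s3+r3*s1)/2)
      + v3*(r1+r2 - (r1*s2+r2*s1)/2) = 0) (hr3 : r3 = 0) : False := by
  subst hr3
  have hr2 : r2 = -r1 := by linarith
  subst hr2
  have hs13 : s1*s3 = -1 := by linarith
  have hs23 : s2*s3 = -1 := by linarith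
  have hs3 : s3 ≠ 0 := by rintro rfl; norm_num at hs13
  have hs12 : s1 = s2 := by
    apply mul_right_cancel₀ hs3; rw [hs13, hs23]
  subst hs12
  have hr : r1^2 = 1 + s1^2 := by nlinarith
  have hV : v1*v2 < 0 := by rw [V12]; nlinarith [sq_nonneg (s1+1/2)]
  have hne : v1 - v2 ≠ 0 := by
    intro h; have : v1 = v2 := by linarith
    subst this; nlinarith [sq_nonneg v1]
  have hv3 : v3 = 0 := by
    have : (v1-v2)*v3 = 0 := by linear_combination V13 - V23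
    exact (mul_eq_zero.mp this).resolve_left hne
  subst hv3
  have hs : s1+s3 = 0 := by nlinarith
  have h5 : (v2-v1)*(r1*(1-s3/2)) = 0 := by linear_combination E
  have h6 : r1*(1-s3/2) = 0 := by
    rcases mul_eq_zero.mp h5 with h | h
    · exact absurd (by linarith) hne
    · exact h
  have hr1 : r1 ≠ 0 := by rintro rfl; nlinarith [sq_nonneg s1]
  have h7 : 1-s3/2 = 0 := (mul_eq_zero.mp h6).resolve_left hr1
  have h8 : s3 = 2 := by linarith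
  have h9 : s1 = -2 := by linarith
  rw [h8, h9] at hs13
  norm_num at hs13

/-- the contradiction in normalised coordinates -/
lemma core (r1 r2 r3 s1 s2 s3 v1 v2 v3 : ℝ) (C : r1+r2+r3 = 0) (O12 : r1*r2+s1*s2 = -1)
    (O13 : r1*r3+s1*s3 = -1) (O23 : r2*r3+s2*s3 = -1) (V12 : v1*v2 = -(1 + s1*s2 + (s1+s2)/2))
    (V13 : v1*v3 = -(1 + s1*s3 + (s1+s3)/2)) (V23 : v2*v3 = -(1 + s2*s3 + (s2+s3)/2))
    (E : v1*(r2+r3 - (r2*s3+r3*s2)/2) + v2*(r1+r3 - (r1*s3+r3*s1)/2)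
      + v3*(r1+r2 - (r1*s2+r2*s1)/2) = 0) : False := by
  have R1 := rel1 r1 r2 r3 s1 s2 s3 C O12 O13 O23
  have R2 := rel2 r1 r2 r3 s1 s2 s3 C O12 O13 O23
  have hkey := key r1 r2 r3 s1 s2 s3 C O12 O13 O23 _ _ _ rfl rfl rfl
  have hpr := prodAlpha s1 s2 s3 _ _ rfl rfl R1
  have ea1 : 1 + s2*s3 + (s2+s3)/2 = -(v2*v3) := by linarith
  have ea2 : 1 + s1*s3 + (s1+s3)/2 = -(v1*v3) := by linarith
  have ea3 : 1 + s1*s2 + (s1+s2)/2 = -(v1*v2) := by linarith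
  rw [ea1, ea2, ea3] at hkey hpr
  have hsum : (r2+r3 - (r2*s3+r3*s2)/2)*(-(v1*v3)*(-(v1*v2)))
      +(r1+r3 - (r1*s3+r3*s1)/2)*(-(v2*v3)*(-(v1*v2)))
      +(r1+r2 - (r1*s2+r2*s1)/2)*(-(v2*v3)*(-(v1*v3))) = 0 := by
    linear_combination (v1*v2*v3)*E
  have hneg : -(v2*v3)*(-(v1*v3))*(-(v1*v2)) ≤ 0 := by
    have : -(v2*v3)*(-(v1*v3))*(-(v1*v2)) = -(v1*v2*v3)^2 := by ring
    rw [this]
    linarith [sq_nonneg (v1*v2*v3)]
  rw [hsum] at hkey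
  by_cases he : r1*r2*r3 = 0
  · rcases mul_eq_zero.mp he with h | h
    · rcases mul_eq_zero.mp h with h | h
      · exact degen r3 r2 r1 s3 s2 s1 v3 v2 v1 (by linarith) (by linarith) (by linarith)
          (by linarith) (by rw [mul_comm, V23]; ring) (by rw [mul_comm, V13]; ring)
          (by rw [mul_comm, V12]; ring) (by linear_combination E) h
      · exact degen r1 r3 r2 s1 s3 s2 v1 v3 v2 (by linarith) (by linarith) (by linarith)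
          (by linarith) V13 V12 (by rw [mul_comm, V23]; ring) (by linear_combination E) h
    · exact degen r1 r2 r3 s1 s2 s3 v1 v2 v3 C O12 O13 O23 V12 V13 V23 E h
  · have hbr : (4+(s1+s2+s3))*((s1*s2*s3) - (s1+s2+s3)*(s1*s2*s3)/4 + (s1+s2+s3) + 1/2)
        - (s1+s2+s3)^2-11/4*(s1+s2+s3)-6 = 0 := by
      have : (3/4*(r1*r2*r3)) ≠ 0 := mul_ne_zero (by norm_num) he
      exact (mul_eq_zero.mp hkey.symm).resolve_left this
    have hd : 0 ≤ 1 - (s1+s2+s3)*(s1*s2*s3) - 2*(s1*s2*s3)^2 := by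
      rw [← R2]; positivity
    exact contra1 (s1+s2+s3) (s1*s2*s3) hbr hd (by rw [← hpr]; exact hneg)

/-- first lemma, all `y` nonzero -/
lemma Bad.false_of_ne {x1 y1 z1 x2 y2 z2 x3 y3 z3 w1 w2 w3 : ℝ}
    (h : Bad x1 y1 z1 x2 y2 z2 x3 y3 z3 w1 w2 w3) (h1 : y1 ≠ 0) (h2 : y2 ≠ 0) (h3 : y3 ≠ 0) :
    False := by
  obtain ⟨fr, c, a12, a13, a23, e⟩ := h
  obtain ⟨n1, n2, n3, o12, o13, o23, cx, cy, cz, cxy, cxz, cyz⟩ := fr
  clear n1 n2 n3 cx cy cz cxy cxz cyz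
  obtain ⟨r1, rfl⟩ : ∃ r, x1 = r*y1 := ⟨x1/y1, by field_simp⟩
  obtain ⟨r2, rfl⟩ : ∃ r, x2 = r*y2 := ⟨x2/y2, by field_simp⟩
  obtain ⟨r3, rfl⟩ : ∃ r, x3 = r*y3 := ⟨x3/y3, by field_simp⟩
  obtain ⟨s1, rfl⟩ : ∃ s, z1 = s*y1 := ⟨z1/y1, by field_simp⟩
  obtain ⟨s2, rfl⟩ : ∃ s, z2 = s*y2 := ⟨z2/y2, by field_simp⟩
  obtain ⟨s3, rfl⟩ : ∃ s, z3 = s*y3 := ⟨z3/y3, by field_simp⟩
  obtain ⟨v1, rfl⟩ : ∃ v, w1 = v*y1 := ⟨w1/y1, by field_simp⟩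
  obtain ⟨v2, rfl⟩ : ∃ v, w2 = v*y2 := ⟨w2/y2, by field_simp⟩
  obtain ⟨v3, rfl⟩ : ∃ v, w3 = v*y3 := ⟨w3/y3, by field_simp⟩
  have h12 : y1*y2 ≠ 0 := mul_ne_zero h1 h2
  have h13 : y1*y3 ≠ 0 := mul_ne_zero h1 h3
  have h23 : y2*y3 ≠ 0 := mul_ne_zero h2 h3
  have h123 : y1*y2*y3 ≠ 0 := mul_ne_zero h12 h3
  unfold A at a12 a13 a23
  unfold q at e
  refine core r1 r2 r3 s1 s2 s3 v1 v2 v3 ?_ ?_ ?_ ?_ ?_ ?_ ?_ ?_
  · apply mul_left_cancel₀ h123; linear_combination c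
  · apply mul_left_cancel₀ h12; linear_combination o12
  · apply mul_left_cancel₀ h13; linear_combination o13
  · apply mul_left_cancel₀ h23; linear_combination o23
  · apply mul_left_cancel₀ h12; linear_combination a12
  · apply mul_left_cancel₀ h13; linear_combination a13
  · apply mul_left_cancel₀ h23; linear_combination a23
  · apply mul_left_cancel₀ h123; linear_combination e

/-- first lemma, `y1 = y2 = 0` -/
lemma Bad.false_of_zero2 {x1 z1 x2 z2 x3 y3 z3 w1 w2 w3 : ℝ}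
    (h : Bad x1 0 z1 x2 0 z2 x3 y3 z3 w1 w2 w3) : False := by
  obtain ⟨fr, c, a12, a13, a23, e⟩ := h
  obtain ⟨n1, n2, n3, o12, o13, o23, cx, cy, cz, cxy, cxz, cyz⟩ := fr
  have hy3 : y3 ≠ 0 := by rintro rfl; norm_num at cy
  have hx3 : x3 = 0 := by
    have : x3*y3 = 0 := by linarith
    exact (mul_eq_zero.mp this).resolve_right hy3
  have hz3 : z3 = 0 := by
    have : y3*z3 = 0 := by linarith
    exact (mul_eq_zero.mp this).resolve_left hy3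
  subst hx3 hz3
  have hyy : y3^2 = 1 := by linarith
  unfold A at a12 a13 a23
  unfold q at e
  have b12 : w1*w2 = -(z1*z2) := by linarith
  have b13 : w1*w3 = -(z1*y3/2) := by linarith
  have b23 : w2*w3 = -(z2*y3/2) := by linarith
  have be : w1*(x2*y3)+w2*(x1*y3)-w3*(x1*z2+x2*z1)/2 = 0 := by linarith
  have hz : z1*z2 = 0 := by
    have h1 : (w1*w2*w3)^2 = -(z1*z2)^2*y3^2/4 := by
      have : (w1*w2*w3)^2 = (w1*w2)*(w1*w3)*(w2*w3) := by ring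
      rw [this, b12, b13, b23]; ring
    rw [hyy] at h1
    have h2 : (z1*z2)^2 ≤ 0 := by nlinarith [sq_nonneg (w1*w2*w3)]
    exact pow_eq_zero_iff (two_ne_zero) |>.mp (le_antisymm h2 (sq_nonneg _))
  have fin : ∀ x1 x2 z2 w1 w2 w3 : ℝ, x1^2 = 1 → x1*x2 = 0 → x2^2+z2^2 = 1 → w1*w2 = 0 →
      w1*w3 = 0 → w2*w3 = -(z2*y3/2) →
      w1*(x2*y3)+w2*(x1*y3)-w3*(x1*z2)/2 = 0 → False := by
    intro x1 x2 z2 w1 w2 w3 h1 h2 h3 h4 h5 h6 h7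
    have hx1 : x1 ≠ 0 := by rintro rfl; norm_num at h1
    have hx2 : x2 = 0 := (mul_eq_zero.mp h2).resolve_left hx1
    subst hx2
    have hz2 : z2^2 = 1 := by linarith
    have h8 : w2*y3 - w3*z2/2 = 0 := by
      apply mul_left_cancel₀ hx1; linear_combination h7
    have h9 : (w2*w3)*y3 - w3^2*z2/2 = 0 := by linear_combination w3*h8
    rw [h6] at h9
    have h10 : z2*(1 + w3^2) = 0 := by linear_combination -2*h9 - z2*hyy
    rcases mul_eq_zero.mp h10 with h | h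
    · rw [h] at hz2; norm_num at hz2
    · nlinarith [sq_nonneg w3]
  rcases mul_eq_zero.mp hz with h | h
  · subst h
    exact fin x1 x2 z2 w1 w2 w3 (by linarith) (by linarith) (by linarith) (by linarith)
      (by linarith) b23 (by linarith)
  · subst h
    exact fin x2 x1 z1 w2 w1 w3 (by linarith) (by linarith) (by linarith) (by linarith)
      (by linarith) b13 (by linarith)

/-- first lemma, `y1 = 0` -/
lemma Bad.false_of_zero {x1 z1 x2 y2 z2 x3 y3 z3 w1 w2 w3 : ℝ}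
    (h : Bad x1 0 z1 x2 y2 z2 x3 y3 z3 w1 w2 w3) : False := by
  by_cases h2 : y2 = 0
  · subst h2; exact h.false_of_zero2
  by_cases h3 : y3 = 0
  · subst h3; exact h.swap23.false_of_zero2
  obtain ⟨fr, c, a12, a13, a23, e⟩ := h
  obtain ⟨n1, n2, n3, o12, o13, o23, cx, cy, cz, cxy, cxz, cyz⟩ := fr
  have hx1 : x1 = 0 := by
    have : x1*(y2*y3) = 0 := by linarith
    exact (mul_eq_zero.mp this).resolve_right (mul_ne_zero h2 h3)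
  subst hx1
  have hz1 : z1 ≠ 0 := by rintro rfl; norm_num at n1
  have hz2 : z2 = 0 := by
    have : z1*z2 = 0 := by linarith
    exact (mul_eq_zero.mp this).resolve_left hz1
  have hz3 : z3 = 0 := by
    have : z1*z3 = 0 := by linarith
    exact (mul_eq_zero.mp this).resolve_left hz1
  subst hz2 hz3
  unfold A at a12 a13 a23
  have b12 : w1*w2 = -(z1*y2/2) := by linarith
  have b13 : w1*w3 = -(z1*y3/2) := by linarith
  have b23 : w2*w3 = -(y2*y3) := by linarith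
  have h1 : (w1*w2*w3)^2 = -(z1*(y2*y3))^2/4 := by
    have : (w1*w2*w3)^2 = (w1*w2)*(w1*w3)*(w2*w3) := by ring
    rw [this, b12, b13, b23]; ring
  have h4 : 0 < (z1*(y2*y3))^2 := by
    have : z1*(y2*y3) ≠ 0 := mul_ne_zero hz1 (mul_ne_zero h2 h3)
    positivity
  nlinarith [sq_nonneg (w1*w2*w3)]

/-- **first 3D lemma** -/
theorem Bad.false {x1 y1 z1 x2 y2 z2 x3 y3 z3 w1 w2 w3 : ℝ}
    (h : Bad x1 y1 z1 x2 y2 z2 x3 y3 z3 w1 w2 w3) : False := by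
  by_cases h1 : y1 = 0
  · subst h1; exact h.false_of_zero
  by_cases h2 : y2 = 0
  · subst h2; exact h.swap12.false_of_zero
  by_cases h3 : y3 = 0
  · subst h3; exact h.swap23.swap12.false_of_zero
  exact h.false_of_ne h1 h2 h3

/-! ### the second lemma -/

/-- normalised coordinates, second lemma -/
lemma core2 (r1 r2 r3 s1 s2 s3 : ℝ) (C : r1+r2+r3 = 0) (O12 : r1*r2+s1*s2 = -1)
    (O13 : r1*r3+s1*s3 = -1) (O23 : r2*r3+s2*s3 = -1) (V12 : 1 + s1*s2 + (s1+s2)/2 = 0)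
    (E : r1+r2 - (r1*s2+r2*s1)/2 = 0) : False := by
  have R1 := rel1 r1 r2 r3 s1 s2 s3 C O12 O13 O23
  obtain ⟨m, hm⟩ : ∃ m, m = s1+s2 := ⟨_, rfl⟩
  have hp : s1*s2 = -1-m/2 := by rw [hm]; linarith
  -- first relation
  have e1 : r3^2 = 2+s3*m := by
    rw [hm]
    linear_combination r3*C - O13 - O23
  have e2 : (r1-r2)*r3 = -((s1-s2)*s3) := by linarith
  have e3 : (s1-s2)^2 = m^2+4+2*m := by rw [hm]; nlinarith
  have e4 : 2*(r1*s2+r2*s1) = -r3*m-(r1-r2)*(s1-s2) := by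
    rw [hm]
    have : r3 = -(r1+r2) := by linarith
    rw [this]; ring
  have e5 : -r3^2*(1-m/4) - (s1-s2)^2*s3/4 = 0 := by
    have h6 : r1+r2 = -r3 := by linarith
    linear_combination r3*E - r3*h6 + r3/4*e4 - (s1-s2)/4*e2
  rw [e1, e3] at e5
  have e6 : 2-m/2+s3*(3*m/2+1) = 0 := by linear_combination -e5
  have e7 : (1-m)+s3*(m*(1-m/2))-(1+m/2)*s3^2 = 0 := by
    have : 2*(s1*s2+(s1+s2)*s3)+3+(s1*s2)*s3*((s1+s2)+s3) = 0 := by linear_combination R1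
    rw [hp, ← hm] at this
    linear_combination this
  have e8 : (m^2+2*m+4)*(3/4*m^2-3/4*m+3/2) = 0 := by
    have h1 : s3*(3*m/2+1) = -(2-m/2) := by linarith
    have h2 : (3*m/2+1)^2*((1-m)+s3*(m*(1-m/2))-(1+m/2)*s3^2) = 0 := by rw [e7, mul_zero]
    have h3 : (3*m/2+1)^2*(1-m) + (3*m/2+1)*(m*(1-m/2))*(s3*(3*m/2+1))
        - (1+m/2)*(s3*(3*m/2+1))^2 = 0 := by linear_combination h2
    rw [h1] at h3
    nlinarith
  have e9 : 0 < (m^2+2*m+4) := by nlinarith [sq_nonneg (m+1)]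
  have e10 : 0 < (3/4*m^2-3/4*m+3/2) := by nlinarith [sq_nonneg (m-1/2)]
  have := mul_pos e9 e10
  linarith

/-- Data contradicting the second 3D lemma. -/
structure Bad2 (x1 y1 z1 x2 y2 z2 x3 y3 z3 : ℝ) : Prop where
  fr : Fr x1 y1 z1 x2 y2 z2 x3 y3 z3
  c : x1*y2*y3+x2*y1*y3+x3*y1*y2 = 0
  a12 : A y1 z1 y2 z2 = 0
  e : q x1 y1 z1 x2 y2 z2 = 0

lemma Bad2.swap12 {x1 y1 z1 x2 y2 z2 x3 y3 z3 : ℝ}
    (h : Bad2 x1 y1 z1 x2 y2 z2 x3 y3 z3) :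
    Bad2 x2 y2 z2 x1 y1 z1 x3 y3 z3 := by
  obtain ⟨fr, c, a12, e⟩ := h
  refine ⟨fr.swap12, by linarith, ?_, ?_⟩
  · unfold A at *; linarith
  · unfold q at *; linarith

lemma Bad2.false_of_zero {x1 z1 x2 y2 z2 x3 y3 z3 : ℝ}
    (h : Bad2 x1 0 z1 x2 y2 z2 x3 y3 z3) : False := by
  obtain ⟨fr, c, a12, e⟩ := h
  obtain ⟨n1, n2, n3, o12, o13, o23, cx, cy, cz, cxy, cxz, cyz⟩ := fr
  unfold A at a12
  unfold q at e
  by_cases hx : x1 = 0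
  · subst hx
    have hz1 : z1 ≠ 0 := by rintro rfl; norm_num at n1
    have hz2 : z2 = 0 := by
      have : z1*z2 = 0 := by linarith
      exact (mul_eq_zero.mp this).resolve_left hz1
    subst hz2
    have hy2 : y2 = 0 := by
      have : z1*y2 = 0 := by linarith
      exact (mul_eq_zero.mp this).resolve_left hz1
    subst hy2
    have hx2 : x2 ≠ 0 := by rintro rfl; norm_num at n2
    have : x2*z1 = 0 := by linarith
    rcases mul_eq_zero.mp this with h | h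
    · exact hx2 h
    · exact hz1 h
  · have hyy : y2*y3 = 0 := by
      have : x1*(y2*y3) = 0 := by linarith
      exact (mul_eq_zero.mp this).resolve_left hx
    rcases mul_eq_zero.mp hyy with h | h
    · subst h
      have hz : z1*z2 = 0 := by linarith
      rcases mul_eq_zero.mp hz with h | h
      · subst h
        have hx2 : x2 = 0 := by
          have : x1*x2 = 0 := by linarith
          exact (mul_eq_zero.mp this).resolve_left hx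
        subst hx2
        have hz2 : z2 = 0 := by
          have : x1*z2 = 0 := by linarith
          exact (mul_eq_zero.mp this).resolve_left hx
        subst hz2
        norm_num at n2
      · subst h
        have hx2 : x2 = 0 := by
          have : x1*x2 = 0 := by linarith
          exact (mul_eq_zero.mp this).resolve_left hx
        subst hx2
        norm_num at n2
    · subst h
      have hy2 : y2 ≠ 0 := by rintro rfl; norm_num at cy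
      have hx2 : x2 = 0 := by
        have : x2*y2 = 0 := by linarith
        exact (mul_eq_zero.mp this).resolve_right hy2
      have hz2 : z2 = 0 := by
        have : y2*z2 = 0 := by linarith
        exact (mul_eq_zero.mp this).resolve_left hy2
      subst hx2 hz2
      have : x1*y2 = 0 := by linarith
      rcases mul_eq_zero.mp this with h | h
      · exact hx h
      · exact hy2 h

/-- **second 3D lemma** -/
theorem Bad2.false {x1 y1 z1 x2 y2 z2 x3 y3 z3 : ℝ}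
    (h : Bad2 x1 y1 z1 x2 y2 z2 x3 y3 z3) : False := by
  by_cases h1 : y1 = 0
  · subst h1; exact h.false_of_zero
  by_cases h2 : y2 = 0
  · subst h2; exact h.swap12.false_of_zero
  obtain ⟨fr, c, a12, e⟩ := h
  obtain ⟨n1, n2, n3, o12, o13, o23, cx, cy, cz, cxy, cxz, cyz⟩ := fr
  unfold A at a12
  unfold q at e
  have h12 : y1*y2 ≠ 0 := mul_ne_zero h1 h2
  by_cases h3 : y3 = 0
  · subst h3
    have hx3 : x3 = 0 := by
      have : x3*(y1*y2) = 0 := by linarith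
      exact (mul_eq_zero.mp this).resolve_right h12
    subst hx3
    have hz3 : z3 ≠ 0 := by rintro rfl; norm_num at n3
    have hz1 : z1 = 0 := by
      have : z1*z3 = 0 := by linarith
      exact (mul_eq_zero.mp this).resolve_right hz3
    have hz2 : z2 = 0 := by
      have : z2*z3 = 0 := by linarith
      exact (mul_eq_zero.mp this).resolve_right hz3
    subst hz1 hz2
    apply h12
    linarith
  · clear n1 n2 n3 cx cy cz cxy cxz cyz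
    obtain ⟨r1, rfl⟩ : ∃ r, x1 = r*y1 := ⟨x1/y1, by field_simp⟩
    obtain ⟨r2, rfl⟩ : ∃ r, x2 = r*y2 := ⟨x2/y2, by field_simp⟩
    obtain ⟨r3, rfl⟩ : ∃ r, x3 = r*y3 := ⟨x3/y3, by field_simp⟩
    obtain ⟨s1, rfl⟩ : ∃ s, z1 = s*y1 := ⟨z1/y1, by field_simp⟩
    obtain ⟨s2, rfl⟩ : ∃ s, z2 = s*y2 := ⟨z2/y2, by field_simp⟩
    obtain ⟨s3, rfl⟩ : ∃ s, z3 = s*y3 := ⟨z3/y3, by field_simp⟩
    have h13 : y1*y3 ≠ 0 := mul_ne_zero h1 h3
    have h23 : y2*y3 ≠ 0 := mul_ne_zero h2 h3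
    have h123 : y1*y2*y3 ≠ 0 := mul_ne_zero h12 h3
    refine core2 r1 r2 r3 s1 s2 s3 ?_ ?_ ?_ ?_ ?_ ?_
    · apply mul_left_cancel₀ h123; linear_combination c
    · apply mul_left_cancel₀ h12; linear_combination o12
    · apply mul_left_cancel₀ h13; linear_combination o13
    · apply mul_left_cancel₀ h23; linear_combination o23
    · apply mul_left_cancel₀ h12; linear_combination a12
    · apply mul_left_cancel₀ h12; linear_combination e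

end Pool.Agent.Helper892.Frame3
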