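import Mathlib
import Pool.Agent.Helper892.Frame3

set_option autoImplicit false

/-! For small `κ > 0` no orthonormal frame of `ℝ⁴` annihilates a certain cubic and a certain
quartic form simultaneously. -/

namespace Pool.Agent.Helper892.Frame4

open Pool.Agent.Helper892.Frame3

noncomputable def dot (a b : Fin 4 → ℝ) : ℝ := a 0*b 0+a 1*b 1+a 2*b 2+a 3*b 3

noncomputable def A4 (a b : Fin 4 → ℝ) : ℝ := a 1*b 1+a 2*b 2+(a 1*b 2+a 2*b 1)/2

noncomputable def C4 (a b c : Fin 4 → ℝ) : ℝ := a 0*b 1*c 1+b 0*a 1*c 1+c 0*a 1*b 1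

noncomputable def T4 (a b c : Fin 4 → ℝ) : ℝ := a 3*A4 b c+b 3*A4 a c+c 3*A4 a b+C4 a b c

noncomputable def q4 (a b : Fin 4 → ℝ) : ℝ := a 0*(b 1-b 2/2)+b 0*(a 1-a 2/2)

noncomputable def Q4 (a b c d : Fin 4 → ℝ) : ℝ :=
  a 3*b 3*q4 c d+a 3*c 3*q4 b d+a 3*d 3*q4 b c+b 3*c 3*q4 a d+b 3*d 3*q4 a c+c 3*d 3*q4 a b

/-- orthonormal rows -/
structure Rows (a b c d : Fin 4 → ℝ) : Prop where
  aa : dot a a = 1
  bb : dot b b = 1
  cc : dot c c = 1
  dd : dot d d = 1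
  ab : dot a b = 0
  ac : dot a c = 0
  ad : dot a d = 0
  bc : dot b c = 0
  bd : dot b d = 0
  cd : dot c d = 0

lemma Rows.cols {a b c d : Fin 4 → ℝ} (h : Rows a b c d) (i j : Fin 4) :
    a i*a j+b i*b j+c i*c j+d i*d j = if i = j then 1 else 0 := by
  obtain ⟨aa, bb, cc, dd, ab, ac, ad, bc, bd, cd⟩ := h
  unfold dot at *
  have h1 : (Matrix.of ![a,b,c,d] : Matrix (Fin 4) (Fin 4) ℝ) *
      (Matrix.of ![a,b,c,d] : Matrix (Fin 4) (Fin 4) ℝ).transpose = 1 := by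
    ext i j
    fin_cases i <;> fin_cases j <;>
      simp [Matrix.mul_apply, Fin.sum_univ_four] <;> linarith
  have h2 := mul_eq_one_comm.mp h1
  have h3 := congrFun (congrFun h2 i) j
  simp only [Matrix.mul_apply, Fin.sum_univ_four, Matrix.transpose_apply, Matrix.of_apply,
    Matrix.one_apply] at h3
  simpa using h3

lemma case_s {a b c d : Fin 4 → ℝ} (h : Rows a b c d) (ha : a 3 = 0) (hb : b 3 = 0)
    (h1 : T4 a b c = 0) (h2 : T4 a b d = 0) (h3 : q4 a b = 0) : False := by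
  have hc := h.cols
  obtain ⟨aa, bb, cc, dd, ab, ac, ad, bc, bd, cd⟩ := h
  have w33 : c 3*c 3+d 3*d 3 = 1 := by simpa [ha, hb] using hc 3 3
  have w30 : c 3*c 0+d 3*d 0 = 0 := by simpa [ha, hb] using hc 3 0
  have w31 : c 3*c 1+d 3*d 1 = 0 := by simpa [ha, hb] using hc 3 1
  unfold dot at *
  simp only [ha, hb] at aa bb ab ac ad bc bd
  unfold T4 C4 at h1 h2
  rw [ha, hb] at h1 h2
  have hA : A4 a b = 0 := by
    linear_combination c 3*h1+d 3*h2 - a 1*b 1*w30 - (b 0*a 1+a 0*b 1)*w31 - A4 a b*w33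
  rw [hA] at h1 h2
  refine Bad2.false (x1 := a 0) (y1 := a 1) (z1 := a 2) (x2 := b 0) (y2 := b 1) (z2 := b 2)
    (x3 := d 3*c 0-c 3*d 0) (y3 := d 3*c 1-c 3*d 1) (z3 := d 3*c 2-c 3*d 2) ⟨?_, ?_, ?_, ?_⟩
  · apply Fr.of_rows
    · linear_combination aa
    · linear_combination bb
    · linear_combination (d 3)^2*cc+(c 3)^2*dd-2*c 3*d 3*cd + w33
    · linear_combination ab
    · linear_combination d 3*ac-c 3*ad
    · linear_combination d 3*bc-c 3*bd
  · linear_combination d 3*h1-c 3*h2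
  · unfold A; unfold A4 at hA; linear_combination hA
  · unfold q; unfold q4 at h3; linear_combination h3

lemma case_N {a b c d : Fin 4 → ℝ} (h : Rows a b c d) (ha : a 3 = 0) (hb : b 3 = 0)
    (hc : c 3 = 0) {n1 n2 n3 s : ℝ} (hs : s ≠ 0) (h1 : T4 a b c = 0)
    (h12 : n1*n2*d 3 = -s^2*T4 a b d) (h13 : n1*n3*d 3 = -s^2*T4 a c d)
    (h23 : n2*n3*d 3 = -s^2*T4 b c d)
    (h3 : n1*q4 b c+n2*q4 a c+n3*q4 a b = 0) : False := by
  have hcol := h.cols
  obtain ⟨aa, bb, cc, dd, ab, ac, ad, bc, bd, cd⟩ := h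
  have w33 : d 3*d 3 = 1 := by simpa [ha, hb, hc] using hcol 3 3
  have hd3 : d 3 ≠ 0 := by intro h; rw [h] at w33; norm_num at w33
  have w30 : d 0 = 0 := by simpa [ha, hb, hc, hd3] using hcol 3 0
  have w31 : d 1 = 0 := by simpa [ha, hb, hc, hd3] using hcol 3 1
  have w32 : d 2 = 0 := by simpa [ha, hb, hc, hd3] using hcol 3 2
  unfold dot at *
  simp only [ha, hb, hc] at aa bb cc ab ac ad bc bd cd
  unfold T4 C4 at h1 h12 h13 h23
  simp only [ha, hb, hc, w30, w31] at h1 h12 h13 h23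
  refine Bad.false (x1 := a 0) (y1 := a 1) (z1 := a 2) (x2 := b 0) (y2 := b 1) (z2 := b 2)
    (x3 := c 0) (y3 := c 1) (z3 := c 2) (w1 := n1/s) (w2 := n2/s) (w3 := n3/s)
    ⟨?_, ?_, ?_, ?_, ?_, ?_⟩
  · apply Fr.of_rows
    · linear_combination aa
    · linear_combination bb
    · linear_combination cc
    · linear_combination ab
    · linear_combination ac
    · linear_combination bc
  · linear_combination h1
  · have : n1*n2 = -s^2*A4 a b := by
      apply mul_right_cancel₀ hd3; linear_combination h12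
    have e : n1/s*(n2/s) = (n1*n2)/s^2 := by field_simp
    rw [e, this, neg_mul, neg_div, mul_div_cancel_left₀ _ (pow_ne_zero 2 hs)]
    rfl
  · have : n1*n3 = -s^2*A4 a c := by
      apply mul_right_cancel₀ hd3; linear_combination h13
    have e : n1/s*(n3/s) = (n1*n3)/s^2 := by field_simp
    rw [e, this, neg_mul, neg_div, mul_div_cancel_left₀ _ (pow_ne_zero 2 hs)]
    rfl
  · have : n2*n3 = -s^2*A4 b c := by
      apply mul_right_cancel₀ hd3; linear_combination h23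
    have e : n2/s*(n3/s) = (n2*n3)/s^2 := by field_simp
    rw [e, this, neg_mul, neg_div, mul_div_cancel_left₀ _ (pow_ne_zero 2 hs)]
    rfl
  · have e : n1/s*q4 b c+n2/s*q4 a c+n3/s*q4 a b = 0 := by
      have : n1/s*q4 b c+n2/s*q4 a c+n3/s*q4 a b
          = (n1*q4 b c+n2*q4 a c+n3*q4 a b)/s := by field_simp
      rw [this, h3, zero_div]
    exact e

/-- All the closed conditions on the blown up parameters. -/
structure Cond (a b c d : Fin 4 → ℝ) (n1 n2 n3 s N : ℝ) : Prop where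
  rows : Rows a b c d
  w : 1/4 ≤ (d 3)^2
  ha : a 3 = N*n1
  hb : b 3 = N*n2
  hc : c 3 = N*n3
  hn : n1^2+n2^2+n3^2+s^2 = 1
  h12 : n1*n2*d 3 = -s^2*T4 a b d
  h13 : n1*n3*d 3 = -s^2*T4 a c d
  h23 : n2*n3*d 3 = -s^2*T4 b c d
  k3 : T4 a b c*d 3 = T4 a b d*c 3
  k2 : T4 a b c*d 3 = T4 a c d*b 3
  k1 : T4 a b c*d 3 = T4 b c d*a 3
  e : d 3*(n1*q4 b c+n2*q4 a c+n3*q4 a b)+N*(n1*n2*q4 c d+n1*n3*q4 b d+n2*n3*q4 a d) = 0
  m3 : T4 a b d*n3^2*d 3 = -s^2*(T4 a c d*T4 b c d)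
  m2 : T4 a c d*n2^2*d 3 = -s^2*(T4 a b d*T4 b c d)
  m1 : T4 b c d*n1^2*d 3 = -s^2*(T4 a b d*T4 a c d)

lemma Rows.perm1 {a b c d : Fin 4 → ℝ} (h : Rows a b c d) : Rows a c b d := by
  obtain ⟨aa, bb, cc, dd, ab, ac, ad, bc, bd, cd⟩ := h
  unfold dot at *
  constructor <;> unfold dot <;> linarith

lemma Rows.perm2 {a b c d : Fin 4 → ℝ} (h : Rows a b c d) : Rows b c a d := by
  obtain ⟨aa, bb, cc, dd, ab, ac, ad, bc, bd, cd⟩ := h
  unfold dot at *
  constructor <;> unfold dot <;> linarith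

lemma T4_comm23 (a b c : Fin 4 → ℝ) : T4 a b c = T4 a c b := by
  unfold T4 A4 C4; ring

lemma T4_rot (a b c : Fin 4 → ℝ) : T4 a b c = T4 b c a := by
  unfold T4 A4 C4; ring

lemma Cond.ne {a b c d : Fin 4 → ℝ} {n1 n2 n3 s N : ℝ} (h : Cond a b c d n1 n2 n3 s N) :
    N*s ≠ 0 := by
  intro h0
  obtain ⟨rows, w, ha, hb, hc, hn, h12, h13, h23, k3, k2, k1, e, m3, m2, m1⟩ := h
  have hd3 : d 3 ≠ 0 := by intro h; rw [h] at w; norm_num at w
  by_cases hs : s = 0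
  · subst hs
    have g12 : n1*n2 = 0 := by
      have : n1*n2*d 3 = 0 := by linear_combination h12
      exact (mul_eq_zero.mp this).resolve_right hd3
    have g13 : n1*n3 = 0 := by
      have : n1*n3*d 3 = 0 := by linear_combination h13
      exact (mul_eq_zero.mp this).resolve_right hd3
    have g23 : n2*n3 = 0 := by
      have : n2*n3*d 3 = 0 := by linear_combination h23
      exact (mul_eq_zero.mp this).resolve_right hd3
    by_cases z3 : n3 = 0
    · subst z3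
      by_cases z2 : n2 = 0
      · subst z2
        -- only n1 nonzero: vectors b, c
        have hn1 : n1^2 = 1 := by linarith
        have hn1' : n1 ≠ 0 := by rintro rfl; norm_num at hn1
        have hb0 : b 3 = 0 := by rw [hb]; ring
        have hc0 : c 3 = 0 := by rw [hc]; ring
        have t1 : T4 b c d = 0 := by
          have : T4 b c d*d 3 = 0 := by linear_combination m1 - T4 b c d*d 3*hn1
          exact (mul_eq_zero.mp this).resolve_right hd3
        have t2 : T4 a b c = 0 := by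
          have : T4 a b c*d 3 = 0 := by linear_combination k1 + a 3*t1
          exact (mul_eq_zero.mp this).resolve_right hd3
        have t3 : q4 b c = 0 := by
          have : n1*(d 3*q4 b c) = 0 := by linear_combination e
          exact (mul_eq_zero.mp ((mul_eq_zero.mp this).resolve_left hn1')).resolve_left hd3
        exact case_s rows.perm2 hb0 hc0 (by rw [← T4_rot]; exact t2) t1 t3
      · have z1 : n1 = 0 := (mul_eq_zero.mp g12).resolve_right z2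
        subst z1
        have hn2 : n2^2 = 1 := by linarith
        have ha0 : a 3 = 0 := by rw [ha]; ring
        have hc0 : c 3 = 0 := by rw [hc]; ring
        have t1 : T4 a c d = 0 := by
          have : T4 a c d*d 3 = 0 := by linear_combination m2 - T4 a c d*d 3*hn2
          exact (mul_eq_zero.mp this).resolve_right hd3
        have t2 : T4 a b c = 0 := by
          have : T4 a b c*d 3 = 0 := by linear_combination k2 + b 3*t1
          exact (mul_eq_zero.mp this).resolve_right hd3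
        have t3 : q4 a c = 0 := by
          have : n2*(d 3*q4 a c) = 0 := by linear_combination e
          exact (mul_eq_zero.mp ((mul_eq_zero.mp this).resolve_left z2)).resolve_left hd3
        exact case_s rows.perm1 ha0 hc0 (by rw [← T4_comm23]; exact t2) t1 t3
    · have z2 : n2 = 0 := (mul_eq_zero.mp g23).resolve_right z3
      have z1 : n1 = 0 := (mul_eq_zero.mp g13).resolve_right z3
      subst z1 z2
      have hn3 : n3^2 = 1 := by linarith
      have ha0 : a 3 = 0 := by rw [ha]; ring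
      have hb0 : b 3 = 0 := by rw [hb]; ring
      have t1 : T4 a b d = 0 := by
        have : T4 a b d*d 3 = 0 := by linear_combination m3 - T4 a b d*d 3*hn3
        exact (mul_eq_zero.mp this).resolve_right hd3
      have t2 : T4 a b c = 0 := by
        have : T4 a b c*d 3 = 0 := by linear_combination k3 + c 3*t1
        exact (mul_eq_zero.mp this).resolve_right hd3
      have t3 : q4 a b = 0 := by
        have : n3*(d 3*q4 a b) = 0 := by linear_combination e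
        exact (mul_eq_zero.mp ((mul_eq_zero.mp this).resolve_left z3)).resolve_left hd3
      exact case_s rows ha0 hb0 t2 t1 t3
  · have hN : N = 0 := (mul_eq_zero.mp h0).resolve_right hs
    subst hN
    have ha0 : a 3 = 0 := by rw [ha]; ring
    have hb0 : b 3 = 0 := by rw [hb]; ring
    have hc0 : c 3 = 0 := by rw [hc]; ring
    have t : T4 a b c = 0 := by
      have : T4 a b c*d 3 = 0 := by rw [k3, hc0]; ring
      exact (mul_eq_zero.mp this).resolve_right hd3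
    have t3 : n1*q4 b c+n2*q4 a c+n3*q4 a b = 0 := by
      have : d 3*(n1*q4 b c+n2*q4 a c+n3*q4 a b) = 0 := by linear_combination e
      exact (mul_eq_zero.mp this).resolve_left hd3
    exact case_N rows ha0 hb0 hc0 hs t h12 h13 h23 t3

/-! ### Compactness -/

abbrev X : Type := (Fin 4 → Fin 4 → ℝ) × (Fin 5 → ℝ)

def S : Set X := {p | p ∈ Metric.closedBall (0 : X) 2 ∧
  Cond (p.1 0) (p.1 1) (p.1 2) (p.1 3) (p.2 0) (p.2 1) (p.2 2) (p.2 3) (p.2 4)}

lemma cond_iff (a b c d : Fin 4 → ℝ) (n1 n2 n3 s N : ℝ) :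
    Cond a b c d n1 n2 n3 s N ↔
    (dot a a = 1 ∧ dot b b = 1 ∧ dot c c = 1 ∧ dot d d = 1 ∧ dot a b = 0 ∧ dot a c = 0 ∧
      dot a d = 0 ∧ dot b c = 0 ∧ dot b d = 0 ∧ dot c d = 0 ∧ 1/4 ≤ (d 3)^2 ∧ a 3 = N*n1 ∧
      b 3 = N*n2 ∧ c 3 = N*n3 ∧ n1^2+n2^2+n3^2+s^2 = 1 ∧ n1*n2*d 3 = -s^2*T4 a b d ∧
      n1*n3*d 3 = -s^2*T4 a c d ∧ n2*n3*d 3 = -s^2*T4 b c d ∧ T4 a b c*d 3 = T4 a b d*c 3 ∧
      T4 a b c*d 3 = T4 a c d*b 3 ∧ T4 a b c*d 3 = T4 b c d*a 3 ∧
      d 3*(n1*q4 b c+n2*q4 a c+n3*q4 a b)+N*(n1*n2*q4 c d+n1*n3*q4 b d+n2*n3*q4 a d) = 0 ∧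
      T4 a b d*n3^2*d 3 = -s^2*(T4 a c d*T4 b c d) ∧
      T4 a c d*n2^2*d 3 = -s^2*(T4 a b d*T4 b c d) ∧
      T4 b c d*n1^2*d 3 = -s^2*(T4 a b d*T4 a c d)) := by
  constructor
  · rintro ⟨⟨aa, bb, cc, dd, ab, ac, ad, bc, bd, cd⟩, w, ha, hb, hc, hn, h12, h13, h23, k3, k2,
      k1, e, m3, m2, m1⟩
    exact ⟨aa, bb, cc, dd, ab, ac, ad, bc, bd, cd, w, ha, hb, hc, hn, h12, h13, h23, k3, k2,
      k1, e, m3, m2, m1⟩
  · rintro ⟨aa, bb, cc, dd, ab, ac, ad, bc, bd, cd, w, ha, hb, hc, hn, h12, h13, h23, k3, k2,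
      k1, e, m3, m2, m1⟩
    exact ⟨⟨aa, bb, cc, dd, ab, ac, ad, bc, bd, cd⟩, w, ha, hb, hc, hn, h12, h13, h23, k3, k2,
      k1, e, m3, m2, m1⟩

lemma isCompact_S : IsCompact S := by
  apply (isCompact_closedBall (0 : X) 2).of_isClosed_subset ?_ (fun p hp => hp.1)
  have hS : S = Metric.closedBall (0 : X) 2 ∩ {p | Cond (p.1 0) (p.1 1) (p.1 2) (p.1 3)
      (p.2 0) (p.2 1) (p.2 2) (p.2 3) (p.2 4)} := rfl
  rw [hS]
  apply Metric.isClosed_closedBall.inter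
  simp only [cond_iff]
  unfold T4 A4 C4 q4 dot
  repeat' apply IsClosed.and
  all_goals first
    | exact isClosed_eq (by fun_prop) (by fun_prop)
    | exact isClosed_le (by fun_prop) (by fun_prop)

lemma dot_self_bound {a : Fin 4 → ℝ} (h : dot a a = 1) (i : Fin 4) : |a i| ≤ 1 := by
  unfold dot at h
  rw [abs_le_one_iff_mul_self_le_one]
  have h0 := mul_self_nonneg (a 0)
  have h1 := mul_self_nonneg (a 1)
  have h2 := mul_self_nonneg (a 2)
  have h3 := mul_self_nonneg (a 3)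
  fin_cases i <;> simp <;> linarith

/-- The equations to be excluded. -/
structure Eqs (κ : ℝ) (a b c d : Fin 4 → ℝ) : Prop where
  abc : a 3*b 3*c 3+κ*T4 a b c = 0
  abd : a 3*b 3*d 3+κ*T4 a b d = 0
  acd : a 3*c 3*d 3+κ*T4 a c d = 0
  bcd : b 3*c 3*d 3+κ*T4 b c d = 0
  q : Q4 a b c d = 0

lemma blowup {κ : ℝ} (hκ : 0 < κ) (hκ1 : κ ≤ 1) {a b c d : Fin 4 → ℝ} (h : Rows a b c d)
    (he : Eqs κ a b c d) (hd : 1/4 ≤ (d 3)^2) : ∃ p ∈ S, (p.2 4*p.2 3)^2 = κ := by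
  have h33 : a 3*a 3+b 3*b 3+c 3*c 3+d 3*d 3 = 1 := by simpa using h.cols 3 3
  obtain ⟨N, hN, hN2⟩ : ∃ N : ℝ, 0 < N ∧ N^2 = (a 3)^2+(b 3)^2+(c 3)^2+κ :=
    ⟨√((a 3)^2+(b 3)^2+(c 3)^2+κ), Real.sqrt_pos.mpr (by positivity),
      Real.sq_sqrt (by positivity)⟩
  obtain ⟨r, hr, hr2⟩ : ∃ r : ℝ, 0 < r ∧ r^2 = κ :=
    ⟨√κ, Real.sqrt_pos.mpr hκ, Real.sq_sqrt hκ.le⟩
  obtain ⟨n1, h1⟩ : ∃ n1, a 3 = N*n1 := ⟨a 3/N, by field_simp⟩
  obtain ⟨n2, h2⟩ : ∃ n2, b 3 = N*n2 := ⟨b 3/N, by field_simp⟩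
  obtain ⟨n3, h3⟩ : ∃ n3, c 3 = N*n3 := ⟨c 3/N, by field_simp⟩
  obtain ⟨s, h4⟩ : ∃ s, r = N*s := ⟨r/N, by field_simp⟩
  have hNne : N ≠ 0 := hN.ne'
  have hN2ne : N^2 ≠ 0 := by positivity
  have hn : n1^2+n2^2+n3^2+s^2 = 1 := by
    apply mul_left_cancel₀ hN2ne
    rw [h1, h2, h3, ← hr2, h4] at hN2
    linear_combination -hN2
  have hκs : κ = N^2*s^2 := by rw [← hr2, h4]; ring
  have hs : s ≠ 0 := by rintro rfl; rw [mul_zero] at h4; exact hr.ne' h4
  have hs2 : s^2 ≠ 0 := pow_ne_zero 2 hs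
  obtain ⟨e1, e2, e3, e4, e5⟩ := he
  have h12 : n1*n2*d 3 = -s^2*T4 a b d := by
    apply mul_left_cancel₀ hN2ne
    rw [h1, h2, hκs] at e2
    linear_combination e2
  have h13 : n1*n3*d 3 = -s^2*T4 a c d := by
    apply mul_left_cancel₀ hN2ne
    rw [h1, h3, hκs] at e3
    linear_combination e3
  have h23 : n2*n3*d 3 = -s^2*T4 b c d := by
    apply mul_left_cancel₀ hN2ne
    rw [h2, h3, hκs] at e4
    linear_combination e4
  refine ⟨(![a, b, c, d], ![n1, n2, n3, s, N]), ⟨?_, ?_⟩, ?_⟩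
  · have l1 : ∀ x : ℝ, x^2 ≤ 4 → |x| ≤ 2 := by
      intro x hx
      rw [abs_le]
      constructor <;> nlinarith
    have hn1 : n1^2 ≤ 4 := by linarith [sq_nonneg n2, sq_nonneg n3, sq_nonneg s]
    have hn2 : n2^2 ≤ 4 := by linarith [sq_nonneg n1, sq_nonneg n3, sq_nonneg s]
    have hn3 : n3^2 ≤ 4 := by linarith [sq_nonneg n2, sq_nonneg n1, sq_nonneg s]
    have hns : s^2 ≤ 4 := by linarith [sq_nonneg n2, sq_nonneg n3, sq_nonneg n1]
    have hNN : N^2 ≤ 4 := by linarith [mul_self_nonneg (d 3)]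
    rw [mem_closedBall_zero_iff, Prod.norm_def, sup_le_iff]
    constructor
    · rw [pi_norm_le_iff_of_nonneg (by norm_num)]
      intro i
      rw [pi_norm_le_iff_of_nonneg (by norm_num)]
      intro j
      rw [Real.norm_eq_abs]
      fin_cases i
      · exact (dot_self_bound h.aa j).trans (by norm_num)
      · exact (dot_self_bound h.bb j).trans (by norm_num)
      · exact (dot_self_bound h.cc j).trans (by norm_num)
      · exact (dot_self_bound h.dd j).trans (by norm_num)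
    · rw [pi_norm_le_iff_of_nonneg (by norm_num)]
      intro i
      rw [Real.norm_eq_abs]
      fin_cases i
      · exact l1 n1 hn1
      · exact l1 n2 hn2
      · exact l1 n3 hn3
      · exact l1 s hns
      · exact l1 N hNN
  · show Cond a b c d n1 n2 n3 s N
    refine ⟨h, hd, h1, h2, h3, hn, h12, h13, h23, ?_, ?_, ?_, ?_, ?_, ?_, ?_⟩
    · apply mul_left_cancel₀ hκ.ne'
      linear_combination d 3*e1-c 3*e2
    · apply mul_left_cancel₀ hκ.ne'
      linear_combination d 3*e1-b 3*e3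
    · apply mul_left_cancel₀ hκ.ne'
      linear_combination d 3*e1-a 3*e4
    · apply mul_left_cancel₀ hNne
      unfold Q4 at e5
      rw [h1, h2, h3] at e5
      linear_combination e5
    · apply mul_left_cancel₀ hs2
      linear_combination (n3^2*d 3)*h12-(n2*n3*d 3)*h13+(s^2*T4 a c d)*h23
    · apply mul_left_cancel₀ hs2
      linear_combination (n2^2*d 3)*h13-(n2*n3*d 3)*h12+(s^2*T4 a b d)*h23
    · apply mul_left_cancel₀ hs2
      linear_combination (n1^2*d 3)*h23-(n1*n3*d 3)*h12+(s^2*T4 a b d)*h13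
  · show (N*s)^2 = κ
    rw [hκs]; ring

lemma swapA {κ : ℝ} {a b c d : Fin 4 → ℝ} (h : Rows a b c d) (he : Eqs κ a b c d) :
    Rows d b c a ∧ Eqs κ d b c a := by
  obtain ⟨aa, bb, cc, dd, ab, ac, ad, bc, bd, cd⟩ := h
  obtain ⟨e1, e2, e3, e4, e5⟩ := he
  unfold dot at *
  unfold T4 A4 C4 at e1 e2 e3 e4
  unfold Q4 q4 at e5
  refine ⟨⟨?_, ?_, ?_, ?_, ?_, ?_, ?_, ?_, ?_, ?_⟩, ⟨?_, ?_, ?_, ?_, ?_⟩⟩ <;>
    first | (unfold dot; linarith) | (unfold T4 A4 C4; linarith) | (unfold Q4 q4; linarith)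

lemma swapB {κ : ℝ} {a b c d : Fin 4 → ℝ} (h : Rows a b c d) (he : Eqs κ a b c d) :
    Rows a d c b ∧ Eqs κ a d c b := by
  obtain ⟨aa, bb, cc, dd, ab, ac, ad, bc, bd, cd⟩ := h
  obtain ⟨e1, e2, e3, e4, e5⟩ := he
  unfold dot at *
  unfold T4 A4 C4 at e1 e2 e3 e4
  unfold Q4 q4 at e5
  refine ⟨⟨?_, ?_, ?_, ?_, ?_, ?_, ?_, ?_, ?_, ?_⟩, ⟨?_, ?_, ?_, ?_, ?_⟩⟩ <;>
    first | (unfold dot; linarith) | (unfold T4 A4 C4; linarith) | (unfold Q4 q4; linarith)

lemma swapC {κ : ℝ} {a b c d : Fin 4 → ℝ} (h : Rows a b c d) (he : Eqs κ a b c d) :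
    Rows a b d c ∧ Eqs κ a b d c := by
  obtain ⟨aa, bb, cc, dd, ab, ac, ad, bc, bd, cd⟩ := h
  obtain ⟨e1, e2, e3, e4, e5⟩ := he
  unfold dot at *
  unfold T4 A4 C4 at e1 e2 e3 e4
  unfold Q4 q4 at e5
  refine ⟨⟨?_, ?_, ?_, ?_, ?_, ?_, ?_, ?_, ?_, ?_⟩, ⟨?_, ?_, ?_, ?_, ?_⟩⟩ <;>
    first | (unfold dot; linarith) | (unfold T4 A4 C4; linarith) | (unfold Q4 q4; linarith)

/-- **Step A** -/
theorem exists_kappa : ∃ κ : ℝ, 0 < κ ∧ ∀ a b c d : Fin 4 → ℝ, Rows a b c d →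
    ¬ Eqs κ a b c d := by
  obtain ⟨κ, hκ, hκ1, hmin⟩ : ∃ κ : ℝ, 0 < κ ∧ κ ≤ 1 ∧ ∀ p ∈ S, κ < (p.2 4*p.2 3)^2 := by
    rcases S.eq_empty_or_nonempty with hS | hS
    · exact ⟨1, one_pos, le_rfl, by rw [hS]; simp⟩
    · obtain ⟨p, hp, hpm⟩ := isCompact_S.exists_isMinOn hS
        (f := fun p : X => (p.2 4*p.2 3)^2) (by fun_prop)
      have hpos : 0 < (p.2 4*p.2 3)^2 := by
        have := hp.2.ne
        positivity
      refine ⟨min 1 ((p.2 4*p.2 3)^2/2), by positivity, min_le_left _ _, ?_⟩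
      intro p' hp'
      have h1 := isMinOn_iff.mp hpm p' hp'
      have h2 := min_le_right 1 ((p.2 4*p.2 3)^2/2)
      linarith
  refine ⟨κ, hκ, ?_⟩
  intro a b c d hrow heq
  have h33 : a 3*a 3+b 3*b 3+c 3*c 3+d 3*d 3 = 1 := by simpa using hrow.cols 3 3
  have main : ∀ a b c d : Fin 4 → ℝ, Rows a b c d → Eqs κ a b c d → (d 3)^2 < 1/4 := by
    intro a b c d h1 h2
    by_contra h3
    push Not at h3
    obtain ⟨p, hp, hpk⟩ := blowup hκ hκ1 h1 h2 h3
    have := hmin p hp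
    linarith
  have m1 := main a b c d hrow heq
  obtain ⟨r2, e2⟩ := swapA hrow heq
  have m2 := main _ _ _ _ r2 e2
  obtain ⟨r3, e3⟩ := swapB hrow heq
  have m3 := main _ _ _ _ r3 e3
  obtain ⟨r4, e4⟩ := swapC hrow heq
  have m4 := main _ _ _ _ r4 e4
  linarith

end Pool.Agent.Helper892.Frame4
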