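import Mathlib
import Pool.Agent.Helper892.Frame4

set_option autoImplicit false

/-! Perturbed version of the frame statement. -/

namespace Pool.Agent.Helper892.Near4

open Pool.Agent.Helper892.Frame4

/-- The conditions satisfied by the normalised edges `a b c d` and the centre `e`. -/
structure Near (κ M t : ℝ) (a b c d e : Fin 4 → ℝ) : Prop where
  aa : dot a a = 1
  bb : dot b b = 1
  cc : dot c c = 1
  dd : dot d d = 1
  ee : dot e e ≤ 4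
  ab : |dot a b| ≤ M*t
  ac : |dot a c| ≤ M*t
  ad : |dot a d| ≤ M*t
  bc : |dot b c| ≤ M*t
  bd : |dot b d| ≤ M*t
  cd : |dot c d| ≤ M*t
  ea : |dot e a| ≤ M*t
  eb : |dot e b| ≤ M*t
  ec : |dot e c| ≤ M*t
  ed : |dot e d| ≤ M*t
  abc : 3*(a 3*b 3*c 3+κ*T4 a b c)+Q4 a b c e = 0
  abd : 3*(a 3*b 3*d 3+κ*T4 a b d)+Q4 a b d e = 0
  acd : 3*(a 3*c 3*d 3+κ*T4 a c d)+Q4 a c d e = 0
  bcd : 3*(b 3*c 3*d 3+κ*T4 b c d)+Q4 b c d e = 0
  q : Q4 a b c d = 0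

lemma near_iff (κ M t : ℝ) (a b c d e : Fin 4 → ℝ) : Near κ M t a b c d e ↔
    (dot a a = 1 ∧ dot b b = 1 ∧ dot c c = 1 ∧ dot d d = 1 ∧ dot e e ≤ 4 ∧ |dot a b| ≤ M*t ∧
      |dot a c| ≤ M*t ∧ |dot a d| ≤ M*t ∧ |dot b c| ≤ M*t ∧ |dot b d| ≤ M*t ∧ |dot c d| ≤ M*t ∧
      |dot e a| ≤ M*t ∧ |dot e b| ≤ M*t ∧ |dot e c| ≤ M*t ∧ |dot e d| ≤ M*t ∧
      3*(a 3*b 3*c 3+κ*T4 a b c)+Q4 a b c e = 0 ∧ 3*(a 3*b 3*d 3+κ*T4 a b d)+Q4 a b d e = 0 ∧
      3*(a 3*c 3*d 3+κ*T4 a c d)+Q4 a c d e = 0 ∧ 3*(b 3*c 3*d 3+κ*T4 b c d)+Q4 b c d e = 0 ∧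
      Q4 a b c d = 0) := by
  constructor
  · rintro ⟨aa, bb, cc, dd, ee, ab, ac, ad, bc, bd, cd, ea, eb, ec, ed, e1, e2, e3, e4, q⟩
    exact ⟨aa, bb, cc, dd, ee, ab, ac, ad, bc, bd, cd, ea, eb, ec, ed, e1, e2, e3, e4, q⟩
  · rintro ⟨aa, bb, cc, dd, ee, ab, ac, ad, bc, bd, cd, ea, eb, ec, ed, e1, e2, e3, e4, q⟩
    exact ⟨aa, bb, cc, dd, ee, ab, ac, ad, bc, bd, cd, ea, eb, ec, ed, e1, e2, e3, e4, q⟩

lemma Near.ne {κ M t : ℝ} {a b c d e : Fin 4 → ℝ}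
    (hκ : ∀ a b c d : Fin 4 → ℝ, Rows a b c d → ¬ Eqs κ a b c d)
    (h : Near κ M t a b c d e) : t ≠ 0 := by
  rintro rfl
  obtain ⟨aa, bb, cc, dd, ee, ab, ac, ad, bc, bd, cd, ea, eb, ec, ed, e1, e2, e3, e4, q⟩ := h
  have z : ∀ x : ℝ, |x| ≤ M*0 → x = 0 := by
    intro x hx; rw [mul_zero] at hx; exact abs_nonpos_iff.mp hx
  have hr : Rows a b c d := ⟨aa, bb, cc, dd, z _ ab, z _ ac, z _ ad, z _ bc, z _ bd, z _ cd⟩
  have he : ∀ i, e i = 0 := by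
    intro i
    have c0 := hr.cols 0 i
    have c1 := hr.cols 1 i
    have c2 := hr.cols 2 i
    have c3 := hr.cols 3 i
    have ha := z _ ea
    have hb := z _ eb
    have hc := z _ ec
    have hd := z _ ed
    unfold dot at ha hb hc hd
    have h1 : e 0*(a 0*a i+b 0*b i+c 0*c i+d 0*d i)+e 1*(a 1*a i+b 1*b i+c 1*c i+d 1*d i)
        +e 2*(a 2*a i+b 2*b i+c 2*c i+d 2*d i)+e 3*(a 3*a i+b 3*b i+c 3*c i+d 3*d i) = 0 := by
      linear_combination a i*ha+b i*hb+c i*hc+d i*hd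
    rw [c0, c1, c2, c3] at h1
    fin_cases i <;> simpa using h1
  have hq : ∀ a b c : Fin 4 → ℝ, Q4 a b c e = 0 := by
    intro a b c
    unfold Q4 q4
    rw [he 0, he 1, he 2, he 3]; ring
  rw [hq] at e1 e2 e3 e4
  exact hκ a b c d hr ⟨by linarith, by linarith, by linarith, by linarith, q⟩

abbrev X2 : Type := (Fin 5 → Fin 4 → ℝ) × ℝ

def S2 (κ M : ℝ) : Set X2 := {p | p ∈ Metric.closedBall (0 : X2) 2 ∧ (0 ≤ p.2 ∧
  Near κ M p.2 (p.1 0) (p.1 1) (p.1 2) (p.1 3) (p.1 4))}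

lemma isCompact_S2 (κ M : ℝ) : IsCompact (S2 κ M) := by
  apply (isCompact_closedBall (0 : X2) 2).of_isClosed_subset ?_ (fun p hp => hp.1)
  have hS : S2 κ M = Metric.closedBall (0 : X2) 2 ∩ {p | 0 ≤ p.2 ∧
      Near κ M p.2 (p.1 0) (p.1 1) (p.1 2) (p.1 3) (p.1 4)} := rfl
  rw [hS]
  apply Metric.isClosed_closedBall.inter
  simp only [near_iff]
  unfold T4 Q4 A4 C4 q4 dot
  repeat' apply IsClosed.and
  all_goals first
    | exact isClosed_eq (by fun_prop) (by fun_prop)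
    | exact isClosed_le (by fun_prop) (by fun_prop)

/-- **perturbed Step A** -/
theorem exists_t {κ : ℝ} (hκ : ∀ a b c d : Fin 4 → ℝ, Rows a b c d → ¬ Eqs κ a b c d) (M : ℝ) :
    ∃ t₀ : ℝ, 0 < t₀ ∧ ∀ t, 0 ≤ t → t < t₀ → ∀ a b c d e : Fin 4 → ℝ,
      ¬ Near κ M t a b c d e := by
  obtain ⟨t₀, ht₀, ht1, hmin⟩ : ∃ t₀ : ℝ, 0 < t₀ ∧ t₀ ≤ 1 ∧ ∀ p ∈ S2 κ M, t₀ ≤ p.2 := by
    rcases (S2 κ M).eq_empty_or_nonempty with hS | hS
    · exact ⟨1, one_pos, le_rfl, by rw [hS]; simp⟩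
    · obtain ⟨p, hp, hpm⟩ := (isCompact_S2 κ M).exists_isMinOn hS
        (f := fun p : X2 => p.2) (by fun_prop)
      have hpos : 0 < p.2 := lt_of_le_of_ne hp.2.1 (hp.2.2.ne hκ).symm
      refine ⟨min 1 p.2, by positivity, min_le_left _ _, ?_⟩
      intro p' hp'
      exact (min_le_right _ _).trans (isMinOn_iff.mp hpm p' hp')
  refine ⟨t₀, ht₀, ?_⟩
  intro t h0 ht a b c d e hN
  have : t₀ ≤ t := by
    refine hmin (![a, b, c, d, e], t) ⟨?_, h0, hN⟩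
    rw [mem_closedBall_zero_iff, Prod.norm_def, sup_le_iff]
    constructor
    · rw [pi_norm_le_iff_of_nonneg (by norm_num)]
      intro i
      rw [pi_norm_le_iff_of_nonneg (by norm_num)]
      intro j
      rw [Real.norm_eq_abs]
      have l1 : ∀ x : Fin 4 → ℝ, dot x x ≤ 4 → |x j| ≤ 2 := by
        intro x hx
        unfold dot at hx
        have h0 := mul_self_nonneg (x 0)
        have h1 := mul_self_nonneg (x 1)
        have h2 := mul_self_nonneg (x 2)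
        have h3 := mul_self_nonneg (x 3)
        rw [abs_le]
        fin_cases j <;> simp <;> constructor <;> nlinarith
      fin_cases i
      · exact l1 a (by rw [hN.aa]; norm_num)
      · exact l1 b (by rw [hN.bb]; norm_num)
      · exact l1 c (by rw [hN.cc]; norm_num)
      · exact l1 d (by rw [hN.dd]; norm_num)
      · exact l1 e hN.ee
    · show ‖t‖ ≤ 2
      rw [Real.norm_of_nonneg h0]
      linarith
  linarith

end Pool.Agent.Helper892.Near4
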