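import Mathlib
import Pool.Agent.Helper892.Near4
import Pool.Agent.Helper892.Body4

set_option autoImplicit false

/-! A convex body of `ℝ⁴` without inscribed parallelotope. -/

namespace Pool.Agent.Helper892.Dim4

open Pool.Agent.Helper892.Frame4 Pool.Agent.Helper892.Near4 Pool.Agent.Helper892.Body4

/-- the perturbing polynomial -/
noncomputable def Pf (κ : ℝ) (v : Fin 4 → ℝ) : ℝ :=
  (v 3)^3+3*κ*(v 3*((v 1)^2+(v 2)^2+v 1*v 2)+v 0*(v 1)^2)+(v 3)^2*(v 0*(v 1-v 2/2))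

lemma third_P (κ : ℝ) (x a b c : Fin 4 → ℝ) :
    Pf κ (x+a+b+c) - Pf κ (x+a+b) - Pf κ (x+a+c) - Pf κ (x+b+c) + Pf κ (x+a) + Pf κ (x+b)
      + Pf κ (x+c) - Pf κ x
    = 6*(a 3*b 3*c 3+κ*T4 a b c)+2*Q4 a b c (x+(1/2 : ℝ)•(a+b+c)) := by
  unfold Pf T4 Q4 A4 C4 q4
  simp only [Pi.add_apply, Pi.smul_apply, smul_eq_mul]
  ring

lemma third_dot (x a b c : Fin 4 → ℝ) :
    dot (x+a+b+c) (x+a+b+c) - dot (x+a+b) (x+a+b) - dot (x+a+c) (x+a+c) - dot (x+b+c) (x+b+c)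
      + dot (x+a) (x+a) + dot (x+b) (x+b) + dot (x+c) (x+c) - dot x x = 0 := by
  unfold dot
  simp only [Pi.add_apply]
  ring

/-- the fourth difference -/
lemma fourth_P (κ : ℝ) (x a b c d : Fin 4 → ℝ) :
    (Pf κ (x+d+a+b+c) - Pf κ (x+d+a+b) - Pf κ (x+d+a+c) - Pf κ (x+d+b+c) + Pf κ (x+d+a)
      + Pf κ (x+d+b) + Pf κ (x+d+c) - Pf κ (x+d)) -
    (Pf κ (x+a+b+c) - Pf κ (x+a+b) - Pf κ (x+a+c) - Pf κ (x+b+c) + Pf κ (x+a) + Pf κ (x+b)
      + Pf κ (x+c) - Pf κ x)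
    = 2*Q4 a b c d := by
  rw [third_P, third_P]
  unfold Q4 q4
  simp only [Pi.add_apply, Pi.smul_apply, smul_eq_mul]
  ring

abbrev E4 : Type := EuclideanSpace ℝ (Fin 4)

/-- coordinates -/
def co (v : E4) : Fin 4 → ℝ := fun i => v i

lemma co_add (u v : E4) : co (u+v) = co u + co v := rfl

lemma co_smul (c : ℝ) (v : E4) : co (c•v) = c•co v := rfl

lemma dot_co (u v : E4) : dot (co u) (co v) = inner ℝ u v := by
  simp only [PiLp.inner_apply, Fin.sum_univ_four, dot, co, RCLike.inner_apply, conj_trivial]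
  ring

lemma dot_self (u : E4) : dot (co u) (co u) = ‖u‖^2 := by
  rw [dot_co, real_inner_self_eq_norm_sq]

/-- the perturbation -/
noncomputable def P (κ : ℝ) (v : E4) : ℝ := Pf κ (co v)

lemma good_coord (i : Fin 4) : Good (fun v : E4 => v i) :=
  good_linear (EuclideanSpace.proj i : E4 →L[ℝ] ℝ)

lemma good_P (κ : ℝ) : Good (P κ) := by
  have x := good_coord 0
  have y := good_coord 1
  have z := good_coord 2
  have w := good_coord 3
  have h1 := ((w.mul w).mul w)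
  have h2 := (((w.mul (y.mul y)).add (w.mul (z.mul z))).add (w.mul (y.mul z))).add (x.mul (y.mul y))
  have h3 := (w.mul w).mul (x.mul (y.add (z.const_mul (-1/2))))
  have h4 := (h1.add (h2.const_mul (3*κ))).add h3
  have e : P κ = fun v : E4 => (v 3*v 3*v 3+3*κ*(v 3*(v 1*v 1)+v 3*(v 2*v 2)+v 3*(v 1*v 2)
      +v 0*(v 1*v 1)))+v 3*v 3*(v 0*(v 1+(-1/2)*v 2)) := by
    funext v
    unfold P Pf co
    ring
  rw [e]
  exact h4

lemma continuous_P (κ : ℝ) : Continuous (P κ) := by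
  unfold P Pf co
  fun_prop

lemma P_zero (κ : ℝ) : P κ 0 = 0 := by
  simp [P, Pf, co]

/-- the defining function of the body -/
noncomputable def G (κ t : ℝ) (v : E4) : Prop := ‖v‖ ≤ 2 ∧ ‖v‖^2+t*P κ v = 1

section cube

variable {κ t M : ℝ} {x a b c : E4}

lemma pair_bound (hP : GoodC (P κ) M) (ht : 0 ≤ t) (h0 : G κ t x) (ha : G κ t (x+a))
    (hb : G κ t (x+b)) (hab : G κ t (x+a+b)) : |inner ℝ a b| ≤ t*M*(‖a‖*‖b‖) := by
  have h1 := hP.sec x a b h0.1 ha.1 hb.1 hab.1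
  have h2 : 2*inner ℝ a b = -(t*(P κ (x+a+b) - P κ (x+a) - P κ (x+b) + P κ x)) := by
    have e0 := h0.2
    have e1 := ha.2
    have e2 := hb.2
    have e3 := hab.2
    have e4 : ‖x+a+b‖^2-‖x+a‖^2-‖x+b‖^2+‖x‖^2 = 2*inner ℝ a b := by
      rw [norm_add_sq_real (x+a) b, norm_add_sq_real x b, inner_add_left]
      ring
    linear_combination -e4+e3-e1-e2+e0
  have h3 : |2*inner ℝ a b| ≤ t*(M*(‖a‖*‖b‖)) := by
    rw [h2, abs_neg, abs_mul, abs_of_nonneg ht]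
    exact mul_le_mul_of_nonneg_left h1 ht
  rw [abs_mul, abs_two] at h3
  have h4 : 0 ≤ |inner ℝ a b| := abs_nonneg _
  linarith

lemma single_bound (hP : GoodC (P κ) M) (ht : 0 ≤ t) (h0 : G κ t x) (ha : G κ t (x+a)) :
    |2*inner ℝ x a+‖a‖^2| ≤ t*M*‖a‖ := by
  have h1 := hP.lip x a h0.1 ha.1
  have h2 : 2*inner ℝ x a+‖a‖^2 = -(t*(P κ (x+a) - P κ x)) := by
    have e0 := h0.2
    have e1 := ha.2
    rw [norm_add_sq_real] at e1
    linear_combination e1-e0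
  rw [h2, abs_neg, abs_mul, abs_of_nonneg ht, mul_assoc]
  exact mul_le_mul_of_nonneg_left h1 ht

lemma third_eq (ht : t ≠ 0) (h0 : G κ t x) (ha : G κ t (x+a)) (hb : G κ t (x+b))
    (hc : G κ t (x+c)) (hab : G κ t (x+a+b)) (hac : G κ t (x+a+c)) (hbc : G κ t (x+b+c))
    (habc : G κ t (x+a+b+c)) :
    P κ (x+a+b+c) - P κ (x+a+b) - P κ (x+a+c) - P κ (x+b+c) + P κ (x+a) + P κ (x+b)
      + P κ (x+c) - P κ x = 0 := by
  have e := third_dot (co x) (co a) (co b) (co c)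
  simp only [← co_add, dot_self] at e
  apply mul_left_cancel₀ ht
  linear_combination habc.2-hab.2-hac.2-hbc.2+ha.2+hb.2+hc.2-h0.2-e

end cube

/-! ### normalisation -/

lemma T4_smul (α β γ : ℝ) (a b c : Fin 4 → ℝ) :
    T4 (α•a) (β•b) (γ•c) = α*β*γ*T4 a b c := by
  unfold T4 A4 C4
  simp only [Pi.smul_apply, smul_eq_mul]
  ring

lemma Q4_smul (α β γ δ : ℝ) (a b c d : Fin 4 → ℝ) :
    Q4 (α•a) (β•b) (γ•c) (δ•d) = α*β*γ*δ*Q4 a b c d := by
  unfold Q4 q4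
  simp only [Pi.smul_apply, smul_eq_mul]
  ring

lemma dot_smul (α β : ℝ) (a b : Fin 4 → ℝ) : dot (α•a) (β•b) = α*β*dot a b := by
  unfold dot
  simp only [Pi.smul_apply, smul_eq_mul]
  ring

lemma Q4_center (x a b c d : Fin 4 → ℝ) :
    Q4 a b c (x+(1/2 : ℝ)•(a+b+c)) = Q4 a b c (x+(1/2 : ℝ)•(a+b+c+d)) - 1/2*Q4 a b c d := by
  unfold Q4 q4
  simp only [Pi.add_apply, Pi.smul_apply, smul_eq_mul]
  ring

/-- everything satisfied by a parallelotope inscribed in the boundary -/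
structure Cube (κ t : ℝ) (x : E4) (v : Fin 4 → E4) : Prop where
  g0 : G κ t x
  g1 : ∀ i, G κ t (x+v i)
  g2 : ∀ i j, i ≠ j → G κ t (x+v i+v j)
  g3 : ∀ i j k, i ≠ j → i ≠ k → j ≠ k → G κ t (x+v i+v j+v k)
  g4 : G κ t (x+v 3+v 0+v 1+v 2)

lemma Cube.of_vertices {κ t : ℝ} {x : E4} {v : Fin 4 → E4}
    (h : ∀ s : Finset (Fin 4), G κ t (x+∑ i ∈ s, v i)) : Cube κ t x v := by
  refine ⟨?_, ?_, ?_, ?_, ?_⟩
  · simpa using h ∅
  · intro i; simpa using h {i}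
  · intro i j hij
    have := h {i, j}
    rwa [Finset.sum_pair hij, ← add_assoc] at this
  · intro i j k hij hik hjk
    have := h {i, j, k}
    rwa [Finset.sum_insert (by simp [hij, hik]), Finset.sum_pair hjk, ← add_assoc,
      ← add_assoc] at this
  · have := h Finset.univ
    rw [Fin.sum_univ_four] at this
    have e : x+v 3+v 0+v 1+v 2 = x+(v 0+v 1+v 2+v 3) := by abel
    rwa [e]

lemma Cube.fourth {κ t : ℝ} (ht : t ≠ 0) {x : E4} {v : Fin 4 → E4} (h : Cube κ t x v) :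
    Q4 (co (v 0)) (co (v 1)) (co (v 2)) (co (v 3)) = 0 := by
  have h1 := third_eq ht h.g0 (h.g1 0) (h.g1 1) (h.g1 2) (h.g2 0 1 (by decide))
    (h.g2 0 2 (by decide)) (h.g2 1 2 (by decide)) (h.g3 0 1 2 (by decide) (by decide) (by decide))
  have h2 := third_eq ht (h.g1 3) (h.g2 3 0 (by decide)) (h.g2 3 1 (by decide))
    (h.g2 3 2 (by decide)) (h.g3 3 0 1 (by decide) (by decide) (by decide))
    (h.g3 3 0 2 (by decide) (by decide) (by decide))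
    (h.g3 3 1 2 (by decide) (by decide) (by decide)) h.g4
  have h3 := fourth_P κ (co x) (co (v 0)) (co (v 1)) (co (v 2)) (co (v 3))
  simp only [← co_add] at h3
  unfold P at h1 h2
  linarith

lemma Cube.third {κ t : ℝ} (ht : t ≠ 0) {x : E4} {v : Fin 4 → E4} (h : Cube κ t x v)
    {i j k l : Fin 4} (hij : i ≠ j) (hik : i ≠ k) (hjk : j ≠ k)
    (hQ : Q4 (co (v i)) (co (v j)) (co (v k)) (co (v l)) = 0) :
    3*(co (v i) 3*co (v j) 3*co (v k) 3+κ*T4 (co (v i)) (co (v j)) (co (v k)))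
      +Q4 (co (v i)) (co (v j)) (co (v k)) (co (x+(1/2 : ℝ)•(v i+v j+v k+v l))) = 0 := by
  have h1 := third_eq ht h.g0 (h.g1 i) (h.g1 j) (h.g1 k) (h.g2 i j hij)
    (h.g2 i k hik) (h.g2 j k hjk) (h.g3 i j k hij hik hjk)
  unfold P at h1
  simp only [co_add] at h1
  rw [third_P, Q4_center _ _ _ _ (co (v l)), hQ] at h1
  simp only [co_add, co_smul]
  linarith

lemma Cube.norm_edge {κ t : ℝ} {x : E4} {v : Fin 4 → E4} (h : Cube κ t x v) (i : Fin 4) :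
    ‖v i‖ ≤ 4 := by
  have h0 := h.g0.1
  have h1 := (h.g1 i).1
  calc ‖v i‖ = ‖(x+v i)-x‖ := by rw [add_sub_cancel_left]
    _ ≤ ‖x+v i‖+‖x‖ := norm_sub_le _ _
    _ ≤ 4 := by linarith

lemma Cube.center_bound {κ t M : ℝ} (hP : GoodC (P κ) M) (ht : 0 ≤ t) {x : E4}
    {v : Fin 4 → E4} (h : Cube κ t x v) {i j k l : Fin 4} (hij : i ≠ j) (hik : i ≠ k)
    (hil : i ≠ l) : |inner ℝ (x+(1/2 : ℝ)•(v i+v j+v k+v l)) (v i)| ≤ 7*M*t*‖v i‖ := by
  have hM := hP.nonneg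
  have hb : ∀ m, i ≠ m → |inner ℝ (v m) (v i)| ≤ t*M*(4*‖v i‖) := by
    intro m him
    rw [real_inner_comm]
    refine (pair_bound hP ht h.g0 (h.g1 i) (h.g1 m) (h.g2 i m him)).trans ?_
    have := h.norm_edge m
    have h2 : ‖v i‖*‖v m‖ ≤ 4*‖v i‖ := by nlinarith [norm_nonneg (v i)]
    exact mul_le_mul_of_nonneg_left h2 (by positivity)
  have h1 := single_bound hP ht h.g0 (h.g1 i)
  have h2 := hb j hij
  have h3 := hb k hik
  have h4 := hb l hil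
  have e : inner ℝ (x+(1/2 : ℝ)•(v i+v j+v k+v l)) (v i)
      = 1/2*((2*inner ℝ x (v i)+‖v i‖^2)+inner ℝ (v j) (v i)+inner ℝ (v k) (v i)
        +inner ℝ (v l) (v i)) := by
    rw [inner_add_left, real_inner_smul_left, inner_add_left, inner_add_left, inner_add_left,
      real_inner_self_eq_norm_sq]
    ring
  rw [e]
  rw [abs_le] at h1 h2 h3 h4 ⊢
  have h5 : 0 ≤ M*t*‖v i‖ := by positivity
  constructor <;> nlinarith [h1.1, h1.2, h2.1, h2.2, h3.1, h3.2, h4.1, h4.2]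

lemma Cube.near {κ t M : ℝ} (hP : GoodC (P κ) M) (ht : 0 < t) {x : E4}
    {v : Fin 4 → E4} (h : Cube κ t x v) (hv : ∀ i, v i ≠ 0) :
    Near κ (7*M) t (‖v 0‖⁻¹•co (v 0)) (‖v 1‖⁻¹•co (v 1)) (‖v 2‖⁻¹•co (v 2))
      (‖v 3‖⁻¹•co (v 3)) (co (x+(1/2 : ℝ)•(v 0+v 1+v 2+v 3))) := by
  have hM := hP.nonneg
  have hn : ∀ i, 0 < ‖v i‖ := fun i => norm_pos_iff.mpr (hv i)
  have hself : ∀ i, dot (‖v i‖⁻¹•co (v i)) (‖v i‖⁻¹•co (v i)) = 1 := by
    intro i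
    rw [dot_smul, dot_self]
    have := (hn i).ne'
    field_simp
  have hpair : ∀ i j, i ≠ j → |dot (‖v i‖⁻¹•co (v i)) (‖v j‖⁻¹•co (v j))| ≤ 7*M*t := by
    intro i j hij
    have h1 := pair_bound hP ht.le h.g0 (h.g1 i) (h.g1 j) (h.g2 i j hij)
    have hi := hn i
    have hj := hn j
    rw [dot_smul, dot_co, abs_mul, abs_of_pos (by positivity)]
    calc ‖v i‖⁻¹*‖v j‖⁻¹*|inner ℝ (v i) (v j)| ≤ ‖v i‖⁻¹*‖v j‖⁻¹*(t*M*(‖v i‖*‖v j‖)) := by
          gcongr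
      _ = t*M := by field_simp
      _ ≤ 7*M*t := by nlinarith [mul_nonneg ht.le hM]
  have hcen : ∀ i, |inner ℝ (x+(1/2 : ℝ)•(v 0+v 1+v 2+v 3)) (v i)| ≤ 7*M*t*‖v i‖ := by
    intro i
    fin_cases i
    · exact h.center_bound hP ht.le (i := 0) (j := 1) (k := 2) (l := 3) (by decide) (by decide)
        (by decide)
    · have := h.center_bound hP ht.le (i := 1) (j := 0) (k := 2) (l := 3) (by decide) (by decide)
        (by decide)
      have e : v 1+v 0+v 2+v 3 = v 0+v 1+v 2+v 3 := by abel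
      rwa [e] at this
    · have := h.center_bound hP ht.le (i := 2) (j := 0) (k := 1) (l := 3) (by decide) (by decide)
        (by decide)
      have e : v 2+v 0+v 1+v 3 = v 0+v 1+v 2+v 3 := by abel
      rwa [e] at this
    · have := h.center_bound hP ht.le (i := 3) (j := 0) (k := 1) (l := 2) (by decide) (by decide)
        (by decide)
      have e : v 3+v 0+v 1+v 2 = v 0+v 1+v 2+v 3 := by abel
      rwa [e] at this
  have hcen' : ∀ i, |dot (co (x+(1/2 : ℝ)•(v 0+v 1+v 2+v 3))) (‖v i‖⁻¹•co (v i))| ≤ 7*M*t := by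
    intro i
    have hi := hn i
    have e : dot (co (x+(1/2 : ℝ)•(v 0+v 1+v 2+v 3))) (‖v i‖⁻¹•co (v i))
        = ‖v i‖⁻¹*inner ℝ (x+(1/2 : ℝ)•(v 0+v 1+v 2+v 3)) (v i) := by
      have := dot_smul 1 ‖v i‖⁻¹ (co (x+(1/2 : ℝ)•(v 0+v 1+v 2+v 3))) (co (v i))
      rw [one_smul, dot_co, one_mul] at this
      exact this
    rw [e, abs_mul, abs_of_pos (by positivity)]
    calc ‖v i‖⁻¹*|inner ℝ (x+(1/2 : ℝ)•(v 0+v 1+v 2+v 3)) (v i)|
        ≤ ‖v i‖⁻¹*(7*M*t*‖v i‖) := by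
          gcongr
          exact hcen i
      _ = 7*M*t := by field_simp
  have h4 := h.fourth ht.ne'
  have hT : ∀ i j k l : Fin 4, i ≠ j → i ≠ k → j ≠ k →
      Q4 (co (v i)) (co (v j)) (co (v k)) (co (v l)) = 0 →
      v i+v j+v k+v l = v 0+v 1+v 2+v 3 →
      3*((‖v i‖⁻¹•co (v i)) 3*(‖v j‖⁻¹•co (v j)) 3*(‖v k‖⁻¹•co (v k)) 3
        +κ*T4 (‖v i‖⁻¹•co (v i)) (‖v j‖⁻¹•co (v j)) (‖v k‖⁻¹•co (v k)))
        +Q4 (‖v i‖⁻¹•co (v i)) (‖v j‖⁻¹•co (v j)) (‖v k‖⁻¹•co (v k))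
          (co (x+(1/2 : ℝ)•(v 0+v 1+v 2+v 3))) = 0 := by
    intro i j k l hij hik hjk hQ hs
    have h3 := h.third ht.ne' hij hik hjk hQ
    rw [hs] at h3
    have e := Q4_smul ‖v i‖⁻¹ ‖v j‖⁻¹ ‖v k‖⁻¹ 1 (co (v i)) (co (v j)) (co (v k))
      (co (x+(1/2 : ℝ)•(v 0+v 1+v 2+v 3)))
    rw [one_smul, mul_one] at e
    rw [e, T4_smul]
    simp only [Pi.smul_apply, smul_eq_mul]
    linear_combination (‖v i‖⁻¹*‖v j‖⁻¹*‖v k‖⁻¹)*h3
  have q1 : Q4 (co (v 0)) (co (v 1)) (co (v 3)) (co (v 2)) = 0 := by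
    rw [← h4]; unfold Q4 q4; ring
  have q2 : Q4 (co (v 0)) (co (v 2)) (co (v 3)) (co (v 1)) = 0 := by
    rw [← h4]; unfold Q4 q4; ring
  have q3 : Q4 (co (v 1)) (co (v 2)) (co (v 3)) (co (v 0)) = 0 := by
    rw [← h4]; unfold Q4 q4; ring
  refine ⟨hself 0, hself 1, hself 2, hself 3, ?_, hpair 0 1 (by decide), hpair 0 2 (by decide),
    hpair 0 3 (by decide), hpair 1 2 (by decide), hpair 1 3 (by decide), hpair 2 3 (by decide),
    hcen' 0, hcen' 1, hcen' 2, hcen' 3, ?_, ?_, ?_, ?_, ?_⟩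
  · rw [dot_self]
    have e : x+(1/2 : ℝ)•(v 0+v 1+v 2+v 3) = (1/2 : ℝ)•(x+(x+v 3+v 0+v 1+v 2)) := by
      module
    have h1 := h.g0.1
    have h2 := h.g4.1
    have h3 : ‖x+(1/2 : ℝ)•(v 0+v 1+v 2+v 3)‖ ≤ 2 := by
      rw [e, norm_smul, Real.norm_of_nonneg (by norm_num)]
      have := norm_add_le x (x+v 3+v 0+v 1+v 2)
      linarith
    nlinarith [norm_nonneg (x+(1/2 : ℝ)•(v 0+v 1+v 2+v 3))]
  · exact hT 0 1 2 3 (by decide) (by decide) (by decide) h4 rfl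
  · exact hT 0 1 3 2 (by decide) (by decide) (by decide) q1 (by abel)
  · exact hT 0 2 3 1 (by decide) (by decide) (by decide) q2 (by abel)
  · exact hT 1 2 3 0 (by decide) (by decide) (by decide) q3 (by abel)
  · rw [Q4_smul, h4, mul_zero]

/-- **dimension four** -/
theorem exists_body4 : ∃ C : Set (EuclideanSpace ℝ (Fin 4)), IsCompact C ∧ Convex ℝ C ∧
    (interior C).Nonempty ∧
    ¬ ∃ (a : EuclideanSpace ℝ (Fin 4)) (v : Fin 4 → EuclideanSpace ℝ (Fin 4)),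
      LinearIndependent ℝ v ∧ ∀ S : Finset (Fin 4), a + ∑ i ∈ S, v i ∈ frontier C := by
  obtain ⟨κ, hκ0, hκ⟩ := exists_kappa
  obtain ⟨M, hP⟩ := good_P κ
  have hM := hP.nonneg
  obtain ⟨t₀, ht₀, hnear⟩ := exists_t hκ (7*M)
  set t : ℝ := min (t₀/2) (1/(2*(M+1))) with htd
  have ht : 0 < t := by positivity
  have ht1 : t < t₀ := by
    have : t ≤ t₀/2 := min_le_left _ _
    linarith
  have ht2 : t*M ≤ 1/2 := by
    have h1 : t ≤ 1/(2*(M+1)) := min_le_right _ _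
    calc t*M ≤ 1/(2*(M+1))*M := by gcongr
      _ ≤ 1/(2*(M+1))*(M+1) := by gcongr; linarith
      _ = 1/2 := by field_simp
  refine ⟨body (P κ) t, body_isCompact (continuous_P κ) t, body_convex hP ht.le ht2,
    body_interior (continuous_P κ) t (P_zero κ), ?_⟩
  rintro ⟨x, v, hv, hfr⟩
  have hcube : Cube κ t x v := by
    apply Cube.of_vertices
    intro s
    exact body_frontier (continuous_P κ) hP ht.le ht2 (hfr s)
  exact hnear t ht.le ht1 _ _ _ _ _ (hcube.near hP ht (fun i => hv.ne_zero i))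

end Pool.Agent.Helper892.Dim4
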