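import Mathlib

set_option autoImplicit false

open Metric Set

namespace Pool.Agent.Helper892.Par

open scoped RealInnerProductSpace

/-! ### Generic translations avoid finitely many proper subspaces -/

section generic

variable {J : Type*} [Fintype J] {I : Type*} [Fintype I]

/-- the pull back map -/
noncomputable def pull (σ : I → J) : (J → ℝ) →ₗ[ℝ] (I → ℝ) := LinearMap.funLeft ℝ ℝ σ

lemma pull_surjective {σ : I → J} (hσ : Function.Injective σ) :
    Function.Surjective (pull σ) :=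
  LinearMap.funLeft_surjective_of_injective ℝ ℝ σ hσ

lemma dense_avoid {σ : I → J} (hσ : Function.Injective σ) (W : Submodule ℝ (I → ℝ))
    (hW : W ≠ ⊤) (b : J → ℝ) :
    IsOpen {t : J → ℝ | (fun s => b (σ s) + t (σ s)) ∉ W} ∧
    Dense {t : J → ℝ | (fun s => b (σ s) + t (σ s)) ∉ W} := by
  set W' : Submodule ℝ (J → ℝ) := W.comap (pull σ) with hW'
  have hne : W' ≠ ⊤ := by
    intro h
    apply hW
    rw [eq_top_iff]
    intro y _
    obtain ⟨x, rfl⟩ := pull_surjective hσ y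
    have : x ∈ W' := by rw [h]; trivial
    exact this
  have hclosed : IsClosed (W' : Set (J → ℝ)) := W'.closed_of_finiteDimensional
  have hint : interior (W' : Set (J → ℝ)) = ∅ := by
    by_contra h
    exact hne (Submodule.eq_top_of_nonempty_interior' W' (Set.nonempty_iff_ne_empty.mpr h))
  have hdense : Dense ((W' : Set (J → ℝ))ᶜ) := interior_eq_empty_iff_dense_compl.mp hint
  have heq : {t : J → ℝ | (fun s => b (σ s) + t (σ s)) ∉ W}
      = (Homeomorph.addLeft b) ⁻¹' ((W' : Set (J → ℝ))ᶜ) := by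
    ext t
    simp only [mem_setOf_eq, mem_preimage, mem_compl_iff, SetLike.mem_coe, hW',
      Submodule.mem_comap]
    rfl
  rw [heq]
  refine ⟨hclosed.isOpen_compl.preimage (Homeomorph.addLeft b).continuous, ?_⟩
  exact hdense.preimage (Homeomorph.addLeft b).isOpenMap

/-- Given finitely many proper subspaces, there is a small generic vector. -/
lemma exists_generic [Nonempty J] (W : (I → J) → Submodule ℝ (I → ℝ))
    (hW : ∀ σ, Function.Injective σ → W σ ≠ ⊤) (b : J → ℝ) {τ : ℝ} (hτ : 0 < τ) :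
    ∃ t : J → ℝ, (∀ j, |t j| ≤ τ) ∧ ∃ η > 0, ∀ σ : I → J, Function.Injective σ →
      ∀ y ∈ W σ, ∃ s, η < |y s - (b (σ s) + t (σ s))| := by
  classical
  let S : (I → J) → Set (J → ℝ) := fun σ =>
    if Function.Injective σ then {t : J → ℝ | (fun s => b (σ s) + t (σ s)) ∉ W σ} else Set.univ
  have hSo : ∀ σ, IsOpen (S σ) := by
    intro σ
    by_cases h : Function.Injective σ
    · simp only [S, h, if_true]; exact (dense_avoid h (W σ) (hW σ h) b).1
    · simp only [S, h, if_false]; exact isOpen_univ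
  have hSd : ∀ σ, Dense (S σ) := by
    intro σ
    by_cases h : Function.Injective σ
    · simp only [S, h, if_true]; exact (dense_avoid h (W σ) (hW σ h) b).2
    · simp only [S, h, if_false]; exact dense_univ
  have hd : Dense (⋂ σ, S σ) := dense_iInter_of_isOpen hSo hSd
  obtain ⟨t, htS, htb⟩ := Metric.dense_iff.mp hd (0 : J → ℝ) τ hτ
  refine ⟨t, ?_, ?_⟩
  · intro j
    have h1 : ‖t‖ < τ := by simpa using htS
    exact (norm_le_pi_norm t j).trans h1.le
  · have key : ∀ σ : I → J, ∃ η > 0, Function.Injective σ → ∀ y ∈ W σ, ∃ s,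
        η < |y s - (b (σ s) + t (σ s))| := by
      intro σ
      by_cases h : Function.Injective σ
      · have h1 : (fun s => b (σ s) + t (σ s)) ∉ W σ := by
          have := mem_iInter.mp htb σ
          simp only [S, h, if_true] at this
          exact this
        have hclosed : IsClosed (W σ : Set (I → ℝ)) := (W σ).closed_of_finiteDimensional
        have h2 : (fun s => b (σ s) + t (σ s)) ∈ ((W σ : Set (I → ℝ))ᶜ) := h1
        obtain ⟨ε, hε, hball⟩ := Metric.isOpen_iff.mp hclosed.isOpen_compl _ h2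
        refine ⟨ε / 2, by positivity, fun _ y hy => ?_⟩
        by_contra hcon
        push Not at hcon
        have : y ∈ ball (fun s => b (σ s) + t (σ s)) ε := by
          rw [mem_ball]
          refine lt_of_le_of_lt ?_ (half_lt_self hε)
          rw [dist_pi_le_iff (by positivity)]
          intro s
          rw [Real.dist_eq]
          exact hcon s
        exact hball this hy
      · exact ⟨1, one_pos, fun h' => absurd h' h⟩
    choose η hη hη' using key
    haveI : Nonempty (I → J) := inferInstance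
    obtain ⟨σ₀, hσ₀⟩ := Finite.exists_min η
    refine ⟨η σ₀, hη σ₀, fun σ hσ y hy => ?_⟩
    obtain ⟨s, hs⟩ := hη' σ hσ y hy
    exact ⟨s, lt_of_le_of_lt (hσ₀ σ) hs⟩

end generic

variable {E : Type*} [NormedAddCommGroup E] [InnerProductSpace ℝ E] [FiniteDimensional ℝ E]

/-! ### Nearest points -/

lemma exists_proj (K : ConvexBody E) : ∃ p : E → E, ∀ x, p x ∈ K ∧
    (∀ y ∈ K, ‖x - p x‖ ≤ ‖x - y‖) ∧ ∀ y ∈ K, ⟪x - p x, y - p x⟫ ≤ 0 := by
  have : ∀ x : E, ∃ q, q ∈ K ∧
    (∀ y ∈ K, ‖x - q‖ ≤ ‖x - y‖) ∧ ∀ y ∈ K, ⟪x - q, y - q⟫ ≤ 0 := by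
    intro x
    obtain ⟨q, hq, hq'⟩ := exists_norm_eq_iInf_of_complete_convex K.nonempty
      K.isCompact.isComplete K.convex x
    refine ⟨q, hq, ?_, ?_⟩
    · intro y hy
      rw [hq']
      exact ciInf_le ⟨0, by rintro _ ⟨z, rfl⟩; positivity⟩ (⟨y, hy⟩ : (K : Set E))
    · intro y hy
      exact (norm_eq_iInf_iff_real_inner_le_zero K.convex hq).mp hq' y hy
  choose p hp using this
  exact ⟨p, hp⟩

/-! ### The smoothing function and its tangents -/

/-- the strongly convex function `d_K(x)^2 + κ |x|^2`, written with a nearest-point map `p` -/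
noncomputable def fn (p : E → E) (κ : ℝ) (x : E) : ℝ := ‖x - p x‖ ^ 2 + κ * ‖x‖ ^ 2

/-- half the gradient -/
noncomputable def gr (p : E → E) (κ : ℝ) (x : E) : E := (x - p x) + κ • x

lemma fn_lower {K : ConvexBody E} {p : E → E}
    (hp : ∀ x, p x ∈ K ∧ (∀ y ∈ K, ‖x - p x‖ ≤ ‖x - y‖) ∧ ∀ y ∈ K, ⟪x - p x, y - p x⟫ ≤ 0)
    (κ : ℝ) (x₀ x : E) :
    fn p κ x₀ + 2 * ⟪gr p κ x₀, x - x₀⟫ + κ * ‖x - x₀‖ ^ 2 ≤ fn p κ x := by
  have h1 := (hp x₀).2.2 (p x) (hp x).1
  have h2 : 0 ≤ ‖(x - p x) - (x₀ - p x₀)‖ ^ 2 := by positivity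
  have h3 : ‖(x - p x) - (x₀ - p x₀)‖ ^ 2 = ‖x - p x‖ ^ 2 - 2 * ⟪x - p x, x₀ - p x₀⟫
      + ‖x₀ - p x₀‖ ^ 2 := norm_sub_sq_real _ _
  have h4 : ⟪x - p x, x₀ - p x₀⟫ = ⟪x₀ - p x₀, x - x₀⟫ + ‖x₀ - p x₀‖ ^ 2
      - ⟪x₀ - p x₀, p x - p x₀⟫ := by
    rw [← real_inner_self_eq_norm_sq (x₀ - p x₀), real_inner_comm, ← inner_add_right,
      ← inner_sub_right]
    congr 1
    abel
  have h5 : ‖x‖ ^ 2 = ‖x₀‖ ^ 2 + 2 * ⟪x₀, x - x₀⟫ + ‖x - x₀‖ ^ 2 := by
    have : x = x₀ + (x - x₀) := by abel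
    conv_lhs => rw [this]
    rw [norm_add_sq_real]
  have h6 : ⟪gr p κ x₀, x - x₀⟫ = ⟪x₀ - p x₀, x - x₀⟫ + κ * ⟪x₀, x - x₀⟫ := by
    rw [gr, inner_add_left, real_inner_smul_left]
  unfold fn
  rw [h6, h5]
  nlinarith [h1, h2, h3, h4]

lemma fn_upper {K : ConvexBody E} {p : E → E}
    (hp : ∀ x, p x ∈ K ∧ (∀ y ∈ K, ‖x - p x‖ ≤ ‖x - y‖) ∧ ∀ y ∈ K, ⟪x - p x, y - p x⟫ ≤ 0)
    (κ : ℝ) (x₀ x : E) :
    fn p κ x ≤ fn p κ x₀ + 2 * ⟪gr p κ x₀, x - x₀⟫ + (1 + κ) * ‖x - x₀‖ ^ 2 := by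
  have h1 := (hp x).2.1 (p x₀) (hp x₀).1
  have h2 : ‖x - p x‖ ^ 2 ≤ ‖x - p x₀‖ ^ 2 := by
    apply pow_le_pow_left₀ (norm_nonneg _) h1
  have h3 : ‖x - p x₀‖ ^ 2 = ‖x₀ - p x₀‖ ^ 2 + 2 * ⟪x₀ - p x₀, x - x₀⟫ + ‖x - x₀‖ ^ 2 := by
    have : x - p x₀ = (x₀ - p x₀) + (x - x₀) := by abel
    rw [this, norm_add_sq_real]
  have h5 : ‖x‖ ^ 2 = ‖x₀‖ ^ 2 + 2 * ⟪x₀, x - x₀⟫ + ‖x - x₀‖ ^ 2 := by
    have : x = x₀ + (x - x₀) := by abel
    conv_lhs => rw [this]
    rw [norm_add_sq_real]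
  have h6 : ⟪gr p κ x₀, x - x₀⟫ = ⟪x₀ - p x₀, x - x₀⟫ + κ * ⟪x₀, x - x₀⟫ := by
    rw [gr, inner_add_left, real_inner_smul_left]
  unfold fn
  rw [h6, h5]
  nlinarith [h2, h3]

lemma fn_midpoint {K : ConvexBody E} {p : E → E}
    (hp : ∀ x, p x ∈ K ∧ (∀ y ∈ K, ‖x - p x‖ ≤ ‖x - y‖) ∧ ∀ y ∈ K, ⟪x - p x, y - p x⟫ ≤ 0)
    (κ : ℝ) (x y : E) :
    2 * fn p κ ((1 / 2 : ℝ) • (x + y)) + κ * ‖x - y‖ ^ 2 / 2 ≤ fn p κ x + fn p κ y := by
  set m : E := (1 / 2 : ℝ) • (x + y) with hm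
  have h1 := fn_lower hp κ m x
  have h2 := fn_lower hp κ m y
  have e1 : x - m = (1 / 2 : ℝ) • (x - y) := by rw [hm]; module
  have e2 : y - m = (-(1 / 2) : ℝ) • (x - y) := by rw [hm]; module
  rw [e1, inner_smul_right, norm_smul, mul_pow, Real.norm_eq_abs, sq_abs] at h1
  rw [e2, inner_smul_right, norm_smul, mul_pow, Real.norm_eq_abs, sq_abs] at h2
  linarith

/-- A convex body containing, up to `δ`, a ball around `y`, contains `y` in its interior. -/
lemma mem_interior_of_approx (L : ConvexBody E) {y : E} {ρ δ : ℝ} (hδ : 0 < δ) (hρ : δ < ρ)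
    (h : ∀ w, ‖w - y‖ < ρ → ∃ z ∈ L, ‖w - z‖ < δ) : y ∈ interior (L : Set E) := by
  obtain ⟨p, hp⟩ := exists_proj L
  rw [mem_interior]
  refine ⟨ball y (ρ - δ), ?_, isOpen_ball, mem_ball_self (by linarith)⟩
  intro w hw
  by_contra hwL
  have hw' : ‖w - y‖ < ρ - δ := by simpa [dist_eq_norm] using hw
  have hne : 0 < ‖w - p w‖ := by
    rw [norm_pos_iff, sub_ne_zero]
    rintro h0
    apply hwL
    rw [h0]
    exact (hp w).1
  set n : E := (‖w - p w‖⁻¹) • (w - p w) with hn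
  have hn1 : ‖n‖ = 1 := by
    rw [hn, norm_smul, norm_inv, norm_norm]
    exact inv_mul_cancel₀ hne.ne'
  have hwn : ⟪n, w - p w⟫ = ‖w - p w‖ := by
    rw [hn, real_inner_smul_left, real_inner_self_eq_norm_sq]
    field_simp
  obtain ⟨z, hz, hzd⟩ := h (w + δ • n) (by
    calc ‖w + δ • n - y‖ = ‖(w - y) + δ • n‖ := by congr 1; abel
      _ ≤ ‖w - y‖ + ‖δ • n‖ := norm_add_le _ _
      _ = ‖w - y‖ + δ := by rw [norm_smul, hn1, Real.norm_of_nonneg hδ.le, mul_one]
      _ < ρ := by linarith)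
  have h1 := (hp w).2.2 z hz
  have h2 : ⟪n, z - p w⟫ ≤ 0 := by
    rw [hn, real_inner_smul_left]
    exact mul_nonpos_of_nonneg_of_nonpos (by positivity) h1
  have h3 : ⟪n, w + δ • n - z⟫ = ‖w - p w‖ + δ - ⟪n, z - p w⟫ := by
    have : w + δ • n - z = (w - p w) + δ • n - (z - p w) := by abel
    rw [this, inner_sub_right, inner_add_right, hwn, inner_smul_right,
      real_inner_self_eq_norm_sq, hn1]
    ring
  have h4 : ⟪n, w + δ • n - z⟫ ≤ ‖n‖ * ‖w + δ • n - z‖ := real_inner_le_norm _ _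
  rw [hn1, one_mul] at h4
  linarith

/-! ### The linear systems -/

/-- the linear map sending a parallelotope to the values of the given functionals at its vertices -/
noncomputable def sysMap {ι : Type*} [Fintype ι] (a : Finset ι → E) :
    (E × (ι → E)) →ₗ[ℝ] (Finset ι → ℝ) where
  toFun q := fun s => 2 * ⟪a s, q.1 + ∑ i ∈ s, q.2 i⟫
  map_add' q q' := by
    funext s
    simp only [Prod.fst_add, Prod.snd_add, Pi.add_apply, Finset.sum_add_distrib, inner_add_right]
    ring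
  map_smul' c q := by
    funext s
    simp only [Prod.smul_fst, Prod.smul_snd, Pi.smul_apply, RingHom.id_apply, smul_eq_mul]
    rw [← Finset.smul_sum, ← smul_add, inner_smul_right]
    ring

lemma range_sysMap_ne_top {ι : Type*} [Fintype ι]
    (hdim : Module.finrank ℝ E * (Fintype.card ι + 1) < 2 ^ Fintype.card ι)
    (a : Finset ι → E) : LinearMap.range (sysMap a) ≠ ⊤ := by
  intro h
  have h1 := LinearMap.finrank_range_le (sysMap a)
  rw [h, finrank_top, Module.finrank_fintype_fun_eq_card, Fintype.card_finset,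
    Module.finrank_prod, Module.finrank_pi_fintype] at h1
  simp only [Finset.sum_const, Finset.card_univ, smul_eq_mul] at h1
  nlinarith

/-! ### The approximating polytopes -/

theorem approx {ι : Type*} [Fintype ι]
    (hdim : Module.finrank ℝ E * (Fintype.card ι + 1) < 2 ^ Fintype.card ι)
    (K : ConvexBody E) {ε g : ℝ} (hε : 0 < ε) (hg : 0 < g) :
    ∃ K' : ConvexBody E, dist K K' < ε ∧ ∃ δ > 0, ∀ L : ConvexBody E, dist K' L < δ →
      ¬ ∃ (x : E) (v : ι → E),
        (∀ s t : Finset ι, s ≠ t → g ≤ ‖(x + ∑ i ∈ s, v i) - (x + ∑ i ∈ t, v i)‖) ∧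
        ∀ s : Finset ι, x + ∑ i ∈ s, v i ∈ frontier (L : Set E) := by
  classical
  obtain ⟨p, hp⟩ := exists_proj K
  obtain ⟨R, hR0, hR⟩ : ∃ R : ℝ, 0 ≤ R ∧ ∀ x ∈ K, ‖x‖ ≤ R := by
    obtain ⟨R, hR⟩ := K.isBounded.exists_norm_le
    obtain ⟨z, hz⟩ := K.nonempty
    exact ⟨R, (norm_nonneg z).trans (hR z hz), hR⟩
  set r : ℝ := ε / 3 with hr
  have hr0 : 0 < r := by positivity
  set κ : ℝ := r ^ 2 / (4 * (R ^ 2 + 1)) with hκ
  have hκ0 : 0 < κ := by positivity
  have hκR : κ * R ^ 2 ≤ r ^ 2 / 4 := by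
    rw [hκ, div_mul_eq_mul_div, div_le_div_iff₀ (by positivity) (by norm_num)]
    nlinarith [sq_nonneg r, sq_nonneg R, mul_nonneg (sq_nonneg r) (sq_nonneg R)]
  set R' : ℝ := R + 2 * r + 1 with hR'
  set η : ℝ := min (r ^ 2 / 4) (κ * g ^ 2 / 40) with hη
  have hη0 : 0 < η := by
    apply lt_min <;> positivity
  have hη1 : η ≤ r ^ 2 / 4 := min_le_left _ _
  have hη2 : η ≤ κ * g ^ 2 / 40 := min_le_right _ _
  set θ : ℝ := Real.sqrt (η / (1 + κ)) with hθ
  have hθ0 : 0 < θ := Real.sqrt_pos.mpr (by positivity)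
  have hθ2 : (1 + κ) * θ ^ 2 = η := by
    rw [hθ, Real.sq_sqrt (by positivity)]
    field_simp
  obtain ⟨N, hNsub, hNfin, hNcov⟩ :=
    (isCompact_closedBall (0 : E) R').finite_cover_balls hθ0
  haveI : Fintype N := hNfin.fintype
  haveI : Nonempty N := by
    have h0 : (0 : E) ∈ closedBall (0 : E) R' := by
      rw [mem_closedBall, dist_self]; positivity
    have := hNcov h0
    simp only [mem_iUnion] at this
    obtain ⟨z, hz, _⟩ := this
    exact ⟨⟨z, hz⟩⟩
  -- affine functions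
  set w : N → E := fun j => gr p κ (j : E) with hw
  set b : N → ℝ := fun j => r ^ 2 - fn p κ (j : E) + 2 * ⟪w j, (j : E)⟫ with hb
  have hlow : ∀ j : N, ∀ y : E, 2 * ⟪w j, y⟫ - b j + r ^ 2 ≤ fn p κ y := by
    intro j y
    have h1 := fn_lower hp κ (j : E) y
    have h2 : 0 ≤ κ * ‖y - (j : E)‖ ^ 2 := by positivity
    rw [inner_sub_right] at h1
    simp only [hb, hw]
    linarith
  have hupp : ∀ y ∈ closedBall (0 : E) R', ∃ j : N, fn p κ y - η ≤ 2 * ⟪w j, y⟫ - b j + r ^ 2 := by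
    intro y hy
    have := hNcov hy
    simp only [mem_iUnion] at this
    obtain ⟨z, hz, hyz⟩ := this
    refine ⟨⟨z, hz⟩, ?_⟩
    have h1 := fn_upper hp κ z y
    have h2 : ‖y - z‖ ≤ θ := by
      rw [mem_ball, dist_eq_norm] at hyz
      exact hyz.le
    have h3 : ‖y - z‖ ^ 2 ≤ θ ^ 2 := pow_le_pow_left₀ (norm_nonneg _) h2 2
    have h4 : (1 + κ) * ‖y - z‖ ^ 2 ≤ η := by
      rw [← hθ2]
      exact mul_le_mul_of_nonneg_left h3 (by positivity)
    rw [inner_sub_right] at h1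
    simp only [hb, hw]
    linarith
  -- generic offsets
  obtain ⟨t, ht, η', hη'0, hgen⟩ := exists_generic (J := N) (I := Finset ι)
    (fun σ => LinearMap.range (sysMap (fun s => w (σ s))))
    (fun σ _ => range_sysMap_ne_top hdim _) b hη0
  set ζ : ℝ := min η η' with hζ
  have hζ0 : 0 < ζ := lt_min hη0 hη'0
  have hζη : ζ ≤ η := min_le_left _ _
  have hζη' : ζ ≤ η' := min_le_right _ _
  -- the polytope
  set S : Set E := {y | y ∈ closedBall (0 : E) R' ∧ ∀ j : N, 2 * ⟪w j, y⟫ ≤ b j + t j} with hS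
  have hSsub : S ⊆ closedBall (0 : E) R' := fun y hy => hy.1
  have hSclosed : IsClosed S := by
    have : S = closedBall (0 : E) R' ∩ ⋂ j : N, {y | 2 * ⟪w j, y⟫ ≤ b j + t j} := by
      ext y; simp [hS]
    rw [this]
    refine isClosed_closedBall.inter (isClosed_iInter fun j => ?_)
    exact isClosed_le (by fun_prop) continuous_const
  have hSconv : Convex ℝ S := by
    intro x hx y hy a c ha hc hac
    refine ⟨(convex_closedBall (0 : E) R') hx.1 hy.1 ha hc hac, fun j => ?_⟩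
    have h1 := hx.2 j
    have h2 := hy.2 j
    rw [inner_add_right, inner_smul_right, inner_smul_right]
    have h3 : a * (2 * ⟪w j, x⟫) ≤ a * (b j + t j) := mul_le_mul_of_nonneg_left h1 ha
    have h4 : c * (2 * ⟪w j, y⟫) ≤ c * (b j + t j) := mul_le_mul_of_nonneg_left h2 hc
    have h5 : a * (b j + t j) + c * (b j + t j) = b j + t j := by rw [← add_mul, hac, one_mul]
    linarith
  have hKS : (K : Set E) ⊆ S := by
    intro x hx
    refine ⟨?_, fun j => ?_⟩
    · rw [mem_closedBall, dist_zero_right]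
      have := hR x hx
      linarith
    · have h1 := hlow j x
      have h2 : fn p κ x ≤ r ^ 2 / 4 := by
        have h3 : ‖x - p x‖ = 0 := by
          have := (hp x).2.1 x hx
          rw [sub_self, norm_zero] at this
          exact le_antisymm this (norm_nonneg _)
        unfold fn
        rw [h3]
        have h4 : ‖x‖ ^ 2 ≤ R ^ 2 := pow_le_pow_left₀ (norm_nonneg _) (hR x hx) 2
        nlinarith
      have h5 := (abs_le.mp (ht j)).1
      nlinarith
  have hfS : ∀ y ∈ closedBall (0 : E) R', (∀ j : N, 2 * ⟪w j, y⟫ ≤ b j + t j + η) →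
      fn p κ y ≤ r ^ 2 + 3 * η := by
    intro y hy hj
    obtain ⟨j, hj'⟩ := hupp y hy
    have h1 := hj j
    have h2 := (abs_le.mp (ht j)).2
    linarith
  have hdistS : ∀ y ∈ S, ‖y - p y‖ < 2 * r := by
    intro y hy
    have h1 := hfS y hy.1 (fun j => by have := hy.2 j; linarith)
    have h2 : ‖y - p y‖ ^ 2 ≤ r ^ 2 + 3 * η := by
      have : 0 ≤ κ * ‖y‖ ^ 2 := by positivity
      unfold fn at h1
      linarith
    have h3 : ‖y - p y‖ ^ 2 < (2 * r) ^ 2 := by nlinarith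
    exact lt_of_pow_lt_pow_left₀ 2 (by positivity) h3
  have hnormS : ∀ y ∈ S, ‖y‖ ≤ R + 2 * r := by
    intro y hy
    have h1 := hdistS y hy
    have h2 := hR _ (hp y).1
    calc ‖y‖ = ‖(y - p y) + p y‖ := by congr 1; abel
      _ ≤ ‖y - p y‖ + ‖p y‖ := norm_add_le _ _
      _ ≤ R + 2 * r := by linarith
  let K' : ConvexBody E := ⟨S, hSconv,
    (isCompact_closedBall (0 : E) R').of_isClosed_subset hSclosed hSsub,
    K.nonempty.mono hKS⟩
  have hK'coe : (K' : Set E) = S := rfl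
  refine ⟨K', ?_, ?_⟩
  · -- distance estimate
    have h1 : dist K K' ≤ 2 * r := by
      rw [← ConvexBody.hausdorffDist_coe]
      apply hausdorffDist_le_of_mem_dist (by positivity)
      · intro x hx
        exact ⟨x, hKS hx, by rw [dist_self]; positivity⟩
      · intro x hx
        refine ⟨p x, (hp x).1, ?_⟩
        rw [dist_eq_norm]
        exact (hdistS x hx).le
    have : 2 * r < ε := by rw [hr]; linarith
    linarith
  · -- robustness
    obtain ⟨A, hA0, hA⟩ : ∃ A : ℝ, 0 < A ∧ ∀ j : N, 2 * ‖w j‖ ≤ A := by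
      obtain ⟨j₀, hj₀⟩ := Finite.exists_max (fun j : N => 2 * ‖w j‖)
      exact ⟨2 * ‖w j₀‖ + 1, by positivity, fun j => (hj₀ j).trans (by linarith)⟩
    set ρ : ℝ := min (ζ / A) (1 / 2) with hρ
    have hρ0 : 0 < ρ := lt_min (by positivity) (by norm_num)
    have hρ1 : A * ρ ≤ ζ := by
      have : ρ ≤ ζ / A := min_le_left _ _
      calc A * ρ ≤ A * (ζ / A) := mul_le_mul_of_nonneg_left this hA0.le
        _ = ζ := by field_simp
    have hρ2 : ρ ≤ 1 / 2 := min_le_right _ _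
    refine ⟨ρ / 2, by positivity, ?_⟩
    rintro L hL ⟨x, v, hgap, hfr⟩
    have hlip : ∀ j : N, ∀ y z : E, 2 * ⟪w j, y⟫ ≤ 2 * ⟪w j, z⟫ + A * ‖y - z‖ := by
      intro j y z
      have h1 : ⟪w j, y - z⟫ ≤ ‖w j‖ * ‖y - z‖ := real_inner_le_norm _ _
      rw [inner_sub_right] at h1
      have h2 : 2 * ‖w j‖ * ‖y - z‖ ≤ A * ‖y - z‖ :=
        mul_le_mul_of_nonneg_right (hA j) (norm_nonneg _)
      linarith
    have hnear : ∀ y ∈ frontier (L : Set E), ∃ z ∈ S, ‖y - z‖ < ρ / 2 := by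
      intro y hy
      have hyL : y ∈ (L : Set E) := L.isClosed.frontier_subset hy
      have hL' : hausdorffDist (L : Set E) (K' : Set E) < ρ / 2 := by
        rw [ConvexBody.hausdorffDist_coe, dist_comm]; exact hL
      obtain ⟨z, hz, hyz⟩ := exists_dist_lt_of_hausdorffDist_lt hyL hL'
        ConvexBody.hausdorffEDist_ne_top
      exact ⟨z, hz, by rwa [← dist_eq_norm]⟩
    have hball : ∀ y ∈ frontier (L : Set E), y ∈ closedBall (0 : E) R' ∧
        (∀ j : N, 2 * ⟪w j, y⟫ ≤ b j + t j + ζ) := by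
      intro y hy
      obtain ⟨z, hz, hyz⟩ := hnear y hy
      refine ⟨?_, fun j => ?_⟩
      · rw [mem_closedBall, dist_zero_right]
        have h1 := hnormS z hz
        have h2 : ‖y‖ ≤ ‖y - z‖ + ‖z‖ := by
          calc ‖y‖ = ‖(y - z) + z‖ := by congr 1; abel
            _ ≤ _ := norm_add_le _ _
        rw [hR']
        linarith
      · have h1 := hlip j y z
        have h2 := hz.2 j
        have h3 : A * ‖y - z‖ ≤ A * ρ := mul_le_mul_of_nonneg_left (by linarith) hA0.le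
        linarith
    have hfacet : ∀ y ∈ frontier (L : Set E), ∃ j : N, b j + t j - ζ ≤ 2 * ⟪w j, y⟫ := by
      intro y hy
      by_contra hcon
      push Not at hcon
      obtain ⟨z₀, hz₀, hyz₀⟩ := hnear y hy
      have hint : y ∈ interior (L : Set E) := by
        refine mem_interior_of_approx L (ρ := ρ) (δ := ρ / 2) (by positivity) (by linarith) ?_
        intro q hq
        have hqS : q ∈ S := by
          refine ⟨?_, fun j => ?_⟩
          · rw [mem_closedBall, dist_zero_right]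
            have h1 := hnormS z₀ hz₀
            have h2 : ‖q‖ ≤ ‖q - y‖ + ‖y - z₀‖ + ‖z₀‖ := by
              calc ‖q‖ = ‖(q - y) + (y - z₀) + z₀‖ := by congr 1; abel
                _ ≤ _ := norm_add₃_le
            rw [hR']
            linarith
          · have h1 := hlip j q y
            have h2 := hcon j
            have h3 : A * ‖q - y‖ ≤ A * ρ := mul_le_mul_of_nonneg_left hq.le hA0.le
            linarith
        obtain ⟨z, hz, hqz⟩ := exists_dist_lt_of_hausdorffDist_lt (s := (K' : Set E))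
          (t := (L : Set E)) hqS hL ConvexBody.hausdorffEDist_ne_top
        exact ⟨z, hz, by rwa [← dist_eq_norm]⟩
      exact hy.2 hint
    choose σ hσ using fun s => hfacet _ (hfr s)
    have hinj : Function.Injective σ := by
      intro s s' hss
      by_contra hne
      have hg' := hgap s s' hne
      set y := x + ∑ i ∈ s, v i with hy
      set y' := x + ∑ i ∈ s', v i with hy'
      have h1 := hball _ (hfr s)
      have h2 := hball _ (hfr s')
      have h3 := hfS y h1.1 (fun j => (h1.2 j).trans (by linarith))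
      have h4 := hfS y' h2.1 (fun j => (h2.2 j).trans (by linarith))
      have h5 := hσ s
      have h6 := hσ s'
      rw [← hss] at h6
      have h7 := hlow (σ s) ((1 / 2 : ℝ) • (y + y'))
      rw [inner_smul_right, inner_add_right] at h7
      have h8 := (abs_le.mp (ht (σ s))).1
      have h9 := fn_midpoint hp κ y y'
      have h10 : g ^ 2 ≤ ‖y - y'‖ ^ 2 := pow_le_pow_left₀ hg.le hg' 2
      have h11 : κ * g ^ 2 ≤ κ * ‖y - y'‖ ^ 2 := mul_le_mul_of_nonneg_left h10 hκ0.le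
      have h12 : 0 < κ * g ^ 2 := by positivity
      linarith
    obtain ⟨s, hs⟩ := hgen σ hinj (sysMap (fun s => w (σ s)) (x, v)) ⟨(x, v), rfl⟩
    have h1 := (hball _ (hfr s)).2 (σ s)
    have h2 := hσ s
    have h3 : |2 * ⟪w (σ s), x + ∑ i ∈ s, v i⟫ - (b (σ s) + t (σ s))| ≤ ζ := by
      rw [abs_le]
      constructor <;> linarith
    have h4 : η' < |2 * ⟪w (σ s), x + ∑ i ∈ s, v i⟫ - (b (σ s) + t (σ s))| := hs
    linarith

end Pool.Agent.Helper892.Par
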