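import Mathlib
import Pool.Agent.Helper892.Par

set_option autoImplicit false

namespace Pool.Agent.Helper892.Dim5

open Metric Set TopologicalSpace

section complete

variable {E : Type*} [NormedAddCommGroup E] [NormedSpace ℝ E]

/-- Forget convexity. -/
def toNC (K : ConvexBody E) : NonemptyCompacts E :=
  ⟨⟨(K : Set E), K.isCompact⟩, K.nonempty⟩

lemma isometry_toNC : Isometry (toNC (E := E)) := by
  intro K L
  rw [← ConvexBody.hausdorffEDist_coe]
  rfl

lemma isClosed_range_toNC : IsClosed (range (toNC (E := E))) := by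
  have hr : range (toNC (E := E)) =
      {K : NonemptyCompacts E | Convex ℝ (K : Set E)} := by
    ext K
    constructor
    · rintro ⟨L, rfl⟩
      exact L.convex
    · intro hK
      exact ⟨⟨(K : Set E), hK, K.isCompact, K.nonempty⟩, rfl⟩
  rw [hr, ← isSeqClosed_iff_isClosed]
  intro u K hu hlim
  have hclosed : IsClosed (K : Set E) := K.isCompact.isClosed
  intro x hx y hy a b ha hb hab
  rw [← hclosed.closure_eq, Metric.mem_closure_iff]
  intro ε hε
  have h1 := (Metric.tendsto_atTop.mp hlim) (ε / 2) (by positivity)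
  obtain ⟨n, hn⟩ := h1
  have h2 := hn n le_rfl
  rw [dist_comm, NonemptyCompacts.dist_eq] at h2
  have hfin : hausdorffEDist (K : Set E) (u n : Set E) ≠ ⊤ :=
    hausdorffEDist_ne_top_of_nonempty_of_bounded K.nonempty (u n).nonempty
      K.isCompact.isBounded (u n).isCompact.isBounded
  obtain ⟨x', hx', hxx⟩ := exists_dist_lt_of_hausdorffDist_lt hx h2 hfin
  obtain ⟨y', hy', hyy⟩ := exists_dist_lt_of_hausdorffDist_lt hy h2 hfin
  have h3 : a • x' + b • y' ∈ (u n : Set E) := hu n hx' hy' ha hb hab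
  obtain ⟨z, hz, hzz⟩ := exists_dist_lt_of_hausdorffDist_lt' h3 h2 hfin
  refine ⟨z, hz, ?_⟩
  calc dist (a • x + b • y) z ≤ dist (a • x + b • y) (a • x' + b • y')
        + dist (a • x' + b • y') z := dist_triangle _ _ _
    _ < ε / 2 + ε / 2 := by
        refine add_lt_add_of_le_of_lt ?_ (by rw [dist_comm]; exact hzz)
        calc dist (a • x + b • y) (a • x' + b • y') ≤ dist (a • x) (a • x') + dist (b • y) (b • y') :=
              dist_add_add_le _ _ _ _
          _ ≤ a * (ε / 2) + b * (ε / 2) := by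
              rw [dist_smul₀, dist_smul₀, Real.norm_of_nonneg ha, Real.norm_of_nonneg hb]
              gcongr
          _ = ε / 2 := by rw [← add_mul, hab, one_mul]
    _ = ε := by ring

instance instComplete [CompleteSpace E] : CompleteSpace (ConvexBody E) := by
  rw [completeSpace_iff_isComplete_range isometry_toNC.isUniformInducing]
  exact isClosed_range_toNC.isComplete

end complete

/-- The bodies all of whose inscribed (possibly degenerate) parallelotopes have two vertices closer
than `g` contain a dense open set. -/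
theorem residual_gap {d : ℕ} (hd : 5 ≤ d) {g : ℝ} (hg : 0 < g) :
    {K : ConvexBody (EuclideanSpace ℝ (Fin d)) |
      ¬ ∃ (x : EuclideanSpace ℝ (Fin d)) (v : Fin d → EuclideanSpace ℝ (Fin d)),
        (∀ s t : Finset (Fin d), s ≠ t → g ≤ ‖(x + ∑ i ∈ s, v i) - (x + ∑ i ∈ t, v i)‖) ∧
        ∀ s : Finset (Fin d),
          x + ∑ i ∈ s, v i ∈ frontier (K : Set (EuclideanSpace ℝ (Fin d)))}
      ∈ residual (ConvexBody (EuclideanSpace ℝ (Fin d))) := by
  have hdim : Module.finrank ℝ (EuclideanSpace ℝ (Fin d)) * (Fintype.card (Fin d) + 1)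
      < 2 ^ Fintype.card (Fin d) := by
    rw [finrank_euclideanSpace, Fintype.card_fin]
    induction d, hd using Nat.le_induction with
    | base => norm_num
    | succ n hn ih =>
      rw [pow_succ]
      nlinarith
  set G := {K : ConvexBody (EuclideanSpace ℝ (Fin d)) |
      ¬ ∃ (x : EuclideanSpace ℝ (Fin d)) (v : Fin d → EuclideanSpace ℝ (Fin d)),
        (∀ s t : Finset (Fin d), s ≠ t → g ≤ ‖(x + ∑ i ∈ s, v i) - (x + ∑ i ∈ t, v i)‖) ∧
        ∀ s : Finset (Fin d),
          x + ∑ i ∈ s, v i ∈ frontier (K : Set (EuclideanSpace ℝ (Fin d)))} with hG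
  have hdense : Dense (interior G) := by
    rw [Metric.dense_iff]
    intro K ε hε
    obtain ⟨K', hK', δ, hδ, hrob⟩ := Pool.Agent.Helper892.Par.approx hdim K hε hg
    refine ⟨K', ?_, ?_⟩
    · rw [mem_ball, dist_comm]; exact hK'
    · rw [mem_interior]
      refine ⟨ball K' δ, ?_, isOpen_ball, mem_ball_self hδ⟩
      intro L hL
      rw [mem_ball, dist_comm] at hL
      exact hrob L hL
  exact Filter.mem_of_superset (residual_of_dense_open isOpen_interior hdense) interior_subset

/-- Linearly independent vectors span a parallelotope with a positive gap between vertices. -/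
lemma gap {E : Type*} [NormedAddCommGroup E] [NormedSpace ℝ E] {d : ℕ} (x : E) (v : Fin d → E)
    (hv : LinearIndependent ℝ v) : ∃ n : ℕ, ∀ s t : Finset (Fin d), s ≠ t →
      1 / ((n : ℝ) + 1) ≤ ‖(x + ∑ i ∈ s, v i) - (x + ∑ i ∈ t, v i)‖ := by
  have hdist : ∀ q : Finset (Fin d) × Finset (Fin d), ∃ n : ℕ, q.1 ≠ q.2 →
      1 / ((n : ℝ) + 1) ≤ ‖(x + ∑ i ∈ q.1, v i) - (x + ∑ i ∈ q.2, v i)‖ := by
    rintro ⟨s, t⟩
    by_cases hst : s = t
    · exact ⟨0, fun h => absurd hst h⟩
    · have hpos : 0 < ‖(x + ∑ i ∈ s, v i) - (x + ∑ i ∈ t, v i)‖ := by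
        rw [norm_pos_iff]
        intro h0
        apply hst
        have h1 : ∑ i, ((if i ∈ s then (1 : ℝ) else 0) - (if i ∈ t then (1 : ℝ) else 0)) • v i
            = 0 := by
          rw [add_sub_add_left_eq_sub] at h0
          rw [← h0]
          simp only [sub_smul, ite_smul, one_smul, zero_smul, Finset.sum_sub_distrib]
          simp [Finset.sum_ite_mem]
        have h2 := Fintype.linearIndependent_iff.mp hv _ h1
        ext i
        have h3 := h2 i
        by_cases his : i ∈ s <;> by_cases hit : i ∈ t <;> simp_all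
      obtain ⟨n, hn⟩ := exists_nat_one_div_lt hpos
      exact ⟨n, fun _ => hn.le⟩
  choose n hn using hdist
  obtain ⟨q₀, hq₀⟩ := Finite.exists_max n
  refine ⟨n q₀, ?_⟩
  intro s t hst
  refine le_trans ?_ (hn (s, t) hst)
  have := hq₀ (s, t)
  have h4 : (n (s, t) : ℝ) ≤ n q₀ := by exact_mod_cast this
  apply one_div_le_one_div_of_le (by positivity)
  linarith

/-- The generic body close to the unit ball is the body wanted. -/
theorem exists_body {d : ℕ} (hd : 5 ≤ d) :
    ∃ K : ConvexBody (EuclideanSpace ℝ (Fin d)),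
      (interior (K : Set (EuclideanSpace ℝ (Fin d)))).Nonempty ∧
      ¬ ∃ (x : EuclideanSpace ℝ (Fin d)) (v : Fin d → EuclideanSpace ℝ (Fin d)),
        LinearIndependent ℝ v ∧
        ∀ s : Finset (Fin d),
          x + ∑ i ∈ s, v i ∈ frontier (K : Set (EuclideanSpace ℝ (Fin d))) := by
  have hres := countable_iInter_mem.mpr
    (fun n : ℕ => residual_gap hd (g := 1 / ((n : ℝ) + 1)) (by positivity))
  have hdense := dense_of_mem_residual hres
  set B : ConvexBody (EuclideanSpace ℝ (Fin d)) :=
    ⟨closedBall 0 1, convex_closedBall _ _, isCompact_closedBall _ _,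
      nonempty_closedBall.mpr zero_le_one⟩ with hB
  obtain ⟨K, hK1, hK2⟩ := hdense.inter_open_nonempty (ball B (1 / 2)) isOpen_ball
    ⟨B, mem_ball_self (by norm_num)⟩
  refine ⟨K, ⟨0, ?_⟩, ?_⟩
  · apply Pool.Agent.Helper892.Par.mem_interior_of_approx K (ρ := 1) (δ := 1 / 2)
      (by norm_num) (by norm_num)
    intro w hw
    have hwB : w ∈ (B : Set (EuclideanSpace ℝ (Fin d))) := by
      rw [hB]
      show w ∈ closedBall 0 1
      rw [mem_closedBall, dist_eq_norm]
      exact hw.le
    rw [mem_ball, dist_comm, ← ConvexBody.hausdorffDist_coe] at hK1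
    obtain ⟨z, hz, hzd⟩ := exists_dist_lt_of_hausdorffDist_lt hwB hK1
      ConvexBody.hausdorffEDist_ne_top
    exact ⟨z, hz, by rwa [dist_eq_norm] at hzd⟩
  · rintro ⟨x, v, hv, hfr⟩
    obtain ⟨n, hn⟩ := gap x v hv
    rw [mem_iInter] at hK2
    exact hK2 n ⟨x, v, hn, hfr⟩

end Pool.Agent.Helper892.Dim5
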