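import Mathlib

set_option autoImplicit false

open MeasureTheory Set Metric
open scoped ENNReal

namespace Pool.Agent.Helper892.Hg

/-- last `m` coordinates -/
noncomputable def tl {m : ℕ} (x : EuclideanSpace ℝ (Fin (m + 1))) : EuclideanSpace ℝ (Fin m) :=
  WithLp.toLp 2 fun i => x i.succ

theorem tl_apply {m : ℕ} (x : EuclideanSpace ℝ (Fin (m + 1))) (i : Fin m) :
    tl x i = x i.succ := rfl

/-- splitting off the first coordinate -/
noncomputable def T (m : ℕ) (x : EuclideanSpace ℝ (Fin (m + 1))) :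
    ℝ × EuclideanSpace ℝ (Fin m) := (x 0, tl x)

theorem T_mp (m : ℕ) : MeasurePreserving (T m) volume (volume.prod volume) := by
  have h1 : MeasurePreserving (WithLp.ofLp : EuclideanSpace ℝ (Fin (m + 1)) → _) volume volume :=
    PiLp.volume_preserving_ofLp (Fin (m + 1))
  have h2 := volume_preserving_piFinSuccAbove (fun _ : Fin (m + 1) => ℝ) 0
  have h3 : MeasurePreserving (WithLp.toLp 2 : (Fin m → ℝ) → EuclideanSpace ℝ (Fin m))
      volume volume := PiLp.volume_preserving_toLp (Fin m)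
  have h4 : MeasurePreserving (Prod.map (id : ℝ → ℝ)
      (WithLp.toLp 2 : (Fin m → ℝ) → EuclideanSpace ℝ (Fin m)))
      (volume.prod volume) (volume.prod volume) := (MeasurePreserving.id volume).prod h3
  have h5 := h4.comp (h2.comp h1)
  have : T m = (Prod.map (id : ℝ → ℝ)
      (WithLp.toLp 2 : (Fin m → ℝ) → EuclideanSpace ℝ (Fin m))) ∘
      ((MeasurableEquiv.piFinSuccAbove (fun _ : Fin (m + 1) => ℝ) 0) ∘ WithLp.ofLp) := by
    funext x
    refine Prod.ext rfl ?_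
    ext i
    rfl
  rw [this]
  exact h5

/-- volume of the unit ball -/
noncomputable def kap (m : ℕ) : ℝ≥0∞ := volume (ball (0 : EuclideanSpace ℝ (Fin m)) 1)

theorem kap_pos (m : ℕ) : kap m ≠ 0 := (measure_ball_pos _ _ one_pos).ne'
theorem kap_fin (m : ℕ) : kap m ≠ ⊤ := measure_ball_lt_top.ne

/-- cylinders -/
def cyl {m : ℕ} (a b : ℝ) (c : EuclideanSpace ℝ (Fin m)) (r : ℝ) :
    Set (EuclideanSpace ℝ (Fin (m + 1))) :=
  {x | a ≤ x 0 ∧ x 0 ≤ b ∧ ‖tl x - c‖ ≤ r}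

theorem cyl_eq {m : ℕ} (a b : ℝ) (c : EuclideanSpace ℝ (Fin m)) (r : ℝ) :
    cyl a b c r = T m ⁻¹' (Icc a b ×ˢ closedBall c r) := by
  ext x
  simp only [cyl, mem_ofPred_eq, mem_preimage, T, mem_prod, mem_Icc, mem_closedBall, dist_eq_norm,
    and_assoc]

theorem vol_cyl {m : ℕ} (a b : ℝ) (c : EuclideanSpace ℝ (Fin m)) (r : ℝ) (hr : 0 ≤ r) :
    volume (cyl a b c r) = ENNReal.ofReal (b - a) * (ENNReal.ofReal (r ^ m) * kap m) := by
  rw [cyl_eq, (T_mp m).measure_preimage (measurableSet_Icc.prod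
    measurableSet_closedBall).nullMeasurableSet, Measure.prod_prod, Real.volume_Icc,
    Measure.addHaar_closedBall _ _ hr]
  simp [kap]

/-- The hourglass: a truncated solid one-sheeted hyperboloid. -/
def S (m : ℕ) : Set (EuclideanSpace ℝ (Fin (m + 1))) :=
  {x | |x 0| ≤ 1 ∧ ‖tl x‖ ^ 2 ≤ 20 + x 0 ^ 2}

theorem cont_tl (m : ℕ) : Continuous (tl : EuclideanSpace ℝ (Fin (m + 1)) → _) := by
  unfold tl
  fun_prop

theorem cont0 (m : ℕ) : Continuous (fun x : EuclideanSpace ℝ (Fin (m + 1)) => x 0) := by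
  fun_prop

theorem S_closed (m : ℕ) : IsClosed (S m) := by
  have h1 := cont_tl m
  have h0 := cont0 m
  apply IsClosed.inter
  · exact isClosed_le h0.abs continuous_const
  · exact isClosed_le (h1.norm.pow 2) (continuous_const.add (h0.pow 2))

theorem norm_sq_eq {m : ℕ} (x : EuclideanSpace ℝ (Fin (m + 1))) :
    ‖x‖ ^ 2 = x 0 ^ 2 + ‖tl x‖ ^ 2 := by
  rw [EuclideanSpace.norm_sq_eq, EuclideanSpace.norm_sq_eq, Fin.sum_univ_succ]
  simp [tl_apply]

theorem S_sub_ball (m : ℕ) : S m ⊆ closedBall 0 5 := by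
  intro x hx
  rw [mem_closedBall_zero_iff]
  have h1 : x 0 ^ 2 ≤ 1 := (sq_le_one_iff_abs_le_one _).mpr hx.1
  have h2 := hx.2
  have h3 := norm_sq_eq x
  nlinarith [norm_nonneg x]

theorem S_compact (m : ℕ) : IsCompact (S m) :=
  (isCompact_closedBall 0 5).of_isClosed_subset (S_closed m) (S_sub_ball m)

/-- lower bound for the volume of S -/
theorem S_vol_lb1 (m : ℕ) :
    ENNReal.ofReal 2 * (ENNReal.ofReal (Real.sqrt 20 ^ m) * kap m) ≤ volume (S m) := by
  have h : cyl (-1) 1 (0 : EuclideanSpace ℝ (Fin m)) (Real.sqrt 20) ⊆ S m := by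
    rintro x ⟨h1, h2, h3⟩
    refine ⟨abs_le.mpr ⟨h1, h2⟩, ?_⟩
    rw [sub_zero] at h3
    have : ‖tl x‖ ^ 2 ≤ 20 := by
      calc ‖tl x‖ ^ 2 ≤ Real.sqrt 20 ^ 2 := by gcongr
        _ = 20 := Real.sq_sqrt (by norm_num)
    nlinarith [sq_nonneg (x 0)]
  have := measure_mono (μ := volume) h
  rw [vol_cyl _ _ _ _ (Real.sqrt_nonneg _)] at this
  norm_num at this ⊢
  exact this

theorem S_vol_lb2 (m : ℕ) :
    ENNReal.ofReal (1 / 4) * (ENNReal.ofReal ((453 / 100 : ℝ) ^ m) * kap m) ≤ volume (S m) := by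
  have h : cyl (3 / 4) 1 (0 : EuclideanSpace ℝ (Fin m)) (453 / 100) ⊆ S m := by
    rintro x ⟨h1, h2, h3⟩
    refine ⟨abs_le.mpr ⟨by linarith, h2⟩, ?_⟩
    rw [sub_zero] at h3
    have : ‖tl x‖ ^ 2 ≤ (453 / 100) ^ 2 := by gcongr
    nlinarith [sq_nonneg (x 0)]
  have := measure_mono (μ := volume) h
  rw [vol_cyl _ _ _ _ (by norm_num)] at this
  norm_num at this ⊢
  exact this

theorem S_pos (m : ℕ) : 0 < volume (S m) := by
  refine lt_of_lt_of_le ?_ (S_vol_lb1 m)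
  have h1 : 0 < Real.sqrt 20 ^ m := by positivity
  have := kap_pos m
  simp only [ENNReal.mul_pos_iff, ENNReal.ofReal_pos]
  exact ⟨by norm_num, h1, pos_iff_ne_zero.mpr this⟩

theorem S_fin (m : ℕ) : volume (S m) ≠ ⊤ := (S_compact m).measure_lt_top.ne

end Pool.Agent.Helper892.Hg
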