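import Pool.Agent.Helper892.HgA

set_option autoImplicit false

open MeasureTheory Set Metric
open scoped ENNReal

namespace Pool.Agent.Helper892.Hg

/-- reflection in the hyperplane `x 0 = 0` -/
noncomputable def refl (m : ℕ) :
    EuclideanSpace ℝ (Fin (m + 1)) ≃ₗᵢ[ℝ] EuclideanSpace ℝ (Fin (m + 1)) :=
  LinearIsometryEquiv.piLpCongrRight 2
    (fun i : Fin (m + 1) => if i = 0 then LinearIsometryEquiv.neg ℝ else LinearIsometryEquiv.refl ℝ ℝ)

theorem refl_zero {m : ℕ} (x : EuclideanSpace ℝ (Fin (m + 1))) : (refl m x) 0 = - x 0 := by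
  simp [refl, LinearIsometryEquiv.piLpCongrRight_apply]

theorem refl_tl {m : ℕ} (x : EuclideanSpace ℝ (Fin (m + 1))) : tl (refl m x) = tl x := by
  ext i
  simp [refl, tl, LinearIsometryEquiv.piLpCongrRight_apply, Fin.succ_ne_zero]

/-- the unit vector in direction of the first axis -/
noncomputable def e1 (m : ℕ) : EuclideanSpace ℝ (Fin (m + 1)) := EuclideanSpace.single 0 1

theorem e1_zero (m : ℕ) : (e1 m) 0 = 1 := by simp [e1]
theorem tl_e1 (m : ℕ) : tl (e1 m) = 0 := by
  ext i
  simp [tl, e1, Fin.succ_ne_zero]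

theorem tl_add {m : ℕ} (x y : EuclideanSpace ℝ (Fin (m + 1))) : tl (x + y) = tl x + tl y := by
  ext i; simp [tl]
theorem tl_smul {m : ℕ} (a : ℝ) (x : EuclideanSpace ℝ (Fin (m + 1))) :
    tl (a • x) = a • tl x := by
  ext i; simp [tl]
theorem tl_neg {m : ℕ} (x : EuclideanSpace ℝ (Fin (m + 1))) : tl (-x) = -tl x := by
  ext i; simp [tl]

theorem ext_tl {m : ℕ} {x y : EuclideanSpace ℝ (Fin (m + 1))} (h0 : x 0 = y 0)
    (h1 : tl x = tl y) : x = y := by
  ext i
  refine Fin.cases h0 (fun j => ?_) i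
  have := congrArg (fun z : EuclideanSpace ℝ (Fin m) => z j) h1
  exact this

/-- the upper half of the part of `S` where the fibres are far from convex -/
def D (m : ℕ) : Set (EuclideanSpace ℝ (Fin (m + 1))) :=
  {x | x ∈ S m ∧ 0 < x 0 ∧ 81 / 4 < ‖tl x‖ ^ 2}

theorem D_meas (m : ℕ) : MeasurableSet (D m) := by
  have h1 := cont_tl m
  have h0 := cont0 m
  refine (S_closed m).measurableSet.inter (MeasurableSet.inter ?_ ?_)
  · exact (isOpen_lt continuous_const h0).measurableSet
  · exact (isOpen_lt continuous_const (h1.norm.pow 2)).measurableSet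

theorem D_half {m : ℕ} {x : EuclideanSpace ℝ (Fin (m + 1))} (hx : x ∈ D m) :
    1 / 2 < x 0 ∧ x 0 ≤ 1 := by
  obtain ⟨⟨h1, h2⟩, h3, h4⟩ := hx
  have h5 : x 0 ≤ 1 := (abs_le.mp h1).2
  refine ⟨?_, h5⟩
  nlinarith

/-- bound of the rest -/
theorem vol_G (m : ℕ) : volume {x | x ∈ S m ∧ ‖tl x‖ ^ 2 ≤ 81 / 4} ≤
    ENNReal.ofReal 2 * (ENNReal.ofReal ((9 / 2 : ℝ) ^ m) * kap m) := by
  have h : {x | x ∈ S m ∧ ‖tl x‖ ^ 2 ≤ 81 / 4} ⊆
      cyl (-1) 1 (0 : EuclideanSpace ℝ (Fin m)) (9 / 2) := by
    rintro x ⟨⟨h1, h2⟩, h3⟩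
    obtain ⟨h4, h5⟩ := abs_le.mp h1
    refine ⟨h4, h5, ?_⟩
    rw [sub_zero]
    nlinarith [norm_nonneg (tl x)]
  have := measure_mono (μ := volume) h
  rw [vol_cyl _ _ _ _ (by norm_num)] at this
  norm_num at this ⊢
  exact this

theorem vol_refl_D (m : ℕ) : volume (refl m ⁻¹' D m) = volume (D m) :=
  (refl m).measurePreserving.measure_preimage (D_meas m).nullMeasurableSet

theorem refl_mem_S {m : ℕ} {x : EuclideanSpace ℝ (Fin (m + 1))} : refl m x ∈ S m ↔ x ∈ S m := by
  simp only [S, mem_ofPred_eq, refl_zero, refl_tl, abs_neg, neg_sq]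

theorem refl_refl {m : ℕ} (x : EuclideanSpace ℝ (Fin (m + 1))) : refl m (refl m x) = x := by
  apply ext_tl
  · rw [refl_zero, refl_zero, neg_neg]
  · rw [refl_tl, refl_tl]

theorem S_le (m : ℕ) : volume (S m) ≤
    ENNReal.ofReal 2 * (ENNReal.ofReal ((9 / 2 : ℝ) ^ m) * kap m) + 2 * volume (D m) := by
  have h : S m ⊆ {x | x ∈ S m ∧ ‖tl x‖ ^ 2 ≤ 81 / 4} ∪ (D m ∪ refl m ⁻¹' D m) := by
    intro x hx
    by_cases h1 : ‖tl x‖ ^ 2 ≤ 81 / 4
    · exact Or.inl ⟨hx, h1⟩
    · push Not at h1
      right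
      rcases lt_trichotomy (x 0) 0 with h2 | h2 | h2
      · right
        refine ⟨refl_mem_S.mpr hx, ?_, ?_⟩
        · rw [refl_zero]; linarith
        · rw [refl_tl]; exact h1
      · exfalso
        have := hx.2
        rw [h2] at this
        nlinarith
      · exact Or.inl ⟨hx, h2, h1⟩
  calc volume (S m) ≤ _ := measure_mono h
    _ ≤ _ := measure_union_le _ _
    _ ≤ ENNReal.ofReal 2 * (ENNReal.ofReal ((9 / 2 : ℝ) ^ m) * kap m)
        + (volume (D m) + volume (refl m ⁻¹' D m)) :=
      add_le_add (vol_G m) (measure_union_le _ _)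
    _ = _ := by rw [vol_refl_D, two_mul (volume (D m))]

/-- any convex set misses at least the volume of `D` -/
theorem D_le_symm (m : ℕ) (C : Set (EuclideanSpace ℝ (Fin (m + 1)))) (hC : Convex ℝ C)
    (hm : MeasurableSet C) : volume (D m) ≤ volume (symmDiff (S m) C) := by
  classical
  set φ : EuclideanSpace ℝ (Fin (m + 1)) → EuclideanSpace ℝ (Fin (m + 1)) :=
    fun x => x + (- e1 m) with hφ
  have hφm : MeasurePreserving φ volume volume := measurePreserving_add_right _ _
  have hS : MeasurableSet (S m) := (S_closed m).measurableSet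
  -- pieces
  set A1 := D m \ C with hA1
  set A2 := D m ∩ refl m ⁻¹' Cᶜ with hA2
  set A3 := D m ∩ φ ⁻¹' C with hA3
  have hcov : D m ⊆ A1 ∪ A2 ∪ A3 := by
    intro x hx
    by_cases h1 : x ∈ C
    · by_cases h2 : refl m x ∈ C
      · right
        refine ⟨hx, ?_⟩
        have hh := D_half hx
        have h0 : 0 < x 0 := by linarith [hh.1]
        -- `x - e1` is on the segment from `refl x` to `x`
        have key : φ x = (1 / (2 * x 0)) • refl m x + (1 - 1 / (2 * x 0)) • x := by
          apply ext_tl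
          · simp only [hφ, PiLp.add_apply, PiLp.neg_apply, e1_zero, PiLp.smul_apply, smul_eq_mul,
              refl_zero]
            field_simp
            ring
          · simp only [hφ, tl_add, tl_neg, tl_e1, tl_smul, refl_tl]
            rw [← add_smul]
            simp
        show φ x ∈ C
        rw [key]
        have h3 : 1 / (2 * x 0) ≤ 1 := by
          rw [div_le_one (by positivity)]
          linarith [hh.1]
        exact hC h2 h1 (by positivity) (by linarith) (by ring)
      · left; right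
        exact ⟨hx, h2⟩
    · left; left
      exact ⟨hx, h1⟩
  -- first two pieces give disjoint subsets of `S \ C`
  have hvA2 : volume A2 = volume (refl m ⁻¹' A2) :=
    ((refl m).measurePreserving.measure_preimage
      ((D_meas m).inter ((refl m).continuous.measurable hm.compl)).nullMeasurableSet).symm
  have hd12 : Disjoint A1 (refl m ⁻¹' A2) := by
    rw [Set.disjoint_left]
    rintro x ⟨hx1, -⟩ ⟨hx2, -⟩
    have h1 := hx1.2.1
    have h2 := hx2.2.1
    rw [refl_zero] at h2
    linarith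
  have hsub12 : A1 ∪ refl m ⁻¹' A2 ⊆ S m \ C := by
    rintro x (⟨hx1, hx2⟩ | ⟨hx1, hx2⟩)
    · exact ⟨hx1.1, hx2⟩
    · refine ⟨refl_mem_S.mp hx1.1, ?_⟩
      have : refl m (refl m x) ∉ C := hx2
      rwa [refl_refl] at this
  have h12 : volume A1 + volume A2 ≤ volume (S m \ C) := by
    rw [hvA2, ← measure_union hd12 ((refl m).continuous.measurable
      ((D_meas m).inter ((refl m).continuous.measurable hm.compl)))]
    exact measure_mono hsub12
  -- third piece
  have h3 : volume A3 ≤ volume (C \ S m) := by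
    have hsub : A3 ⊆ φ ⁻¹' (C \ S m) := by
      rintro x ⟨hx1, hx2⟩
      refine ⟨hx2, ?_⟩
      intro hx3
      have hh := D_half hx1
      have h4 := hx3.2
      have h5 : (φ x) 0 = x 0 - 1 := by
        simp only [hφ, PiLp.add_apply, PiLp.neg_apply, e1_zero]; ring
      have h6 : tl (φ x) = tl x := by
        simp only [hφ, tl_add, tl_neg, tl_e1]; simp
      rw [h5, h6] at h4
      have h7 := hx1.2.2
      nlinarith [hh.1, hh.2]
    calc volume A3 ≤ volume (φ ⁻¹' (C \ S m)) := measure_mono hsub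
      _ = volume (C \ S m) := hφm.measure_preimage (hm.diff hS).nullMeasurableSet
  calc volume (D m) ≤ volume (A1 ∪ A2 ∪ A3) := measure_mono hcov
    _ ≤ volume (A1 ∪ A2) + volume A3 := measure_union_le _ _
    _ ≤ volume A1 + volume A2 + volume A3 := by gcongr; exact measure_union_le _ _
    _ ≤ volume (S m \ C) + volume (C \ S m) := add_le_add h12 h3
    _ = volume (symmDiff (S m) C) := by
      rw [← measure_union _ (hm.diff hS)]
      · rfl
      · rw [Set.disjoint_left]
        rintro x ⟨h1, h2⟩ ⟨h3, h4⟩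
        exact h2 h3

end Pool.Agent.Helper892.Hg
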