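import Pool.Agent.Helper892.HgB

set_option autoImplicit false

open MeasureTheory Set Metric
open scoped ENNReal RealInnerProductSpace

namespace Pool.Agent.Helper892.Hg

variable {m : ℕ}

/-- the indefinite form -/
noncomputable def Q (z : EuclideanSpace ℝ (Fin (m + 1))) : ℝ := ‖tl z‖ ^ 2 - z 0 ^ 2

theorem Q_comb (s t : ℝ) (x y : EuclideanSpace ℝ (Fin (m + 1))) :
    Q (s • x + t • y) = s ^ 2 * Q x + t ^ 2 * Q y + 2 * (s * t) * (⟪tl x, tl y⟫ - x 0 * y 0) := by
  simp only [Q, tl_add, tl_smul, PiLp.add_apply, PiLp.smul_apply, smul_eq_mul]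
  rw [norm_add_sq_real, norm_smul, norm_smul, inner_smul_left, inner_smul_right, mul_pow, mul_pow,
    Real.norm_eq_abs, Real.norm_eq_abs, sq_abs, sq_abs]
  simp only [conj_trivial]
  ring

def good (x y : EuclideanSpace ℝ (Fin (m + 1))) : Prop :=
  18 ≤ ‖tl x‖ ^ 2 ∧ 18 ≤ ‖tl y‖ ^ 2 ∧ |⟪tl x, tl y⟫| ≤ 21 / 2

theorem Q_nonneg {x y : EuclideanSpace ℝ (Fin (m + 1))} (hx : x ∈ S m) (hy : y ∈ S m)
    (h : good x y) (s t : ℝ) : 0 ≤ Q (s • x + t • y) := by
  rw [Q_comb]
  obtain ⟨h1, h2, h3⟩ := h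
  have hx0 : x 0 ^ 2 ≤ 1 := (sq_le_one_iff_abs_le_one _).mpr hx.1
  have hy0 : y 0 ^ 2 ≤ 1 := (sq_le_one_iff_abs_le_one _).mpr hy.1
  have hQx : 17 ≤ Q x := by unfold Q; linarith
  have hQy : 17 ≤ Q y := by unfold Q; linarith
  have hxy : |x 0 * y 0| ≤ 1 := by
    rw [abs_mul]
    exact mul_le_one₀ hx.1 (abs_nonneg _) hy.1
  have hb : |⟪tl x, tl y⟫ - x 0 * y 0| ≤ 23 / 2 := by
    calc _ ≤ |⟪tl x, tl y⟫| + |x 0 * y 0| := abs_sub _ _
      _ ≤ _ := by linarith
  set b := ⟪tl x, tl y⟫ - x 0 * y 0 with hbdef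
  have h4 : |2 * (s * t) * b| ≤ 17 * (s ^ 2 + t ^ 2) := by
    rw [abs_mul, abs_mul, abs_two, abs_mul]
    have h5 : 2 * (|s| * |t|) ≤ s ^ 2 + t ^ 2 := by
      have := sq_nonneg (|s| - |t|)
      nlinarith [sq_abs s, sq_abs t]
    have h6 : 0 ≤ 2 * (|s| * |t|) := by positivity
    have h7 : 0 ≤ |b| := abs_nonneg _
    nlinarith
  have h8 := (abs_le.mp h4).1
  nlinarith [sq_nonneg s, sq_nonneg t]

theorem sec_convex {x y : EuclideanSpace ℝ (Fin (m + 1))} (hx : x ∈ S m) (hy : y ∈ S m)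
    (h : good x y) :
    Convex ℝ (S m ∩ (Submodule.span ℝ {x, y} : Set (EuclideanSpace ℝ (Fin (m + 1))))) := by
  intro p hp q hq a b ha hb hab
  refine ⟨?_, (Submodule.span ℝ {x, y}).add_mem (Submodule.smul_mem _ _ hp.2)
    (Submodule.smul_mem _ _ hq.2)⟩
  have hpq : p - q ∈ Submodule.span ℝ {x, y} := Submodule.sub_mem _ hp.2 hq.2
  obtain ⟨s, t, hst⟩ := Submodule.mem_span_pair.mp hpq
  have hQ : 0 ≤ Q (p - q) := by rw [← hst]; exact Q_nonneg hx hy h s t
  have hp1 : |p 0| ≤ 1 := hp.1.1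
  have hq1 : |q 0| ≤ 1 := hq.1.1
  have hp2 : Q p ≤ 20 := by have := hp.1.2; unfold Q; linarith
  have hq2 : Q q ≤ 20 := by have := hq.1.2; unfold Q; linarith
  constructor
  · have : (a • p + b • q) 0 = a * p 0 + b * q 0 := by simp
    rw [this]
    calc |a * p 0 + b * q 0| ≤ |a * p 0| + |b * q 0| := abs_add_le _ _
      _ = a * |p 0| + b * |q 0| := by rw [abs_mul, abs_mul, abs_of_nonneg ha, abs_of_nonneg hb]
      _ ≤ a * 1 + b * 1 := by gcongr
      _ = 1 := by linarith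
  · have e1 : Q (a • p + b • q) = a * Q p + b * Q q - a * b * Q (p - q) := by
      have e2 : p - q = (1 : ℝ) • p + (-1 : ℝ) • q := by
        rw [one_smul, neg_smul, one_smul, sub_eq_add_neg]
      rw [e2, Q_comb, Q_comb]
      have : b = 1 - a := by linarith
      subst this
      ring
    have e3 : Q (a • p + b • q) ≤ 20 := by
      rw [e1]
      have : 0 ≤ a * b * Q (p - q) := by positivity
      nlinarith
    unfold Q at e3
    linarith

theorem sqrt_aux : 0 ≤ (19 / 20 : ℝ) * Real.sqrt 20 := by positivity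

theorem vol_cyl_le (c : EuclideanSpace ℝ (Fin m)) :
    volume (cyl (-1) 1 c ((19 / 20 : ℝ) * Real.sqrt 20)) ≤
      ENNReal.ofReal ((19 / 20 : ℝ) ^ m) * volume (S m) := by
  rw [vol_cyl _ _ _ _ sqrt_aux, mul_pow, ENNReal.ofReal_mul (by positivity)]
  calc _ = ENNReal.ofReal ((19 / 20 : ℝ) ^ m) *
        (ENNReal.ofReal 2 * (ENNReal.ofReal (Real.sqrt 20 ^ m) * kap m)) := by
        norm_num
        ring
    _ ≤ _ := by gcongr; exact S_vol_lb1 m

theorem sq_aux : ((19 / 20 : ℝ) * Real.sqrt 20) ^ 2 = 361 / 20 := by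
  rw [mul_pow, Real.sq_sqrt (by norm_num)]
  norm_num

/-- points of `S` near the axis -/
def N1 (m : ℕ) : Set (EuclideanSpace ℝ (Fin (m + 1))) := {x | x ∈ S m ∧ ‖tl x‖ ^ 2 < 18}

theorem vol_N1 (m : ℕ) : volume (N1 m) ≤ ENNReal.ofReal ((19 / 20 : ℝ) ^ m) * volume (S m) := by
  refine le_trans (measure_mono ?_) (vol_cyl_le (0 : EuclideanSpace ℝ (Fin m)))
  rintro x ⟨⟨h1, h2⟩, h3⟩
  obtain ⟨h4, h5⟩ := abs_le.mp h1
  refine ⟨h4, h5, ?_⟩
  rw [sub_zero]
  refine abs_le_of_sq_le_sq' ?_ sqrt_aux |>.2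
  rw [sq_aux]
  linarith

/-- pairs with large inner product -/
def Cap (m : ℕ) : Set (EuclideanSpace ℝ (Fin (m + 1)) × EuclideanSpace ℝ (Fin (m + 1))) :=
  {p | p.1 ∈ S m ∧ p.2 ∈ S m ∧ 21 / 2 < |⟪tl p.1, tl p.2⟫|}

theorem Cap_meas (m : ℕ) : MeasurableSet (Cap m) := by
  have h1 := cont_tl m
  refine ((S_closed m).measurableSet.preimage measurable_fst).inter
    (((S_closed m).measurableSet.preimage measurable_snd).inter ?_)
  have h2 : Continuous (fun p : EuclideanSpace ℝ (Fin (m + 1)) × EuclideanSpace ℝ (Fin (m + 1)) =>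
      |⟪tl p.1, tl p.2⟫|) := ((h1.comp continuous_fst).inner (h1.comp continuous_snd)).abs
  exact (isOpen_lt continuous_const h2).measurableSet

theorem slice (x : EuclideanSpace ℝ (Fin (m + 1))) (hx : x ∈ S m) :
    volume (Prod.mk x ⁻¹' Cap m) ≤ 2 * (ENNReal.ofReal ((19 / 20 : ℝ) ^ m) * volume (S m)) := by
  have hsub : Prod.mk x ⁻¹' Cap m ⊆
      cyl (-1) 1 ((1 / 2 : ℝ) • tl x) ((19 / 20 : ℝ) * Real.sqrt 20) ∪
      cyl (-1) 1 ((-1 / 2 : ℝ) • tl x) ((19 / 20 : ℝ) * Real.sqrt 20) := by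
    rintro y ⟨-, hy, hxy⟩
    change 21 / 2 < |⟪tl x, tl y⟫| at hxy
    change y ∈ S m at hy
    obtain ⟨h4, h5⟩ := abs_le.mp hy.1
    have hx0 : x 0 ^ 2 ≤ 1 := (sq_le_one_iff_abs_le_one _).mpr hx.1
    have hy0 : y 0 ^ 2 ≤ 1 := (sq_le_one_iff_abs_le_one _).mpr hy.1
    have hx2 := hx.2
    have hy2 := hy.2
    rcases lt_abs.mp hxy with h | h
    · left
      refine ⟨h4, h5, abs_le_of_sq_le_sq' ?_ sqrt_aux |>.2⟩
      rw [sq_aux, norm_sub_sq_real, inner_smul_right, norm_smul, mul_pow, real_inner_comm]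
      norm_num
      nlinarith
    · right
      refine ⟨h4, h5, abs_le_of_sq_le_sq' ?_ sqrt_aux |>.2⟩
      rw [sq_aux, norm_sub_sq_real, inner_smul_right, norm_smul, mul_pow, real_inner_comm]
      norm_num
      nlinarith
  calc _ ≤ _ := measure_mono hsub
    _ ≤ _ := measure_union_le _ _
    _ ≤ _ := add_le_add (vol_cyl_le _) (vol_cyl_le _)
    _ = _ := (two_mul _).symm

theorem vol_Cap (m : ℕ) : (volume.prod volume) (Cap m) ≤
    2 * ENNReal.ofReal ((19 / 20 : ℝ) ^ m) * volume (S m) ^ 2 := by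
  rw [Measure.prod_apply (Cap_meas m)]
  calc ∫⁻ x, volume (Prod.mk x ⁻¹' Cap m)
      ≤ ∫⁻ x, (S m).indicator (fun _ => 2 * (ENNReal.ofReal ((19 / 20 : ℝ) ^ m) * volume (S m))) x := by
        apply lintegral_mono
        intro x
        by_cases hx : x ∈ S m
        · simp only [Set.indicator_of_mem hx]
          exact slice x hx
        · simp only [Set.indicator_of_notMem hx]
          have : Prod.mk x ⁻¹' Cap m = ∅ := by
            ext y
            simp only [mem_preimage, mem_empty_iff_false, iff_false]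
            exact fun h => hx h.1
          rw [this, measure_empty]
    _ = _ := by
        rw [lintegral_indicator (S_closed m).measurableSet, lintegral_const]
        simp only [MeasurableSet.univ, Measure.restrict_apply, univ_inter]
        ring

/-- the exceptional pairs -/
def W (m : ℕ) : Set (EuclideanSpace ℝ (Fin (m + 1)) × EuclideanSpace ℝ (Fin (m + 1))) :=
  (N1 m ×ˢ S m) ∪ ((S m ×ˢ N1 m) ∪ Cap m)

theorem N1_meas (m : ℕ) : MeasurableSet (N1 m) := by
  have h1 := cont_tl m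
  refine (S_closed m).measurableSet.inter ?_
  exact (isOpen_lt (h1.norm.pow 2) continuous_const).measurableSet

theorem W_meas (m : ℕ) : MeasurableSet (W m) :=
  ((N1_meas m).prod (S_closed m).measurableSet).union
    (((S_closed m).measurableSet.prod (N1_meas m)).union (Cap_meas m))

theorem vol_W (m : ℕ) : (volume.prod volume) (W m) ≤
    ENNReal.ofReal (4 * (19 / 20 : ℝ) ^ m) * volume (S m) ^ 2 := by
  have h1 := vol_N1 m
  calc (volume.prod volume) (W m) ≤ (volume.prod volume) (N1 m ×ˢ S m) +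
        ((volume.prod volume) (S m ×ˢ N1 m) + (volume.prod volume) (Cap m)) :=
        (measure_union_le _ _).trans (add_le_add le_rfl (measure_union_le _ _))
    _ = volume (N1 m) * volume (S m) + (volume (S m) * volume (N1 m)
        + (volume.prod volume) (Cap m)) := by
        rw [Measure.prod_prod, Measure.prod_prod]
    _ ≤ (ENNReal.ofReal ((19 / 20 : ℝ) ^ m) * volume (S m)) * volume (S m) +
        (volume (S m) * (ENNReal.ofReal ((19 / 20 : ℝ) ^ m) * volume (S m))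
        + 2 * ENNReal.ofReal ((19 / 20 : ℝ) ^ m) * volume (S m) ^ 2) := by
        gcongr
        exact vol_Cap m
    _ = _ := by
        rw [ENNReal.ofReal_mul (by norm_num)]
        norm_num
        ring

theorem good_of_not_W {x y : EuclideanSpace ℝ (Fin (m + 1))} (hx : x ∈ S m) (hy : y ∈ S m)
    (h : (x, y) ∉ W m) : good x y := by
  simp only [W, mem_union, mem_prod, not_or, N1, Cap, mem_ofPred_eq] at h
  obtain ⟨h1, h2, h3⟩ := h
  refine ⟨?_, ?_, ?_⟩
  · by_contra h4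
    push Not at h4
    exact h1 ⟨⟨hx, h4⟩, hy⟩
  · by_contra h4
    push Not at h4
    exact h2 ⟨hx, hy, h4⟩
  · by_contra h4
    push Not at h4
    exact h3 ⟨hx, hy, h4⟩

end Pool.Agent.Helper892.Hg
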