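import Mathlib

set_option autoImplicit false

namespace Pool.Agent.Helper892.RectA

theorem mulb {x y a b : ℝ} (hx : |x| ≤ a) (hy : |y| ≤ b) : |x * y| ≤ a * b := by
  rw [abs_mul]
  exact mul_le_mul hx hy (abs_nonneg _) ((abs_nonneg _).trans hx)

theorem addb {x y a b : ℝ} (hx : |x| ≤ a) (hy : |y| ≤ b) : |x + y| ≤ a + b :=
  (abs_add_le x y).trans (add_le_add hx hy)

theorem subb {x y a b : ℝ} (hx : |x| ≤ a) (hy : |y| ≤ b) : |x - y| ≤ a + b :=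
  (abs_sub x y).trans (add_le_add hx hy)

/-- The real core: bounds on the centre and on the common value. -/
theorem real_core (ε n a h g l m i6 p6 d d' rp rm rp' rm' μ : ℝ)
    (hε : 0 < ε) (hε' : ε ≤ 1 / 10 ^ 6)
    (hn0 : 0 ≤ n) (hn : n ≤ 49 * ε ^ 2) (ha : |a| ≤ 7 * ε) (hh : |h| ≤ 1)
    (hg : |g| ≤ 7 * ε) (hl : |l| ≤ 49 * ε ^ 2) (hm : |m| ≤ 343 * ε ^ 3)
    (hi6 : |i6| ≤ 1) (hd : |d| ≤ 42 * ε) (hd' : |d'| ≤ 42 * ε)
    (hrp : |rp| ≤ 784 * ε ^ 2) (hrm : |rm| ≤ 784 * ε ^ 2)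
    (hrp' : |rp'| ≤ 784 * ε ^ 2) (hrm' : |rm'| ≤ 784 * ε ^ 2)
    (h1 : (1 + ε * (i6 + d + rp)) * (-(n + 2 * a) + ε * (h + 3 * g + 3 * l + m)) +
      ε ^ 2 * (25 / 26 * (p6 + d' + rp') + ε * (-103 / 100) * (i6 + d + rp)) = μ)
    (h2 : (1 + ε * (i6 - d + rm)) * (-(n - 2 * a) + ε * (-h + 3 * g - 3 * l + m)) +
      ε ^ 2 * (25 / 26 * (p6 - d' + rm') + ε * (-103 / 100) * (i6 - d + rm)) = μ) :
    |a - ε / 2 * h| ≤ 100 * ε ^ 3 ∧
    |μ - ((1 + ε * i6) * (-n + 3 * ε * g) +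
      ε ^ 2 * (25 / 26 * p6 + ε * (-103 / 100) * i6))| ≤ 1200 * ε ^ 4 := by
  have e1 : |ε| ≤ ε := (abs_of_pos hε).le
  have e2 : ε ^ 2 ≤ 1 / 10 ^ 6 * ε := by
    have := mul_le_mul_of_nonneg_right hε' hε.le; nlinarith only [this]
  have e3 : ε ^ 3 ≤ 1 / 10 ^ 6 * ε ^ 2 := by
    have := mul_le_mul_of_nonneg_right hε' (pow_pos hε 2).le; nlinarith only [this]
  have e4 : ε ^ 4 ≤ 1 / 10 ^ 6 * ε ^ 3 := by
    have := mul_le_mul_of_nonneg_right hε' (pow_pos hε 3).le; nlinarith only [this]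
  have e5 : ε ^ 5 ≤ 1 / 10 ^ 6 * ε ^ 4 := by
    have := mul_le_mul_of_nonneg_right hε' (pow_pos hε 4).le; nlinarith only [this]
  have e6 : ε ^ 6 ≤ 1 / 10 ^ 6 * ε ^ 5 := by
    have := mul_le_mul_of_nonneg_right hε' (pow_pos hε 5).le; nlinarith only [this]
  have p1 : 0 < ε := hε
  have p2 : 0 < ε ^ 2 := by positivity
  have p3 : 0 < ε ^ 3 := by positivity
  have p4 : 0 < ε ^ 4 := by positivity
  have p5 : 0 < ε ^ 5 := by positivity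
  have p6' : 0 < ε ^ 6 := by positivity
  have hnabs : |n| ≤ 49 * ε ^ 2 := by rw [abs_of_nonneg hn0]; exact hn
  have c2 : |(2:ℝ)| ≤ 2 := by norm_num
  have c3 : |(3:ℝ)| ≤ 3 := by norm_num
  have cm2 : |(-2:ℝ)| ≤ 2 := by norm_num
  have ck : |(25 / 26:ℝ)| ≤ 25 / 26 := by rw [abs_of_pos (by norm_num)]
  have ck' : |(-103 / 100:ℝ)| ≤ 103 / 100 := by rw [abs_of_neg (by norm_num)]; norm_num
  have ce2 : |ε ^ 2| ≤ ε ^ 2 := by rw [abs_of_pos p2]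
  obtain ⟨X, hX⟩ : ∃ X, X = -n + ε * (3 * g + m) := ⟨_, rfl⟩
  obtain ⟨Y, hY⟩ : ∃ Y, Y = -2 * a + ε * (h + 3 * l) := ⟨_, rfl⟩
  have hXb : |X| ≤ 71 * ε ^ 2 := by
    have t1 : |ε * (3 * g + m)| ≤ ε * (3 * (7 * ε) + 343 * ε ^ 3) :=
      mulb e1 (addb (mulb c3 hg) hm)
    have t2 : |X| ≤ 49 * ε ^ 2 + ε * (3 * (7 * ε) + 343 * ε ^ 3) := by
      rw [hX]
      exact addb (by rw [abs_neg]; exact hnabs) t1
    linarith only [t2, e3, e4, p2, p3, p4]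
  have hYb : |Y| ≤ 16 * ε := by
    have t1 : |ε * (h + 3 * l)| ≤ ε * (1 + 3 * (49 * ε ^ 2)) :=
      mulb e1 (addb hh (mulb c3 hl))
    have t2 : |Y| ≤ 2 * (7 * ε) + ε * (1 + 3 * (49 * ε ^ 2)) := by
      rw [hY]
      exact addb (mulb cm2 ha) t1
    linarith only [t2, e2, e3, p1, p2, p3]
  -- difference
  have key1 : (1 + ε * i6) * (2 * Y) + ε * (2 * (d * X) + (rp - rm) * X + (rp + rm) * Y)
      + ε ^ 2 * (25 / 26 * (2 * d' + (rp' - rm')) + ε * (-103 / 100) * (2 * d + (rp - rm))) = 0 := by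
    rw [hX, hY]
    linear_combination h1 - h2
  have key2 : 2 * μ = (1 + ε * i6) * (2 * X) + ε * (2 * (d * Y) + (rp + rm) * X + (rp - rm) * Y)
      + ε ^ 2 * (25 / 26 * (2 * p6 + (rp' + rm')) + ε * (-103 / 100) * (2 * i6 + (rp + rm))) := by
    rw [hX, hY]
    linear_combination -h1 - h2
  have hei := abs_le.mp (mulb e1 hi6)
  have hw' : (99 : ℝ) / 100 ≤ 1 + ε * i6 := by
    linarith only [hei.1, hε']
  have hw2 : |1 + ε * i6| ≤ 101 / 100 := by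
    rw [abs_le]
    constructor <;> linarith only [hei.1, hei.2, hε']
  have b1 : |ε * (2 * (d * X) + (rp - rm) * X + (rp + rm) * Y)| ≤
      ε * (2 * (42 * ε * (71 * ε ^ 2)) + (784 * ε ^ 2 + 784 * ε ^ 2) * (71 * ε ^ 2) +
        (784 * ε ^ 2 + 784 * ε ^ 2) * (16 * ε)) :=
    mulb e1 (addb (addb (mulb c2 (mulb hd hXb)) (mulb (subb hrp hrm) hXb))
      (mulb (addb hrp hrm) hYb))
  have b2 : |ε ^ 2 * (25 / 26 * (2 * d' + (rp' - rm')) + ε * (-103 / 100) * (2 * d + (rp - rm)))| ≤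
      ε ^ 2 * (25 / 26 * (2 * (42 * ε) + (784 * ε ^ 2 + 784 * ε ^ 2)) +
        ε * (103 / 100) * (2 * (42 * ε) + (784 * ε ^ 2 + 784 * ε ^ 2))) :=
    mulb ce2 (addb (mulb ck (addb (mulb c2 hd') (subb hrp' hrm')))
      (mulb (mulb e1 ck') (addb (mulb c2 hd) (subb hrp hrm))))
  have hYb2 : |Y| ≤ 44 * ε ^ 3 := by
    have t1 : |(1 + ε * i6) * (2 * Y)| ≤ 86 * ε ^ 3 := by
      have : (1 + ε * i6) * (2 * Y) =
        -(ε * (2 * (d * X) + (rp - rm) * X + (rp + rm) * Y)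
        + ε ^ 2 * (25 / 26 * (2 * d' + (rp' - rm')) + ε * (-103 / 100) * (2 * d + (rp - rm)))) := by
        linarith only [key1]
      rw [this, abs_neg]
      refine (addb b1 b2).trans ?_
      linarith only [e2, e3, e4, e5, e6, p1, p2, p3, p4, p5, p6']
    have t2 : |(1 + ε * i6) * (2 * Y)| = (1 + ε * i6) * (2 * |Y|) := by
      rw [abs_mul, abs_mul, abs_of_pos (by linarith only [hw'] : 0 < 1 + ε * i6)]
      norm_num
    rw [t2] at t1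
    have := abs_nonneg Y
    have t3 : 99 / 100 * (2 * |Y|) ≤ (1 + ε * i6) * (2 * |Y|) :=
      mul_le_mul_of_nonneg_right hw' (by linarith only [this])
    linarith only [t1, t3, p3]
  refine ⟨?_, ?_⟩
  · have t3 : |ε * (3 * l)| ≤ ε * (3 * (49 * ε ^ 2)) := mulb e1 (mulb c3 hl)
    have t4 : a - ε / 2 * h = (ε * (3 * l) - Y) / 2 := by rw [hY]; ring
    rw [t4, abs_div]
    have t5 := subb t3 hYb2
    have : |(2:ℝ)| = 2 := by norm_num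
    rw [this, div_le_iff₀ (by norm_num)]
    refine t5.trans ?_
    linarith only [p3]
  · have b3 : |ε * (2 * (d * Y) + (rp + rm) * X + (rp - rm) * Y)| ≤
      ε * (2 * (42 * ε * (44 * ε ^ 3)) + (784 * ε ^ 2 + 784 * ε ^ 2) * (71 * ε ^ 2) +
        (784 * ε ^ 2 + 784 * ε ^ 2) * (44 * ε ^ 3)) :=
      mulb e1 (addb (addb (mulb c2 (mulb hd hYb2)) (mulb (addb hrp hrm) hXb))
        (mulb (subb hrp hrm) hYb2))
    have b4 : |ε ^ 2 * (25 / 26 * (rp' + rm') + ε * (-103 / 100) * (rp + rm))| ≤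
      ε ^ 2 * (25 / 26 * (784 * ε ^ 2 + 784 * ε ^ 2) +
        ε * (103 / 100) * (784 * ε ^ 2 + 784 * ε ^ 2)) :=
      mulb ce2 (addb (mulb ck (addb hrp' hrm')) (mulb (mulb e1 ck') (addb hrp hrm)))
    have b5 : |(1 + ε * i6) * (2 * (ε * m))| ≤ 101 / 100 * (2 * (ε * (343 * ε ^ 3))) :=
      mulb hw2 (mulb c2 (mulb e1 hm))
    have t6 : 2 * (μ - ((1 + ε * i6) * (-n + 3 * ε * g) +
      ε ^ 2 * (25 / 26 * p6 + ε * (-103 / 100) * i6))) =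
      (1 + ε * i6) * (2 * (ε * m)) + ε * (2 * (d * Y) + (rp + rm) * X + (rp - rm) * Y) +
      ε ^ 2 * (25 / 26 * (rp' + rm') + ε * (-103 / 100) * (rp + rm)) := by
      have : (1 + ε * i6) * (2 * X) = (1 + ε * i6) * (2 * (-n + ε * (3 * g + m))) := by rw [hX]
      linear_combination key2 + this
    have t7 : |2 * (μ - ((1 + ε * i6) * (-n + 3 * ε * g) +
      ε ^ 2 * (25 / 26 * p6 + ε * (-103 / 100) * i6)))| ≤ 2400 * ε ^ 4 := by
      rw [t6]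
      refine (addb (addb b5 b3) b4).trans ?_
      linarith only [e4, e5, e6, p4, p5, p6']
    rw [abs_mul, abs_of_pos (by norm_num : (0:ℝ) < 2)] at t7
    linarith only [t7]

end Pool.Agent.Helper892.RectA
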