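import Mathlib
import Pool.Agent.Helper892.RectA

set_option autoImplicit false

namespace Pool.Agent.Helper892.RectB

open Complex Pool.Agent.Helper892.RectA

/-- The function near the unit circle (up to an additive constant). -/
noncomputable def F (ε : ℝ) (z : ℂ) : ℝ :=
  (1 + ε * (z ^ 6).im) * (-(normSq z - 1) + ε * (z ^ 3).re) +
    ε ^ 2 * (25 / 26 * (z ^ 6).re + ε * (-103 / 100) * (z ^ 6).im)

theorem absre {z : ℂ} {b : ℝ} (h : ‖z‖ ≤ b) : |z.re| ≤ b := (abs_re_le_norm z).trans h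

theorem absim {z : ℂ} {b : ℝ} (h : ‖z‖ ≤ b) : |z.im| ≤ b := (abs_im_le_norm z).trans h

theorem rem_bound (ε : ℝ) (hε : 0 < ε) (hε' : ε ≤ 1 / 10 ^ 6) (e c : ℂ) (he : ‖e‖ = 1)
    (hc : ‖c‖ ≤ 7 * ε) :
    ‖c ^ 2 * (15 * e ^ 4 + 20 * e ^ 3 * c + 15 * e ^ 2 * c ^ 2 + 6 * e * c ^ 3 + c ^ 4)‖
      ≤ 784 * ε ^ 2 := by
  have hc1 : ‖c‖ ≤ 7 / 10 ^ 6 := by linarith
  have h0 : 0 ≤ ‖c‖ := norm_nonneg c
  have h1 : ‖c‖ ^ 2 ≤ 49 * ε ^ 2 := by nlinarith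
  have k1 : ‖c‖ ≤ 1 / 100 := by linarith
  have k2 : ‖c‖ ^ 2 ≤ 1 / 100 := by nlinarith
  have k3 : ‖c‖ ^ 3 ≤ 1 / 100 := by nlinarith
  have k4 : ‖c‖ ^ 4 ≤ 1 / 100 := by nlinarith
  have h2 : ‖15 * e ^ 4 + 20 * e ^ 3 * c + 15 * e ^ 2 * c ^ 2 + 6 * e * c ^ 3 + c ^ 4‖ ≤
      15 + 20 * ‖c‖ + 15 * ‖c‖ ^ 2 + 6 * ‖c‖ ^ 3 + ‖c‖ ^ 4 := by
    refine (norm_add_le _ _).trans (add_le_add ((norm_add_le _ _).trans (add_le_add
      ((norm_add_le _ _).trans (add_le_add ((norm_add_le _ _).trans (add_le_add ?_ ?_)) ?_)) ?_)) ?_)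
    · simp [he]
    · simp [he]
    · simp [he]
    · simp [he]
    · simp
  rw [norm_mul, norm_pow]
  have h3 : ‖15 * e ^ 4 + 20 * e ^ 3 * c + 15 * e ^ 2 * c ^ 2 + 6 * e * c ^ 3 + c ^ 4‖ ≤ 16 := by
    linarith
  calc ‖c‖ ^ 2 * ‖15 * e ^ 4 + 20 * e ^ 3 * c + 15 * e ^ 2 * c ^ 2 + 6 * e * c ^ 3 + c ^ 4‖
      ≤ (49 * ε ^ 2) * 16 := by gcongr
    _ = 784 * ε ^ 2 := by ring

theorem core_one (ε : ℝ) (hε : 0 < ε) (hε' : ε ≤ 1 / 10 ^ 6) (e c : ℂ) (he : ‖e‖ = 1)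
    (hc : ‖c‖ ≤ 7 * ε) (μ : ℝ) (hp : F ε (c + e) = μ) (hm : F ε (c - e) = μ) :
    |(c * (starRingEnd ℂ) e).re - ε / 2 * (e ^ 3).re| ≤ 100 * ε ^ 3 ∧
    |μ - ((1 + ε * (e ^ 6).im) * (-normSq c + 3 * ε * (c * e ^ 2).re) +
      ε ^ 2 * (25 / 26 * (e ^ 6).re + ε * (-103 / 100) * (e ^ 6).im))| ≤ 1200 * ε ^ 4 := by
  have hn1 : normSq e = 1 := by rw [normSq_eq_norm_sq, he]; norm_num
  have hc0 : 0 ≤ ‖c‖ := norm_nonneg c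
  have hnc : normSq c ≤ 49 * ε ^ 2 := by rw [normSq_eq_norm_sq]; nlinarith
  have hcn : ‖-c‖ ≤ 7 * ε := by rwa [norm_neg]
  have hRp := rem_bound ε hε hε' e c he hc
  have hRm := rem_bound ε hε hε' e (-c) he hcn
  obtain ⟨Rp, hRp'⟩ : ∃ R, R = c ^ 2 * (15 * e ^ 4 + 20 * e ^ 3 * c + 15 * e ^ 2 * c ^ 2
    + 6 * e * c ^ 3 + c ^ 4) := ⟨_, rfl⟩
  obtain ⟨Rm, hRm'⟩ : ∃ R, R = (-c) ^ 2 * (15 * e ^ 4 + 20 * e ^ 3 * (-c) + 15 * e ^ 2 * (-c) ^ 2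
    + 6 * e * (-c) ^ 3 + (-c) ^ 4) := ⟨_, rfl⟩
  rw [← hRp'] at hRp
  rw [← hRm'] at hRm
  have x6p : (c + e) ^ 6 = e ^ 6 + 6 * e ^ 5 * c + Rp := by rw [hRp']; ring
  have x6m : (c - e) ^ 6 = e ^ 6 - 6 * e ^ 5 * c + Rm := by rw [hRm']; ring
  have x3p : (c + e) ^ 3 = e ^ 3 + 3 * (c * e ^ 2) + 3 * (c ^ 2 * e) + c ^ 3 := by ring
  have x3m : (c - e) ^ 3 = -e ^ 3 + 3 * (c * e ^ 2) - 3 * (c ^ 2 * e) + c ^ 3 := by ring
  have sp : normSq (c + e) - 1 = normSq c + 2 * (c * (starRingEnd ℂ) e).re := by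
    rw [normSq_add, hn1]; ring
  have sm : normSq (c - e) - 1 = normSq c - 2 * (c * (starRingEnd ℂ) e).re := by
    rw [normSq_sub, hn1]; ring
  have re3 : ∀ z : ℂ, (3 * z).re = 3 * z.re := fun z => by simp
  have h1 : (1 + ε * ((e ^ 6).im + (6 * e ^ 5 * c).im + Rp.im)) *
      (-(normSq c + 2 * (c * (starRingEnd ℂ) e).re) + ε * ((e ^ 3).re + 3 * (c * e ^ 2).re +
        3 * (c ^ 2 * e).re + (c ^ 3).re)) +
      ε ^ 2 * (25 / 26 * ((e ^ 6).re + (6 * e ^ 5 * c).re + Rp.re) +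
        ε * (-103 / 100) * ((e ^ 6).im + (6 * e ^ 5 * c).im + Rp.im)) = μ := by
    rw [← hp, F, x6p, x3p, sp]
    simp only [add_re, add_im, re3]
  have h2 : (1 + ε * ((e ^ 6).im - (6 * e ^ 5 * c).im + Rm.im)) *
      (-(normSq c - 2 * (c * (starRingEnd ℂ) e).re) + ε * (-(e ^ 3).re + 3 * (c * e ^ 2).re -
        3 * (c ^ 2 * e).re + (c ^ 3).re)) +
      ε ^ 2 * (25 / 26 * ((e ^ 6).re - (6 * e ^ 5 * c).re + Rm.re) +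
        ε * (-103 / 100) * ((e ^ 6).im - (6 * e ^ 5 * c).im + Rm.im)) = μ := by
    rw [← hm, F, x6m, x3m, sm]
    simp only [add_re, add_im, sub_re, sub_im, neg_re, re3]
  have hc2 : ‖c‖ ^ 2 ≤ 49 * ε ^ 2 := by nlinarith
  have hc3 : ‖c‖ ^ 3 ≤ 343 * ε ^ 3 := by
    calc ‖c‖ ^ 3 ≤ (7 * ε) ^ 3 := by gcongr
      _ = 343 * ε ^ 3 := by ring
  refine real_core ε (normSq c) (c * (starRingEnd ℂ) e).re (e ^ 3).re (c * e ^ 2).re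
    (c ^ 2 * e).re (c ^ 3).re (e ^ 6).im (e ^ 6).re (6 * e ^ 5 * c).im (6 * e ^ 5 * c).re
    Rp.im Rm.im Rp.re Rm.re μ hε hε' (normSq_nonneg c) hnc ?_ ?_ ?_ ?_ ?_ ?_ ?_ ?_
    (absim hRp) (absim hRm) (absre hRp) (absre hRm) h1 h2
  · exact absre (by rw [norm_mul, RCLike.norm_conj, he, mul_one]; exact hc)
  · exact absre (by rw [norm_pow, he]; norm_num)
  · exact absre (by rw [norm_mul, norm_pow, he]; simpa using hc)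
  · exact absre (by rw [norm_mul, norm_pow, he, mul_one]; exact hc2)
  · exact absre (by rw [norm_pow]; exact hc3)
  · exact absim (by rw [norm_pow, he]; norm_num)
  · refine absim ?_
    rw [norm_mul, norm_mul, norm_pow, he]
    simp only [one_pow, mul_one, Complex.norm_ofNat]
    linarith
  · refine absre ?_
    rw [norm_mul, norm_mul, norm_pow, he]
    simp only [one_pow, mul_one, Complex.norm_ofNat]
    linarith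

end Pool.Agent.Helper892.RectB
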