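import Mathlib
import Pool.Agent.Helper892.RectB

set_option autoImplicit false

namespace Pool.Agent.Helper892.RectC

open Complex Pool.Agent.Helper892.RectA Pool.Agent.Helper892.RectB

/-- The unit complex number giving the angle between the diagonals. -/
noncomputable def u : ℂ := ⟨4 / 5, 3 / 5⟩

noncomputable def γ (ζ : ℂ) : ℂ :=
  ((1 + (starRingEnd ℂ) u ^ 2) * (starRingEnd ℂ) ζ ^ 2 - u ^ 2 * ζ ^ 4) / 2

theorem u_norm : ‖u‖ = 1 := by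
  have : normSq u = 1 := by simp [u, normSq_apply]; norm_num
  rw [normSq_eq_norm_sq] at this
  have h0 := norm_nonneg u
  nlinarith

theorem u_conj : u * (starRingEnd ℂ) u = 1 := by
  rw [mul_conj, normSq_eq_norm_sq, u_norm]; norm_num

theorem z_conj {ζ : ℂ} (h : ‖ζ‖ = 1) : ζ * (starRingEnd ℂ) ζ = 1 := by
  rw [mul_conj, normSq_eq_norm_sq, h]; norm_num

theorem gam1 {ζ : ℂ} (h : ‖ζ‖ = 1) : (γ ζ * (starRingEnd ℂ) ζ).re = (ζ ^ 3).re / 2 := by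
  have hz := z_conj h
  have h1 : γ ζ * (starRingEnd ℂ) ζ =
      ((1 + (starRingEnd ℂ) u ^ 2) * (starRingEnd ℂ) (ζ ^ 3) - u ^ 2 * ζ ^ 3) / 2 := by
    rw [γ, map_pow]
    linear_combination (-u ^ 2 * ζ ^ 3 / 2) * hz
  rw [h1]
  obtain ⟨p, q⟩ := ζ ^ 3
  simp [u, pow_two]
  ring

theorem gam2 {ζ : ℂ} (h : ‖ζ‖ = 1) :
    (γ ζ * (starRingEnd ℂ) (u * ζ)).re = ((u * ζ) ^ 3).re / 2 := by
  have hz := z_conj h
  have hu := u_conj
  have h1 : γ ζ * (starRingEnd ℂ) (u * ζ) =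
      ((1 + (starRingEnd ℂ) u ^ 2) * (starRingEnd ℂ) u * (starRingEnd ℂ) (ζ ^ 3) - u * ζ ^ 3) / 2 := by
    rw [γ, map_pow, map_mul]
    linear_combination (-u ^ 2 * (starRingEnd ℂ) u * ζ ^ 3 / 2) * hz - (u * ζ ^ 3 / 2) * hu
  rw [h1, mul_pow]
  obtain ⟨p, q⟩ := ζ ^ 3
  simp [u, pow_succ]
  ring

theorem gam3 {ζ : ℂ} (h : ‖ζ‖ = 1) :
    normSq (γ ζ) = 89 / 100 - 4 / 5 * (u ^ 3 * ζ ^ 6).re := by
  have hz := z_conj h
  have hu := u_conj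
  have h1 : (normSq (γ ζ) : ℂ) = ((1 + (starRingEnd ℂ) u ^ 2) * (1 + u ^ 2) + 1
      - (1 + (starRingEnd ℂ) u ^ 2) * (starRingEnd ℂ) u ^ 2 * (starRingEnd ℂ) (ζ ^ 6)
      - (1 + u ^ 2) * u ^ 2 * ζ ^ 6) / 4 := by
    rw [← mul_conj, γ]
    simp only [map_sub, map_div₀, map_mul, map_add, map_one, map_pow, conj_conj, map_ofNat]
    have e2 : ζ ^ 2 * (starRingEnd ℂ) ζ ^ 2 = 1 := by rw [← mul_pow, hz, one_pow]
    have e4 : ζ ^ 4 * (starRingEnd ℂ) ζ ^ 4 = 1 := by rw [← mul_pow, hz, one_pow]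
    have e5 : u ^ 2 * (starRingEnd ℂ) u ^ 2 = 1 := by rw [← mul_pow, hu, one_pow]
    linear_combination ((1 + (starRingEnd ℂ) u ^ 2) * (1 + u ^ 2) / 4) * e2 +
      (u ^ 2 * (starRingEnd ℂ) u ^ 2 / 4) * e4 + (1 / 4) * e5
  have h2 : normSq (γ ζ) = (((1 + (starRingEnd ℂ) u ^ 2) * (1 + u ^ 2) + 1
      - (1 + (starRingEnd ℂ) u ^ 2) * (starRingEnd ℂ) u ^ 2 * (starRingEnd ℂ) (ζ ^ 6)
      - (1 + u ^ 2) * u ^ 2 * ζ ^ 6) / 4).re := by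
    rw [← h1, ofReal_re]
  rw [h2]
  obtain ⟨p, q⟩ := ζ ^ 6
  simp [u, pow_succ]
  ring

theorem gam4 {ζ : ℂ} (h : ‖ζ‖ = 1) :
    (γ ζ * ζ ^ 2).re = 16 / 25 - (u ^ 2 * ζ ^ 6).re / 2 := by
  have hz := z_conj h
  have h1 : γ ζ * ζ ^ 2 = ((1 + (starRingEnd ℂ) u ^ 2) - u ^ 2 * ζ ^ 6) / 2 := by
    have e2 : ζ ^ 2 * (starRingEnd ℂ) ζ ^ 2 = 1 := by rw [← mul_pow, hz, one_pow]
    rw [γ]
    linear_combination ((1 + (starRingEnd ℂ) u ^ 2) / 2) * e2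
  rw [h1]
  obtain ⟨p, q⟩ := ζ ^ 6
  simp [u, pow_succ]
  ring

theorem gam5 {ζ : ℂ} (h : ‖ζ‖ = 1) :
    (γ ζ * (u * ζ) ^ 2).re = 16 / 25 - (u ^ 4 * ζ ^ 6).re / 2 := by
  have hz := z_conj h
  have hu := u_conj
  have h1 : γ ζ * (u * ζ) ^ 2 = ((u ^ 2 + 1) - u ^ 4 * ζ ^ 6) / 2 := by
    have e2 : ζ ^ 2 * (starRingEnd ℂ) ζ ^ 2 = 1 := by rw [← mul_pow, hz, one_pow]
    have e5 : u ^ 2 * (starRingEnd ℂ) u ^ 2 = 1 := by rw [← mul_pow, hu, one_pow]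
    rw [γ]
    linear_combination ((1 + (starRingEnd ℂ) u ^ 2) * u ^ 2 / 2) * e2 + (1 / 2) * e5
  rw [h1]
  obtain ⟨p, q⟩ := ζ ^ 6
  simp [u, pow_succ]
  ring

/-- The leading coefficients differ. -/
theorem bdiff (ε : ℝ) (hε : 0 < ε) {ζ : ℂ} (h : ‖ζ‖ = 1) :
    ((1 + ε * ((u * ζ) ^ 6).im) * (-normSq (γ ζ) + 3 * (γ ζ * (u * ζ) ^ 2).re) +
      (25 / 26 * ((u * ζ) ^ 6).re + ε * (-103 / 100) * ((u * ζ) ^ 6).im)) -
    ((1 + ε * (ζ ^ 6).im) * (-normSq (γ ζ) + 3 * (γ ζ * ζ ^ 2).re) +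
      (25 / 26 * (ζ ^ 6).re + ε * (-103 / 100) * (ζ ^ 6).im)) ≤ -(396 / 625) * ε := by
  rw [gam3 h, gam4 h, gam5 h, mul_pow]
  have hz6 : normSq (ζ ^ 6) = 1 := by rw [normSq_eq_norm_sq, norm_pow, h]; norm_num
  generalize ζ ^ 6 = Z at hz6 ⊢
  obtain ⟨p, q⟩ := Z
  rw [normSq_apply] at hz6
  simp [u, pow_succ]
  have hP : ∀ P Q : ℝ, P = (-44 / 125) * p - 117 / 125 * q → Q = 117 / 125 * p + (-44 / 125) * q →
      P ^ 2 + Q ^ 2 = 1 := by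
    intro P Q hP hQ
    rw [hP, hQ]
    linear_combination hz6
  have h3 := hP _ _ rfl rfl
  nlinarith [sq_nonneg ((-44 / 125) * p - 117 / 125 * q)]

/-- Near the unit circle there is no level rectangle. -/
theorem core_two (ε : ℝ) (hε : 0 < ε) (hε' : ε ≤ 1 / 10 ^ 6) (ζ c : ℂ) (hζ : ‖ζ‖ = 1)
    (hc : ‖c‖ ≤ 7 * ε) (μ : ℝ) (h1 : F ε (c + ζ) = μ) (h2 : F ε (c - ζ) = μ)
    (h3 : F ε (c + u * ζ) = μ) (h4 : F ε (c - u * ζ) = μ) : False := by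
  have hz := z_conj hζ
  have huz : ‖u * ζ‖ = 1 := by rw [norm_mul, u_norm, hζ, one_mul]
  obtain ⟨a1, b1⟩ := core_one ε hε hε' ζ c hζ hc μ h1 h2
  obtain ⟨a2, b2⟩ := core_one ε hε hε' (u * ζ) c huz hc μ h3 h4
  have p3 : 0 < ε ^ 3 := by positivity
  have p4 : 0 < ε ^ 4 := by positivity
  obtain ⟨Δ, hΔ⟩ : ∃ Δ, Δ = c - ε * γ ζ := ⟨_, rfl⟩
  have hcΔ : c = ε * γ ζ + Δ := by rw [hΔ]; ring
  have r1 : (Δ * (starRingEnd ℂ) ζ).re = (c * (starRingEnd ℂ) ζ).re - ε / 2 * (ζ ^ 3).re := by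
    have : (ε * γ ζ * (starRingEnd ℂ) ζ).re = ε * (γ ζ * (starRingEnd ℂ) ζ).re := by
      rw [mul_assoc, re_ofReal_mul]
    rw [hΔ, sub_mul, sub_re, this, gam1 hζ]
    ring
  have r2 : (Δ * (starRingEnd ℂ) (u * ζ)).re =
      (c * (starRingEnd ℂ) (u * ζ)).re - ε / 2 * ((u * ζ) ^ 3).re := by
    have : (ε * γ ζ * (starRingEnd ℂ) (u * ζ)).re = ε * (γ ζ * (starRingEnd ℂ) (u * ζ)).re := by
      rw [mul_assoc, re_ofReal_mul]
    rw [hΔ, sub_mul, sub_re, this, gam2 hζ]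
    ring
  rw [← r1] at a1
  rw [← r2] at a2
  -- norm of Δ
  have hΔn : ‖Δ‖ ≤ 320 * ε ^ 3 := by
    obtain ⟨D, hD⟩ : ∃ D, D = Δ * (starRingEnd ℂ) ζ := ⟨_, rfl⟩
    have hDn : ‖Δ‖ = ‖D‖ := by rw [hD, norm_mul, RCLike.norm_conj, hζ, mul_one]
    have t2 : (Δ * (starRingEnd ℂ) (u * ζ)).re = 4 / 5 * D.re + 3 / 5 * D.im := by
      rw [map_mul, show Δ * ((starRingEnd ℂ) u * (starRingEnd ℂ) ζ) =
        D * (starRingEnd ℂ) u by rw [hD]; ring]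
      simp [u]
      ring
    rw [t2] at a2
    rw [← hD] at a1
    have a1' := abs_le.mp a1
    have a2' := abs_le.mp a2
    have hs : normSq D ≤ (320 * ε ^ 3) ^ 2 := by
      rw [normSq_apply]
      have y1 : |D.im| ≤ 300 * ε ^ 3 := by
        rw [abs_le]
        constructor <;> linarith [a1'.1, a1'.2, a2'.1, a2'.2]
      have y2 : |D.re * D.re| ≤ 100 * ε ^ 3 * (100 * ε ^ 3) := mulb a1 a1
      have y3 : |D.im * D.im| ≤ 300 * ε ^ 3 * (300 * ε ^ 3) := mulb y1 y1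
      have y4 := le_abs_self (D.re * D.re)
      have y5 := le_abs_self (D.im * D.im)
      have p6 : 0 < ε ^ 3 * ε ^ 3 := by positivity
      nlinarith only [y2, y3, y4, y5, p6]
    rw [normSq_eq_norm_sq] at hs
    rw [hDn]
    exact le_of_sq_le_sq hs (by positivity)
  -- norm of γ
  have hγn : ‖γ ζ‖ ≤ 13 / 10 := by
    have h5 : normSq (γ ζ) ≤ (13 / 10) ^ 2 := by
      rw [gam3 hζ]
      have h6 : |(u ^ 3 * ζ ^ 6).re| ≤ 1 := absre (by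
        rw [norm_mul, norm_pow, norm_pow, u_norm, hζ]; norm_num)
      have h7 := (abs_le.mp h6).1
      linarith
    rw [normSq_eq_norm_sq] at h5
    exact le_of_sq_le_sq h5 (by norm_num)
  have hN : normSq c = ε ^ 2 * normSq (γ ζ) + 2 * ε * (γ ζ * (starRingEnd ℂ) Δ).re + normSq Δ := by
    have t1 : (ε * γ ζ * (starRingEnd ℂ) Δ).re = ε * (γ ζ * (starRingEnd ℂ) Δ).re := by
      rw [mul_assoc, re_ofReal_mul]
    rw [hcΔ, normSq_add, t1, normSq_mul, normSq_ofReal]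
    ring
  have e1 : |ε| ≤ ε := (abs_of_pos hε).le
  have hNb : |normSq c - ε ^ 2 * normSq (γ ζ)| ≤ 833 * ε ^ 4 := by
    have t1 : |(γ ζ * (starRingEnd ℂ) Δ).re| ≤ 13 / 10 * (320 * ε ^ 3) := absre (by
      rw [norm_mul, RCLike.norm_conj]
      exact mul_le_mul hγn hΔn (norm_nonneg _) (by norm_num))
    have t2 : |normSq Δ| ≤ 320 * ε ^ 3 * (320 * ε ^ 3) := by
      rw [normSq_eq_norm_sq, pow_two]
      have : |‖Δ‖| ≤ 320 * ε ^ 3 := by rw [abs_of_nonneg (norm_nonneg _)]; exact hΔn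
      exact mulb this this
    have t3 : |2 * (ε * (γ ζ * (starRingEnd ℂ) Δ).re)| ≤ 2 * (ε * (13 / 10 * (320 * ε ^ 3))) :=
      mulb (by norm_num) (mulb e1 t1)
    have t4 : normSq c - ε ^ 2 * normSq (γ ζ) =
      2 * (ε * (γ ζ * (starRingEnd ℂ) Δ).re) + normSq Δ := by rw [hN]; ring
    rw [t4]
    refine (addb t3 t2).trans ?_
    have e5 : ε ^ 5 ≤ 1 / 10 ^ 6 * ε ^ 4 := by
      have := mul_le_mul_of_nonneg_right hε' p4.le; nlinarith only [this]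
    have e6 : ε ^ 6 ≤ 1 / 10 ^ 6 * ε ^ 5 := by
      have := mul_le_mul_of_nonneg_right hε' (pow_pos hε 5).le; nlinarith only [this]
    nlinarith only [e5, e6, p4]
  have est : ∀ e : ℂ, ‖e‖ = 1 →
      |μ - ((1 + ε * (e ^ 6).im) * (-normSq c + 3 * ε * (c * e ^ 2).re) +
        ε ^ 2 * (25 / 26 * (e ^ 6).re + ε * (-103 / 100) * (e ^ 6).im))| ≤ 1200 * ε ^ 4 →
      |μ - ε ^ 2 * ((1 + ε * (e ^ 6).im) * (-normSq (γ ζ) + 3 * (γ ζ * e ^ 2).re) +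
        (25 / 26 * (e ^ 6).re + ε * (-103 / 100) * (e ^ 6).im))| ≤ 3100 * ε ^ 4 := by
    intro e he hb
    have t1 : |(e ^ 6).im| ≤ 1 := absim (by rw [norm_pow, he]; norm_num)
    have hei := abs_le.mp (mulb e1 t1)
    have t2 : |1 + ε * (e ^ 6).im| ≤ 101 / 100 := by
      rw [abs_le]
      constructor <;> linarith only [hei.1, hei.2, hε']
    have t3 : |(Δ * e ^ 2).re| ≤ 320 * ε ^ 3 := absre (by
      rw [norm_mul, norm_pow, he]; simpa using hΔn)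
    have t4 : (c * e ^ 2).re = ε * (γ ζ * e ^ 2).re + (Δ * e ^ 2).re := by
      rw [hcΔ, add_mul, add_re, mul_assoc, re_ofReal_mul]
    have t5 : |(1 + ε * (e ^ 6).im) * (3 * (ε * (Δ * e ^ 2).re) -
        (normSq c - ε ^ 2 * normSq (γ ζ)))| ≤
        101 / 100 * (3 * (ε * (320 * ε ^ 3)) + 833 * ε ^ 4) :=
      mulb t2 (subb (mulb (by norm_num) (mulb e1 t3)) hNb)
    have t6 : μ - ε ^ 2 * ((1 + ε * (e ^ 6).im) * (-normSq (γ ζ) + 3 * (γ ζ * e ^ 2).re) +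
        (25 / 26 * (e ^ 6).re + ε * (-103 / 100) * (e ^ 6).im)) =
      (μ - ((1 + ε * (e ^ 6).im) * (-normSq c + 3 * ε * (c * e ^ 2).re) +
        ε ^ 2 * (25 / 26 * (e ^ 6).re + ε * (-103 / 100) * (e ^ 6).im))) +
      (1 + ε * (e ^ 6).im) * (3 * (ε * (Δ * e ^ 2).re) -
        (normSq c - ε ^ 2 * normSq (γ ζ))) := by
      rw [t4]; ring
    rw [t6]
    refine (addb hb t5).trans ?_
    nlinarith only [p4]
  have s1 := est ζ hζ b1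
  have s2 := est (u * ζ) huz b2
  have s3 := bdiff ε hε hζ
  have s1' := abs_le.mp s1
  have s2' := abs_le.mp s2
  have p2 : 0 < ε ^ 2 := by positivity
  have s4 := mul_le_mul_of_nonneg_left s3 p2.le
  have s5 : ε ^ 4 ≤ 1 / 10 ^ 6 * ε ^ 3 := by
    have := mul_le_mul_of_nonneg_right hε' p3.le; nlinarith only [this]
  nlinarith only [s1'.1, s1'.2, s2'.1, s2'.2, s4, s5, p3]

end Pool.Agent.Helper892.RectC
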