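import Mathlib
import Pool.Agent.Helper892.RectC

set_option autoImplicit false

namespace Pool.Agent.Helper892.RectD

open Complex Pool.Agent.Helper892.RectA Pool.Agent.Helper892.RectB Pool.Agent.Helper892.RectC

/-- The cutoff. -/
noncomputable def χ (z : ℂ) : ℝ := max 0 (min 1 (2 - 4 * |normSq z - 1|))

/-- The function on the whole plane. -/
noncomputable def f (ε : ℝ) (z : ℂ) : ℝ :=
  max 0 (4 - normSq z) + χ z * (F ε z + (normSq z - 1))

theorem f_cont (ε : ℝ) : Continuous (f ε) := by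
  unfold f χ F
  have h1 : Continuous fun z : ℂ => normSq z := continuous_normSq
  fun_prop

theorem χ_nonneg (z : ℂ) : 0 ≤ χ z := le_max_left _ _

theorem χ_le (z : ℂ) : χ z ≤ 1 := max_le (by norm_num) (min_le_left _ _)

theorem χ_zero {z : ℂ} (h : 1 / 2 ≤ |normSq z - 1|) : χ z = 0 := by
  unfold χ
  apply max_eq_left
  exact (min_le_right _ _).trans (by linarith)

theorem χ_one {z : ℂ} (h : |normSq z - 1| ≤ 1 / 4) : χ z = 1 := by
  unfold χ
  rw [min_eq_left (by linarith)]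
  norm_num

theorem P_bound (ε : ℝ) (hε : 0 < ε) (hε' : ε ≤ 1 / 10 ^ 6) (z : ℂ)
    (h : |normSq z - 1| ≤ 1 / 2) : |F ε z + (normSq z - 1)| ≤ 4 * ε := by
  have hz := abs_le.mp h
  have hn : ‖z‖ ^ 2 ≤ 3 / 2 := by rw [← normSq_eq_norm_sq]; linarith [hz.2]
  have h6 : ‖z‖ ^ 6 ≤ 27 / 8 := by
    calc ‖z‖ ^ 6 = (‖z‖ ^ 2) ^ 3 := by ring
      _ ≤ (3 / 2) ^ 3 := by gcongr
      _ = 27 / 8 := by norm_num
  have h3 : ‖z‖ ^ 3 ≤ 2 := by
    have : (‖z‖ ^ 3) ^ 2 ≤ 2 ^ 2 := by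
      calc (‖z‖ ^ 3) ^ 2 = ‖z‖ ^ 6 := by ring
        _ ≤ 27 / 8 := h6
        _ ≤ 2 ^ 2 := by norm_num
    exact le_of_sq_le_sq this (by norm_num)
  have i6 : |(z ^ 6).im| ≤ 27 / 8 := absim (by rw [norm_pow]; exact h6)
  have r6 : |(z ^ 6).re| ≤ 27 / 8 := absre (by rw [norm_pow]; exact h6)
  have r3 : |(z ^ 3).re| ≤ 2 := absre (by rw [norm_pow]; exact h3)
  have e1 : |ε| ≤ ε := (abs_of_pos hε).le
  have e2 : |ε ^ 2| ≤ ε ^ 2 := by rw [abs_of_pos (by positivity)]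
  have ck : |(25 / 26:ℝ)| ≤ 25 / 26 := by rw [abs_of_pos (by norm_num)]
  have ck' : |(-103 / 100:ℝ)| ≤ 103 / 100 := by rw [abs_of_neg (by norm_num)]; norm_num
  have t : F ε z + (normSq z - 1) = ε * (z ^ 3).re - ε * (z ^ 6).im * (normSq z - 1) +
      (ε * (z ^ 6).im * (ε * (z ^ 3).re) +
      ε ^ 2 * (25 / 26 * (z ^ 6).re + ε * (-103 / 100) * (z ^ 6).im)) := by
    unfold F; ring
  rw [t]
  refine (addb (subb (mulb e1 r3) (mulb (mulb e1 i6) h)) (addb (mulb (mulb e1 i6) (mulb e1 r3))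
    (mulb e2 (addb (mulb ck r6) (mulb (mulb e1 ck') i6))))).trans ?_
  have e22 : ε ^ 2 ≤ 1 / 10 ^ 6 * ε := by
    have := mul_le_mul_of_nonneg_right hε' hε.le; nlinarith only [this]
  have e3 : ε ^ 3 ≤ 1 / 10 ^ 6 * ε ^ 2 := by
    have := mul_le_mul_of_nonneg_right hε' (pow_pos hε 2).le; nlinarith only [this]
  nlinarith only [e22, e3, hε]

theorem f_close (ε : ℝ) (hε : 0 < ε) (hε' : ε ≤ 1 / 10 ^ 6) (z : ℂ) :
    |f ε z - max 0 (4 - normSq z)| ≤ 4 * ε := by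
  have t : f ε z - max 0 (4 - normSq z) = χ z * (F ε z + (normSq z - 1)) := by
    unfold f; ring
  rw [t]
  by_cases h : |normSq z - 1| ≤ 1 / 2
  · have h1 : |χ z| ≤ 1 := by rw [abs_of_nonneg (χ_nonneg z)]; exact χ_le z
    simpa using mulb h1 (P_bound ε hε hε' z h)
  · rw [χ_zero (by linarith), zero_mul, abs_zero]
    positivity

theorem f_zero (ε : ℝ) (z : ℂ) (h : 4 ≤ normSq z) : f ε z = 0 := by
  have h1 : 1 / 2 ≤ |normSq z - 1| := by
    rw [abs_of_pos (by linarith)]; linarith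
  unfold f
  rw [χ_zero h1, max_eq_left (by linarith)]
  ring

theorem f_pos (ε : ℝ) (hε : 0 < ε) (hε' : ε ≤ 1 / 10 ^ 6) (z : ℂ) (h : normSq z < 4) :
    0 < f ε z := by
  by_cases h1 : 1 / 2 ≤ |normSq z - 1|
  · unfold f
    rw [χ_zero h1, max_eq_right (by linarith)]
    linarith
  · have h2 := (abs_le.mp (f_close ε hε hε' z)).1
    rw [max_eq_right (by linarith)] at h2
    push Not at h1
    have := (abs_lt.mp h1).2
    linarith

theorem f_nonneg (ε : ℝ) (hε : 0 < ε) (hε' : ε ≤ 1 / 10 ^ 6) (z : ℂ) : 0 ≤ f ε z := by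
  rcases lt_or_ge (normSq z) 4 with h | h
  · exact (f_pos ε hε hε' z h).le
  · exact (f_zero ε z h).ge

/-- Coordinates of the centre relative to the diagonals. -/
theorem coords (c ζ : ℂ) (hζ : ‖ζ‖ = 1) (A : ℝ)
    (h1 : |(c * (starRingEnd ℂ) ζ).re| ≤ A) (h2 : |(c * (starRingEnd ℂ) (u * ζ)).re| ≤ A) :
    normSq c ≤ 10 * A ^ 2 := by
  obtain ⟨D, hD⟩ : ∃ D, D = c * (starRingEnd ℂ) ζ := ⟨_, rfl⟩
  have hDn : normSq c = normSq D := by
    rw [hD, normSq_mul, normSq_conj, normSq_eq_norm_sq ζ, hζ]; norm_num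
  have t2 : (c * (starRingEnd ℂ) (u * ζ)).re = 4 / 5 * D.re + 3 / 5 * D.im := by
    rw [map_mul, show c * ((starRingEnd ℂ) u * (starRingEnd ℂ) ζ) =
      D * (starRingEnd ℂ) u by rw [hD]; ring]
    simp [u]
    ring
  rw [t2] at h2
  rw [← hD] at h1
  have h1' := abs_le.mp h1
  have h2' := abs_le.mp h2
  rw [hDn, normSq_apply]
  have y1 : |D.im| ≤ 3 * A := by
    rw [abs_le]
    constructor <;> linarith [h1'.1, h1'.2, h2'.1, h2'.2]
  have y2 : |D.re * D.re| ≤ A * A := mulb h1 h1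
  have y3 : |D.im * D.im| ≤ 3 * A * (3 * A) := mulb y1 y1
  have y4 := le_abs_self (D.re * D.re)
  have y5 := le_abs_self (D.im * D.im)
  nlinarith only [y2, y3, y4, y5]

theorem nsq_add (c e : ℂ) (he : ‖e‖ = 1) :
    normSq (c + e) = normSq c + 1 + 2 * (c * (starRingEnd ℂ) e).re := by
  rw [normSq_add, normSq_eq_norm_sq e, he]; ring

theorem nsq_sub (c e : ℂ) (he : ‖e‖ = 1) :
    normSq (c - e) = normSq c + 1 - 2 * (c * (starRingEnd ℂ) e).re := by
  rw [normSq_sub, normSq_eq_norm_sq e, he]; ring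

theorem main (ε : ℝ) (hε : 0 < ε) (hε' : ε ≤ 1 / 10 ^ 6) (c ζ : ℂ) (hζ : ‖ζ‖ = 1)
    (hc : normSq c < 4) (lam : ℝ) (h1 : f ε (c + ζ) = lam) (h2 : f ε (c - ζ) = lam)
    (h3 : f ε (c + u * ζ) = lam) (h4 : f ε (c - u * ζ) = lam) : False := by
  have huz : ‖u * ζ‖ = 1 := by rw [norm_mul, u_norm, hζ, one_mul]
  have n1 := nsq_add c ζ hζ
  have n2 := nsq_sub c ζ hζ
  have n3 := nsq_add c (u * ζ) huz
  have n4 := nsq_sub c (u * ζ) huz
  have hlam : 0 < lam := by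
    by_contra hlam
    have q : ∀ z : ℂ, f ε z = lam → 4 ≤ normSq z := by
      intro z hz
      by_contra hh
      have := f_pos ε hε hε' z (by linarith)
      linarith
    have q1 := q _ h1
    have q2 := q _ h2
    have q3 := q _ h3
    have q4 := q _ h4
    have := coords c ζ hζ ((normSq c - 3) / 2)
      (by rw [abs_le]; constructor <;> linarith) (by rw [abs_le]; constructor <;> linarith)
    nlinarith [normSq_nonneg c]
  have q : ∀ z : ℂ, f ε z = lam → normSq z < 4 ∧ |lam - (4 - normSq z)| ≤ 4 * ε := by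
    intro z hz
    have : normSq z < 4 := by
      by_contra hh
      have := f_zero ε z (by linarith)
      linarith
    refine ⟨this, ?_⟩
    have h := f_close ε hε hε' z
    rw [hz, max_eq_right (by linarith)] at h
    exact h
  have q1 := abs_le.mp (q _ h1).2
  have q2 := abs_le.mp (q _ h2).2
  have q3 := abs_le.mp (q _ h3).2
  have q4 := abs_le.mp (q _ h4).2
  have a1 : |(c * (starRingEnd ℂ) ζ).re| ≤ 2 * ε := by
    rw [abs_le]; constructor <;> linarith [q1.1, q1.2, q2.1, q2.2]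
  have a2 : |(c * (starRingEnd ℂ) (u * ζ)).re| ≤ 2 * ε := by
    rw [abs_le]; constructor <;> linarith [q3.1, q3.2, q4.1, q4.2]
  have hcn := coords c ζ hζ (2 * ε) a1 a2
  have hcc : ‖c‖ ≤ 7 * ε := by
    rw [normSq_eq_norm_sq] at hcn
    refine le_of_sq_le_sq (hcn.trans ?_) (by positivity)
    nlinarith only [hε]
  have a1' := abs_le.mp a1
  have a2' := abs_le.mp a2
  have hε2 : ε ^ 2 ≤ 1 / 10 ^ 6 * ε := by
    have := mul_le_mul_of_nonneg_right hε' hε.le; nlinarith only [this]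
  have w : ∀ z : ℂ, f ε z = lam → |normSq z - 1| ≤ 1 / 4 → F ε z = lam - 3 := by
    intro z hz hz'
    have h := abs_le.mp hz'
    unfold f at hz
    rw [χ_one hz', max_eq_right (by linarith)] at hz
    linarith
  have hc0 := normSq_nonneg c
  exact core_two ε hε hε' ζ c hζ hcc (lam - 3)
    (w _ h1 (by rw [abs_le]; constructor <;> nlinarith only [n1, hcn, a1'.1, a1'.2, hε', hε2, hc0]))
    (w _ h2 (by rw [abs_le]; constructor <;> nlinarith only [n2, hcn, a1'.1, a1'.2, hε', hε2, hc0]))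
    (w _ h3 (by rw [abs_le]; constructor <;> nlinarith only [n3, hcn, a2'.1, a2'.2, hε', hε2, hc0]))
    (w _ h4 (by rw [abs_le]; constructor <;> nlinarith only [n4, hcn, a2'.1, a2'.2, hε', hε2, hc0]))

end Pool.Agent.Helper892.RectD
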